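import Pool.Agent.Lib.MP_4318ff_ag.Spec.N

/-!
# MP_4318ff_ag, module N/NExt: homomorphisms `K → K[[X]]` extend to automorphisms of `K[[X]]`
-/

set_option autoImplicit false

namespace Pool.Agent.Lib.MP_4318ff_ag

open PowerSeries

variable {k K : Type} [Field k] [Field K] [Algebra k K]

/-- The extension of `h` to `K[[X]]`. -/
private noncomputable def NExt_S (h : K →ₐ[k] PowerSeries K) (f : PowerSeries K) : PowerSeries K :=
  PowerSeries.mk fun N => ∑ p ∈ Finset.HasAntidiagonal.antidiagonal N, coeff p.1 (h (coeff p.2 f))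

private theorem NExt_coeff (h : K →ₐ[k] PowerSeries K) (f : PowerSeries K) (N : ℕ) :
    coeff N (NExt_S h f) = ∑ p ∈ Finset.HasAntidiagonal.antidiagonal N, coeff p.1 (h (coeff p.2 f)) := by
  unfold NExt_S
  rw [coeff_mk]

private theorem NExt_add (h : K →ₐ[k] PowerSeries K) (f g : PowerSeries K) :
    NExt_S h (f + g) = NExt_S h f + NExt_S h g := by
  ext N
  rw [map_add, NExt_coeff, NExt_coeff, NExt_coeff, ← Finset.sum_add_distrib]
  refine Finset.sum_congr rfl fun p _ => ?_
  rw [map_add, map_add, map_add]

private theorem NExt_zero (h : K →ₐ[k] PowerSeries K) : NExt_S h 0 = 0 := by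
  ext N
  rw [NExt_coeff]
  simp

private theorem NExt_congr (h : K →ₐ[k] PowerSeries K) {f g : PowerSeries K} {N : ℕ}
    (e : ∀ j ≤ N, coeff j f = coeff j g) : coeff N (NExt_S h f) = coeff N (NExt_S h g) := by
  rw [NExt_coeff, NExt_coeff]
  refine Finset.sum_congr rfl fun p hp => ?_
  have h1 := Finset.HasAntidiagonal.mem_antidiagonal.1 hp
  rw [e p.2 (by omega)]

private theorem NExt_mono (h : K →ₐ[k] PowerSeries K) (j : ℕ) (a : K) :
    NExt_S h (monomial j a) = X ^ j * h a := by
  ext N
  rw [NExt_coeff, coeff_X_pow_mul']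
  split_ifs with hj
  · rw [Finset.sum_eq_single (N - j, j)]
    · simp
    · intro p hp hne
      have h1 := Finset.HasAntidiagonal.mem_antidiagonal.1 hp
      have h2 : p.2 ≠ j := by
        intro h2
        apply hne
        ext
        · change p.1 = N - j
          omega
        · exact h2
      rw [coeff_monomial, if_neg h2, map_zero, map_zero]
    · intro hn
      exact absurd (Finset.HasAntidiagonal.mem_antidiagonal.2 (by change N - j + j = N; omega)) hn
  · refine Finset.sum_eq_zero fun p hp => ?_
    have h1 := Finset.HasAntidiagonal.mem_antidiagonal.1 hp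
    have h2 : p.2 ≠ j := by omega
    rw [coeff_monomial, if_neg h2, map_zero, map_zero]

private theorem NExt_pol (h : K →ₐ[k] PowerSeries K) (p : Polynomial K) :
    NExt_S h (p : PowerSeries K) = Polynomial.eval₂ (h : K →+* PowerSeries K) X p := by
  induction p using Polynomial.induction_on' with
  | add p q hp hq =>
    rw [Polynomial.coe_add, NExt_add, hp, hq, Polynomial.eval₂_add]
  | monomial n a =>
    rw [Polynomial.coe_monomial, NExt_mono, Polynomial.eval₂_monomial, mul_comm]
    rfl

private theorem NExt_trunc (h : K →ₐ[k] PowerSeries K) (f : PowerSeries K) {N M : ℕ} (hM : N ≤ M) :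
    coeff N (NExt_S h f) = coeff N (NExt_S h (trunc (M + 1) f : Polynomial K)) := by
  refine NExt_congr h fun j hj => ?_
  rw [Polynomial.coeff_coe, coeff_trunc, if_pos (by omega)]

private theorem NExt_mul (h : K →ₐ[k] PowerSeries K) (f g : PowerSeries K) :
    NExt_S h (f * g) = NExt_S h f * NExt_S h g := by
  ext N
  have h1 : coeff N (NExt_S h (f * g)) =
      coeff N (NExt_S h ((trunc (N + 1) f * trunc (N + 1) g : Polynomial K) : PowerSeries K)) := by
    refine NExt_congr h fun j hj => ?_
    rw [Polynomial.coe_mul, coeff_mul, coeff_mul]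
    refine Finset.sum_congr rfl fun p hp => ?_
    have h2 := Finset.HasAntidiagonal.mem_antidiagonal.1 hp
    rw [Polynomial.coeff_coe, Polynomial.coeff_coe, coeff_trunc, coeff_trunc, if_pos (by omega), if_pos (by omega)]
  rw [h1, NExt_pol, Polynomial.eval₂_mul, ← NExt_pol, ← NExt_pol, coeff_mul, coeff_mul]
  refine Finset.sum_congr rfl fun p hp => ?_
  have h2 := Finset.HasAntidiagonal.mem_antidiagonal.1 hp
  rw [← NExt_trunc h f (by omega : p.1 ≤ N), ← NExt_trunc h g (by omega : p.2 ≤ N)]

private theorem NExt_C (h : K →ₐ[k] PowerSeries K) (a : K) : NExt_S h (C a) = h a := by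
  have h1 := NExt_mono h 0 a
  rw [pow_zero, one_mul, monomial_zero_eq_C_apply] at h1
  exact h1

private theorem NExt_X (h : K →ₐ[k] PowerSeries K) : NExt_S h X = X := by
  have h1 := NExt_mono h 1 1
  rw [pow_one, map_one h, mul_one, ← X_eq] at h1
  exact h1

private noncomputable def NExt_inv (h : K →ₐ[k] PowerSeries K) (f : PowerSeries K) : ℕ → K
  | N => coeff N f - ∑ j : Fin N, coeff (N - (j : ℕ)) (h (NExt_inv h f j))
  termination_by N => N
  decreasing_by exact j.isLt

/-- The coefficient at `N`, with the leading term separated. -/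
private theorem NExt_lead (h : K →ₐ[k] PowerSeries K) (hh : ∀ a, constantCoeff (h a) = a) (f : PowerSeries K) (N : ℕ) :
    coeff N (NExt_S h f) = coeff N f + ∑ j : Fin N, coeff (N - (j : ℕ)) (h (coeff (j : ℕ) f)) := by
  rw [NExt_coeff, ← Finset.Nat.sum_antidiagonal_swap]
  rw [Finset.Nat.sum_antidiagonal_eq_sum_range_succ_mk, Finset.sum_range_succ, add_comm]
  congr 1
  · change coeff (N - N) (h (coeff N f)) = coeff N f
    rw [Nat.sub_self, coeff_zero_eq_constantCoeff_apply, hh]
  · rw [Finset.sum_range]
    rfl

theorem tNExt : NExtStmt := by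
  intro k K _ _ _ h hh
  have hinj : Function.Injective (NExt_S h) := by
    intro f g hfg
    ext N
    induction N using Nat.strong_induction_on with
    | _ N ih =>
      have h1 : coeff N (NExt_S h f) = coeff N (NExt_S h g) := by rw [hfg]
      rw [NExt_lead h hh, NExt_lead h hh] at h1
      have h2 : ∑ j : Fin N, coeff (N - (j : ℕ)) (h (coeff (j : ℕ) f)) =
          ∑ j : Fin N, coeff (N - (j : ℕ)) (h (coeff (j : ℕ) g)) := by
        refine Finset.sum_congr rfl fun j _ => ?_
        rw [ih j j.isLt]
      rw [h2] at h1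
      exact add_right_cancel h1
  have hsurj : Function.Surjective (NExt_S h) := by
    intro f
    refine ⟨PowerSeries.mk (NExt_inv h f), ?_⟩
    ext N
    rw [NExt_lead h hh]
    simp only [coeff_mk]
    rw [NExt_inv, sub_add_cancel]
  let S : PowerSeries K →ₐ[k] PowerSeries K :=
    { toFun := NExt_S h
      map_one' := by
        have h1 := NExt_C h 1
        rw [map_one, map_one] at h1
        exact h1
      map_mul' := NExt_mul h
      map_zero' := NExt_zero h
      map_add' := NExt_add h
      commutes' := by
        intro c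
        have h1 := NExt_C h (algebraMap k K c)
        rw [h.commutes] at h1
        rw [PowerSeries.algebraMap_apply, h1, PowerSeries.algebraMap_apply] }
  refine ⟨AlgEquiv.ofBijective S ⟨hinj, hsurj⟩, ⟨?_, ?_⟩, ?_⟩
  · exact NExt_X h
  · intro f
    change constantCoeff (NExt_S h f) = constantCoeff f
    rw [← coeff_zero_eq_constantCoeff_apply, ← coeff_zero_eq_constantCoeff_apply, NExt_lead h hh]
    simp
  · intro a
    exact NExt_C h a

end Pool.Agent.Lib.MP_4318ff_ag
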