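import Pool.Agent.Lib.MP_4318ff_ag.Spec.N

set_option autoImplicit false

namespace Pool.Agent.Lib.MP_4318ff_ag

open PowerSeries

section

variable {k : Type} [Field k]

private lemma NArc_ev_zero (hev : EvStmt) : (ev (0 : Fin 3 → k) : F k) = 0 := ((hev k).2.2 0).2 rfl

private lemma NArc_ev_sum (hev : EvStmt) {ι : Type} (s : Finset ι) (t : ι → k) (a : ι → Fin 3 → k) :
    ev (∑ i ∈ s, t i • a i) = ∑ i ∈ s, algebraMap k (F k) (t i) * ev (a i) := by
  classical
  induction s using Finset.induction_on with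
  | empty => simp [NArc_ev_zero hev]
  | insert i s hi ih => rw [Finset.sum_insert hi, Finset.sum_insert hi, (hev k).1, (hev k).2.1, ih]

private lemma NArc_ev_inj (hev : EvStmt) {a b : Fin 3 → k} (h : ev a = ev b) : a = b := by
  have h1 : ev (a + (-1 : k) • b) = 0 := by
    rw [(hev k).1, (hev k).2.1, h, map_neg, map_one]; ring
  have h2 := ((hev k).2.2 _).1 h1
  have h3 : a = a + (-1 : k) • b + b := by
    rw [neg_smul, one_smul]; abel
  rw [h3, h2, zero_add]

/-- Three vectors of a spanning family which form a basis. -/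
private lemma NArc_basis {r : ℕ} (v : Fin r → Fin 3 → k) (hv : Submodule.span k (Set.range v) = ⊤) :
    ∃ j : Fin 3 → Fin r, LinearIndependent k (fun a => v (j a)) := by
  obtain ⟨κ, a, -, hs, hl⟩ := exists_linearIndependent' k v
  rw [hv] at hs
  have b := Module.Basis.mk hl hs.ge
  have : Fintype κ := FiniteDimensional.fintypeBasisIndex b
  have hcard : Fintype.card κ = 3 := by
    rw [← Module.finrank_eq_card_basis b]; simp
  have e : Fin 3 ≃ κ := (Fintype.equivFinOfCardEq hcard).symm
  exact ⟨fun i => a (e i), hl.comp e e.injective⟩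

/-- A form which vanishes at `p` is a combination of two independent forms which vanish at `p`. -/
private lemma NArc_perp {v w c p : Fin 3 → k} (hvw : LinearIndependent k ![v, w]) (hp : p ≠ 0)
    (hv : v ⬝ᵥ p = 0) (hw : w ⬝ᵥ p = 0) (hc : c ⬝ᵥ p = 0) : ∃ s t : k, c = s • v + t • w := by
  have hdet : (Matrix.of ![c, v, w]).det = 0 := by
    rw [← Matrix.exists_mulVec_eq_zero_iff]
    refine ⟨p, hp, ?_⟩
    ext i
    fin_cases i <;> simp [Matrix.mulVec, hv, hw, hc]
  have hnl : ¬ LinearIndependent k ![c, v, w] := by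
    intro h
    have h2 : LinearIndependent k (Matrix.of ![c, v, w]).row := h
    rw [Matrix.linearIndependent_rows_iff_isUnit, Matrix.isUnit_iff_isUnit_det, hdet] at h2
    exact not_isUnit_zero h2
  have hmem : c ∈ Submodule.span k (Set.range ![v, w]) := by
    by_contra hcon
    exact hnl (linearIndependent_finCons.2 ⟨hvw, hcon⟩)
  rw [Submodule.mem_span_range_iff_exists_fun] at hmem
  obtain ⟨f, hf⟩ := hmem
  refine ⟨f 0, f 1, ?_⟩
  rw [← hf, Fin.sum_univ_two]
  rfl

/-- Independence over `k[[X]]` of series with independent constant coefficients. -/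
private lemma NArc_ind (hev : EvStmt) (w : Fin 3 → Fin 3 → k) (hw : LinearIndependent k w) {e0 : F k} (he : e0 ≠ 0)
    (h : Fin 3 → PowerSeries (F k)) (hh : ∀ a, PowerSeries.constantCoeff (h a) = ev (w a) / e0)
    (d : Fin 3 → PowerSeries k) (hd : ∑ a, PowerSeries.map (algebraMap k (F k)) (d a) * h a = 0) : ∀ a, d a = 0 := by
  have key : ∀ n a, PowerSeries.coeff n (d a) = 0 := by
    intro n
    induction n using Nat.strong_induction_on with
    | _ n ih =>
      have h1 : ∀ a, PowerSeries.coeff n (PowerSeries.map (algebraMap k (F k)) (d a) * h a) =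
          algebraMap k (F k) (PowerSeries.coeff n (d a)) * (ev (w a) / e0) := by
        intro a
        rw [PowerSeries.coeff_mul, Finset.sum_eq_single (n, 0)]
        · rw [PowerSeries.coeff_map, PowerSeries.coeff_zero_eq_constantCoeff_apply, hh]
        · rintro ⟨p, q⟩ hpq hne
          rw [Finset.HasAntidiagonal.mem_antidiagonal] at hpq
          have hp : p < n := by
            rcases Nat.lt_or_ge p n with h' | h'
            · exact h'
            · exfalso
              simp only at hpq
              exact hne (by ext <;> simp <;> omega)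
          rw [PowerSeries.coeff_map, ih p hp a, map_zero, zero_mul]
        · intro hcon
          exact absurd (by simp) hcon
      have h2 := congrArg (PowerSeries.coeff n) hd
      rw [map_sum, map_zero, Finset.sum_congr rfl (fun a _ => h1 a)] at h2
      have h3 : ev (∑ a, PowerSeries.coeff n (d a) • w a) = 0 := by
        rw [NArc_ev_sum hev]
        have h4 : (∑ a, algebraMap k (F k) (PowerSeries.coeff n (d a)) * ev (w a)) / e0 = 0 := by
          rw [Finset.sum_div, ← h2]
          exact Finset.sum_congr rfl fun a _ => by rw [mul_div_assoc]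
        rcases div_eq_zero_iff.1 h4 with h5 | h5
        · exact h5
        · exact absurd h5 he
      have h6 := ((hev k).2.2 _).1 h3
      exact Fintype.linearIndependent_iff.1 hw _ h6
  intro a
  ext n
  rw [key n a, map_zero]

variable {r : ℕ} {C : Config k r}

private lemma NArc_const {K : Type} [Field K] [Algebra k K] (σ : PowerSeries K ≃ₐ[k] PowerSeries K) (c : k) :
    σ (PowerSeries.C (algebraMap k K c)) = PowerSeries.C (algebraMap k K c) := by
  have h : (PowerSeries.C (algebraMap k K c) : PowerSeries K) = algebraMap k (PowerSeries K) c := by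
    rw [PowerSeries.algebraMap_apply]
  rw [h, AlgEquiv.commutes]

/-- Sections with bounded denominators are combinations over `k[[X]]` of the sections `H a`. -/
private lemma NArc_exp (hspan : NSpanStmt) (γ : Chart C → Chart C → (PowerSeries (F k) ≃ₐ[k] PowerSeries (F k)))
    (hγ : IsLogDef C γ) (D : Chart C → F k) {n : ℕ} (H : Fin n → Chart C → PowerSeries (F k)) (h0 : Fin n → F k)
    (hH1 : ∀ a u v, γ u v (H a v) = H a u) (hH2 : ∀ a u, PowerSeries.constantCoeff (H a u) = h0 a)
    (hH3 : ∀ a u m, PowerSeries.coeff m (H a u) * D u ∈ u.R)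
    (hf : ∀ f : F k, (∀ u, f * D u ∈ u.R) → ∃ l : Fin n → k, f = ∑ a, algebraMap k (F k) (l a) * h0 a)
    (x : Chart C → PowerSeries (F k)) (hx1 : ∀ u v, γ u v (x v) = x u)
    (hx3 : ∀ u m, PowerSeries.coeff m (x u) * D u ∈ u.R) :
    ∃ c : Fin n → PowerSeries k, ∀ u, x u = ∑ a, PowerSeries.map (algebraMap k (F k)) (c a) * H a u := by
  refine hspan k (F k) (Chart C) n {x | (∀ u v, γ u v (x v) = x u) ∧ ∀ u m, PowerSeries.coeff m (x u) * D u ∈ u.R} H
    ?_ x ⟨hx1, hx3⟩
  clear hx1 hx3 x
  rintro x ⟨hx1, hx3⟩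
  rcases isEmpty_or_nonempty (Chart C) with hem | ⟨⟨u₀⟩⟩
  · exact ⟨fun _ => 0, x, ⟨hx1, hx3⟩, fun u => hem.elim u⟩
  have hc : ∀ u, PowerSeries.constantCoeff (x u) = PowerSeries.constantCoeff (x u₀) := by
    intro u
    rw [← hx1 u u₀, (hγ.isDef u u₀).2]
  obtain ⟨l, hl⟩ := hf (PowerSeries.constantCoeff (x u₀)) (fun u => by
    rw [← hc u, ← PowerSeries.coeff_zero_eq_constantCoeff_apply]; exact hx3 u 0)
  set z : Chart C → PowerSeries (F k) := fun u => x u - ∑ a, PowerSeries.C (algebraMap k (F k) (l a)) * H a u with hz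
  have hz0 : ∀ u, PowerSeries.constantCoeff (z u) = 0 := by
    intro u
    simp only [hz]
    rw [map_sub, map_sum, hc, hl, sub_eq_zero]
    refine Finset.sum_congr rfl fun a _ => ?_
    rw [map_mul, PowerSeries.constantCoeff_C, hH2]
  have hz1 : ∀ u v, γ u v (z v) = z u := by
    intro u v
    simp only [hz]
    rw [map_sub, map_sum, hx1]
    refine congrArg₂ _ rfl (Finset.sum_congr rfl fun a _ => ?_)
    rw [map_mul, NArc_const, hH1]
  have hz3 : ∀ u m, PowerSeries.coeff m (z u) * D u ∈ u.R := by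
    intro u m
    simp only [hz]
    rw [map_sub, sub_mul, map_sum, Finset.sum_mul]
    refine sub_mem (hx3 u m) (sum_mem fun a _ => ?_)
    rw [PowerSeries.coeff_C_mul, mul_assoc]
    exact mul_mem (u.R.algebraMap_mem _) (hH3 a u m)
  set x' : Chart C → PowerSeries (F k) := fun u => PowerSeries.mk fun m => PowerSeries.coeff (m + 1) (z u) with hx'
  have hX : ∀ u, PowerSeries.X * x' u = z u := by
    intro u
    ext m
    cases m with
    | zero =>
      rw [PowerSeries.coeff_zero_X_mul, PowerSeries.coeff_zero_eq_constantCoeff_apply, hz0]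
    | succ m => rw [PowerSeries.coeff_succ_X_mul, hx', PowerSeries.coeff_mk]
  refine ⟨l, x', ⟨fun u v => ?_, fun u m => ?_⟩, fun u => ?_⟩
  · refine mul_left_cancel₀ (PowerSeries.X_ne_zero (R := F k)) ?_
    rw [hX u, ← hz1 u v, ← hX v, map_mul, (hγ.isDef u v).1]
  · rw [hx', PowerSeries.coeff_mk]
    exact hz3 u (m + 1)
  · rw [hX u]
    simp only [hz]
    ring

private lemma NArc_chart (hr : 2 ≤ r) (i₀ : Fin r) : Nonempty (Chart C) := by
  classical
  have hne : ∀ i, C.ℓ i ≠ 0 := by
    intro i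
    have : Nontrivial (Fin r) := Fin.nontrivial_iff_two_le.2 hr
    obtain ⟨i', hi'⟩ := exists_ne i
    exact (C.indep i i' hi'.symm).ne_zero 0
  have hM : ∀ P ∈ C.M, ∃ i, i ∈ C.through P := by
    intro P hP
    have h1 : 3 ≤ (C.through P).ncard := hP
    have h2 : (C.through P).ncard ≠ 0 := by omega
    exact Set.nonempty_of_ncard_ne_zero h2
  exact ⟨⟨C.ℓ i₀, hne i₀, fun P => if h : P ∈ C.M then C.ℓ (Classical.choose (hM P h)) else 0,
    fun P h => by simpa only [dif_pos h] using hne _,
    fun P h => by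
      simp only [dif_pos h]
      exact Classical.choose_spec (hM P h)⟩⟩

end

/-- MODULE `N/NArc`: the arc of configurations. -/
theorem tNArc (hev : EvStmt) (hH : NHStmt) (hH0 : NH0Stmt) (hspan : NSpanStmt) : NArcStmt := by
  intro k _ _ r C P₀ hP₀ hr γ hγ i₀
  classical
  have hne : ∀ i, C.ℓ i ≠ 0 := by
    intro i
    have : Nontrivial (Fin r) := Fin.nontrivial_iff_two_le.2 hr
    obtain ⟨i', hi'⟩ := exists_ne i
    exact (C.indep i i' hi'.symm).ne_zero 0
  have hevne : ∀ i, (ev (C.ℓ i) : F k) ≠ 0 := fun i h => hne i (((hev k).2.2 _).1 h)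
  choose H hH1 hH2 hH3 using fun i => hH k r C P₀ hP₀ hr γ hγ i i₀
  obtain ⟨j, hj⟩ := NArc_basis C.ℓ C.span
  set M : Matrix (Fin 3) (Fin 3) k := Matrix.of (fun a b => C.ℓ (j a) b) with hM
  have hMu : IsUnit M.det := by
    rw [← Matrix.isUnit_iff_isUnit_det, ← Matrix.linearIndependent_rows_iff_isUnit]
    exact hj
  have hMN : M * M⁻¹ = 1 := Matrix.mul_nonsing_inv M hMu
  have hNM : M⁻¹ * M = 1 := Matrix.nonsing_inv_mul M hMu
  have hcomb : ∀ c : Fin 3 → k, c = ∑ a, (Matrix.vecMul c M⁻¹) a • C.ℓ (j a) := by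
    intro c
    have h1 : Matrix.vecMul (Matrix.vecMul c M⁻¹) M = c := by
      rw [Matrix.vecMul_vecMul, hNM, Matrix.vecMul_one]
    ext b
    have h2 := congrFun h1 b
    rw [← h2, Matrix.vecMul, dotProduct, Finset.sum_apply]
    exact Finset.sum_congr rfl fun a _ => rfl
  have hbR : ∀ (u : Chart C) (c : Fin 3 → k), ev c / ev u.b ∈ u.R := fun u c =>
    Algebra.subset_adjoin (Or.inl ⟨c, rfl⟩)
  have haR : ∀ (u : Chart C) (P : Pt k), P ∈ C.M → ∀ c : Fin 3 → k, c ⬝ᵥ P.rep = 0 → ev c / ev (u.a P) ∈ u.R :=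
    fun u P hP c hc => Algebra.subset_adjoin (Or.inr ⟨P, hP, c, hc, rfl⟩)
  -- the expansion of `H i`
  have hexp : ∀ i, ∃ c : Fin 3 → PowerSeries k, ∀ u,
      H i u = ∑ a, PowerSeries.map (algebraMap k (F k)) (c a) * H (j a) u := by
    intro i
    have hden : ∀ i u m, PowerSeries.coeff m (H i u) * (ev (C.ℓ i₀) / ev u.b) ∈ u.R := by
      intro i u m
      have h1 := mul_mem (hH3 i u m) (hbR u (C.ℓ i))
      have h2 : PowerSeries.coeff m (H i u) * (ev (C.ℓ i₀) / ev (C.ℓ i)) * (ev (C.ℓ i) / ev u.b) =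
          PowerSeries.coeff m (H i u) * (ev (C.ℓ i₀) / ev u.b) := by
        have := hevne i
        field_simp
      rwa [h2] at h1
    refine NArc_exp hspan γ hγ (fun u => ev (C.ℓ i₀) / ev u.b) (fun a => H (j a))
      (fun a => ev (C.ℓ (j a)) / ev (C.ℓ i₀)) (fun a => hH1 (j a)) (fun a => hH2 (j a)) (fun a => hden (j a)) ?_ (H i)
      (hH1 i) (hden i)
    intro f hf
    obtain ⟨c, hc⟩ := (hH0 k r C (C.ℓ i₀) (hne i₀) f).1 hf
    refine ⟨Matrix.vecMul c M⁻¹, ?_⟩
    conv_lhs => rw [hc, hcomb c, NArc_ev_sum hev, Finset.sum_div]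
    exact Finset.sum_congr rfl fun a _ => by rw [mul_div_assoc]
  choose c hc using hexp
  obtain ⟨u₀⟩ := NArc_chart (C := C) hr i₀
  have hc0 : ∀ i, C.ℓ i = ∑ a, PowerSeries.constantCoeff (c i a) • C.ℓ (j a) := by
    intro i
    have h1 := congrArg PowerSeries.constantCoeff (hc i u₀)
    rw [hH2, map_sum] at h1
    apply NArc_ev_inj hev
    rw [NArc_ev_sum hev]
    have h2 := congrArg (fun t => t * ev (C.ℓ i₀)) h1
    rw [div_mul_cancel₀ _ (hevne i₀), Finset.sum_mul] at h2
    rw [h2]
    refine Finset.sum_congr rfl fun a _ => ?_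
    rw [map_mul, hH2, ← PowerSeries.coeff_zero_eq_constantCoeff_apply, PowerSeries.coeff_map, mul_assoc,
      div_mul_cancel₀ _ (hevne i₀), PowerSeries.coeff_zero_eq_constantCoeff_apply]
  refine ⟨fun i b => ∑ a, c i a * PowerSeries.C (C.ℓ (j a) b),
    fun u b => ∑ a, PowerSeries.C (algebraMap k (F k) (M⁻¹ b a)) * H (j a) u, ?_, ?_, ?_, ?_, ?_⟩
  · -- (a)
    intro i b
    rw [map_sum]
    conv_rhs => rw [hc0 i, Finset.sum_apply]
    refine Finset.sum_congr rfl fun a _ => ?_
    rw [map_mul, PowerSeries.constantCoeff_C]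
    rfl
  · -- (b)
    intro P hP i hi i' hi' m hm
    rcases eq_or_ne i i' with rfl | hii
    · exact Matrix.det_zero_of_row_eq (i := 0) (j := 1) (by decide) rfl
    have hden : ∀ m' ∈ C.through P, ∀ u n, PowerSeries.coeff n (H m' u) * (ev (C.ℓ i₀) / ev (u.a P)) ∈ u.R := by
      intro m' hm' u n
      have h1 := mul_mem (hH3 m' u n) (haR u P hP (C.ℓ m') hm')
      have h2 : PowerSeries.coeff n (H m' u) * (ev (C.ℓ i₀) / ev (C.ℓ m')) * (ev (C.ℓ m') / ev (u.a P)) =
          PowerSeries.coeff n (H m' u) * (ev (C.ℓ i₀) / ev (u.a P)) := by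
        have := hevne m'
        field_simp
      rwa [h2] at h1
    have hx : ∃ x : Fin 2 → PowerSeries k, ∀ u,
        H m u = ∑ a, PowerSeries.map (algebraMap k (F k)) (x a) * H (![i, i'] a) u := by
      have hth : ∀ a : Fin 2, ![i, i'] a ∈ C.through P := by
        intro a
        fin_cases a
        · exact hi
        · exact hi'
      refine NArc_exp hspan γ hγ (fun u => ev (C.ℓ i₀) / ev (u.a P)) (fun a => H (![i, i'] a))
        (fun a => ev (C.ℓ (![i, i'] a)) / ev (C.ℓ i₀)) (fun a => hH1 (![i, i'] a)) (fun a => hH2 (![i, i'] a))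
        (fun a => hden _ (hth a)) ?_ (H m) (hH1 m) (hden m hm)
      intro f hf
      obtain ⟨d, hd, hfd⟩ := (hH0 k r C (C.ℓ i₀) (hne i₀) f).2 P hP hf
      obtain ⟨s, t, hst⟩ := NArc_perp (C.indep i i' hii) P.rep_nonzero hi hi' hd
      refine ⟨![s, t], ?_⟩
      rw [hfd, hst, (hev k).1, (hev k).2.1, (hev k).2.1, Fin.sum_univ_two]
      simp only [Matrix.cons_val_zero, Matrix.cons_val_one]
      rw [add_div, mul_div_assoc, mul_div_assoc]
    obtain ⟨x, hx⟩ := hx
    have hrel := NArc_ind hev (fun a => C.ℓ (j a)) hj (hevne i₀) (fun a => H (j a) u₀) (fun a => hH2 (j a) u₀)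
      (fun a => c m a - x 0 * c i a - x 1 * c i' a) (by
        have h1 := hx u₀
        rw [Fin.sum_univ_two] at h1
        simp only [Matrix.cons_val_zero, Matrix.cons_val_one] at h1
        rw [hc m u₀, hc i u₀, hc i' u₀] at h1
        simp only [Fin.sum_univ_three, map_sub, map_mul] at h1 ⊢
        linear_combination h1)
    have hrel2 : ∀ a, c m a = x 0 * c i a + x 1 * c i' a := by
      intro a
      have := hrel a
      linear_combination this
    rw [Matrix.det_fin_three]
    simp only [Matrix.of_apply, Matrix.cons_val_zero, Matrix.cons_val_one, Matrix.cons_val_two,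
      Matrix.head_cons, Matrix.tail_cons, hrel2, Fin.sum_univ_three]
    ring
  · -- (c)
    intro u v b
    simp only
    rw [map_sum]
    exact Finset.sum_congr rfl fun a _ => by rw [map_mul, NArc_const, hH1]
  · -- (d)
    intro u b
    simp only
    rw [map_sum, eq_div_iff (hevne i₀), Finset.sum_mul]
    have h1 : ∀ a, PowerSeries.constantCoeff (PowerSeries.C (algebraMap k (F k) (M⁻¹ b a)) * H (j a) u) * ev (C.ℓ i₀) =
        ∑ b', algebraMap k (F k) (M⁻¹ b a * M a b') * gen k b' := by
      intro a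
      rw [map_mul, PowerSeries.constantCoeff_C, hH2, mul_assoc, div_mul_cancel₀ _ (hevne i₀), ev, Finset.mul_sum]
      refine Finset.sum_congr rfl fun b' _ => ?_
      rw [map_mul, ← mul_assoc]
      rfl
    rw [Finset.sum_congr rfl (fun a _ => h1 a), Finset.sum_comm]
    have h2 : ∀ b', ∑ a, algebraMap k (F k) (M⁻¹ b a * M a b') * gen k b' =
        algebraMap k (F k) ((1 : Matrix (Fin 3) (Fin 3) k) b b') * gen k b' := by
      intro b'
      rw [← Finset.sum_mul, ← map_sum, ← hNM, Matrix.mul_apply]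
    rw [Finset.sum_congr rfl (fun b' _ => h2 b'), Finset.sum_eq_single b]
    · rw [Matrix.one_apply_eq, map_one, one_mul]
    · intro b' _ hb'
      rw [Matrix.one_apply_ne hb'.symm, map_zero, zero_mul]
    · intro hb
      exact absurd (Finset.mem_univ b) hb
  · -- (e)
    intro u i m
    have h1 : ∑ b, PowerSeries.map (algebraMap k (F k)) (∑ a, c i a * PowerSeries.C (C.ℓ (j a) b)) *
        (∑ a, PowerSeries.C (algebraMap k (F k) (M⁻¹ b a)) * H (j a) u) = H i u := by
      have h2 : ∀ b, PowerSeries.map (algebraMap k (F k)) (∑ a, c i a * PowerSeries.C (C.ℓ (j a) b)) *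
          (∑ a, PowerSeries.C (algebraMap k (F k) (M⁻¹ b a)) * H (j a) u) =
          ∑ a, ∑ a', PowerSeries.map (algebraMap k (F k)) (c i a) * H (j a') u *
            PowerSeries.C (algebraMap k (F k) (M a b * M⁻¹ b a')) := by
        intro b
        rw [map_sum, Finset.sum_mul]
        refine Finset.sum_congr rfl fun a _ => ?_
        rw [Finset.mul_sum]
        refine Finset.sum_congr rfl fun a' _ => ?_
        rw [map_mul, PowerSeries.map_C, map_mul, map_mul]
        have h3 : M a b = C.ℓ (j a) b := rfl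
        rw [h3]
        ring
      rw [Finset.sum_congr rfl (fun b _ => h2 b), Finset.sum_comm, hc i u]
      refine Finset.sum_congr rfl fun a _ => ?_
      rw [Finset.sum_comm]
      have h4 : ∀ a', ∑ b, PowerSeries.map (algebraMap k (F k)) (c i a) * H (j a') u *
          PowerSeries.C (algebraMap k (F k) (M a b * M⁻¹ b a')) =
          PowerSeries.map (algebraMap k (F k)) (c i a) * H (j a') u *
            PowerSeries.C (algebraMap k (F k) ((1 : Matrix (Fin 3) (Fin 3) k) a a')) := by
        intro a'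
        rw [← Finset.mul_sum, ← map_sum, ← map_sum, ← hMN, Matrix.mul_apply]
      rw [Finset.sum_congr rfl (fun a' _ => h4 a'), Finset.sum_eq_single a]
      · rw [Matrix.one_apply_eq, map_one, map_one, mul_one]
      · intro a' _ ha'
        rw [Matrix.one_apply_ne ha'.symm, map_zero, map_zero, mul_zero]
      · intro ha
        exact absurd (Finset.mem_univ a) ha
    rw [h1]
    exact hH3 i u m

end Pool.Agent.Lib.MP_4318ff_ag
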