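import Pool.Agent.Lib.MP_4318ff_ag.Spec.N

set_option autoImplicit false

namespace Pool.Agent.Lib.MP_4318ff_ag

open PowerSeries

/-- divided powers of a derivation -/
private noncomputable def NExp_e {k K : Type} [Field k] [Field K] [Algebra k K] (E : Derivation k K K) (i : ℕ) (a : K) : K :=
  ((i.factorial : k)⁻¹) • (E^[i]) a

private theorem NExp_e_zero {k K : Type} [Field k] [Field K] [Algebra k K] (E : Derivation k K K) (a : K) :
    NExp_e E 0 a = a := by
  simp [NExp_e]

private theorem NExp_e_succ {k K : Type} [Field k] [CharZero k] [Field K] [Algebra k K] (E : Derivation k K K) (i : ℕ)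
    (a : K) : E (NExp_e E i a) = ((i : k) + 1) • NExp_e E (i + 1) a := by
  unfold NExp_e
  rw [Derivation.map_smul, smul_smul, Function.iterate_succ_apply', Nat.factorial_succ]
  have h1 : ((i : k) + 1) ≠ 0 := Nat.cast_add_one_ne_zero i
  have h2 : (i.factorial : k) ≠ 0 := Nat.cast_ne_zero.mpr (Nat.factorial_ne_zero i)
  congr 1
  push_cast
  field_simp

private theorem NExp_e_add {k K : Type} [Field k] [Field K] [Algebra k K] (E : Derivation k K K) (i : ℕ) (a b : K) :
    NExp_e E i (a + b) = NExp_e E i a + NExp_e E i b := by
  unfold NExp_e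
  rw [← smul_add]
  congr 1
  induction i with
  | zero => rfl
  | succ i ih => rw [Function.iterate_succ_apply', Function.iterate_succ_apply', Function.iterate_succ_apply', ih,
      map_add]

private theorem NExp_iter_zero {k K : Type} [Field k] [Field K] [Algebra k K] (E : Derivation k K K) (i : ℕ) :
    (E^[i]) 0 = 0 := by
  induction i with
  | zero => rfl
  | succ i ih => rw [Function.iterate_succ_apply', ih, map_zero]

private theorem NExp_e_alg {k K : Type} [Field k] [Field K] [Algebra k K] (E : Derivation k K K) (i : ℕ) (c : k) :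
    NExp_e E (i + 1) (algebraMap k K c) = 0 := by
  unfold NExp_e
  rw [Function.iterate_succ_apply, Derivation.map_algebraMap, NExp_iter_zero, smul_zero]

private theorem NExp_e_mul {k K : Type} [Field k] [CharZero k] [Field K] [Algebra k K] (E : Derivation k K K) (i : ℕ)
    (a b : K) : NExp_e E i (a * b) =
      ∑ p ∈ Finset.HasAntidiagonal.antidiagonal i, NExp_e E p.1 a * NExp_e E p.2 b := by
  induction i with
  | zero => simp [NExp_e_zero]
  | succ i ih =>
    have h1 : ((i : k) + 1) ≠ 0 := Nat.cast_add_one_ne_zero i
    have key : ((i : k) + 1) • NExp_e E (i + 1) (a * b) = ((i : k) + 1) •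
        ∑ p ∈ Finset.HasAntidiagonal.antidiagonal (i + 1), NExp_e E p.1 a * NExp_e E p.2 b := by
      rw [← NExp_e_succ, ih, map_sum]
      have e1 : ∀ p ∈ Finset.HasAntidiagonal.antidiagonal i, E (NExp_e E p.1 a * NExp_e E p.2 b) =
          ((p.2 : k) + 1) • (NExp_e E p.1 a * NExp_e E (p.2 + 1) b) +
          ((p.1 : k) + 1) • (NExp_e E (p.1 + 1) a * NExp_e E p.2 b) := by
        intro p _
        rw [Derivation.leibniz, NExp_e_succ, NExp_e_succ, smul_eq_mul, smul_eq_mul, mul_smul_comm, mul_smul_comm,
          mul_comm (NExp_e E p.2 b)]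
      rw [Finset.sum_congr rfl e1, Finset.sum_add_distrib]
      have e2 : ((i : k) + 1) • ∑ p ∈ Finset.HasAntidiagonal.antidiagonal (i + 1), NExp_e E p.1 a * NExp_e E p.2 b =
          ∑ p ∈ Finset.HasAntidiagonal.antidiagonal (i + 1), (p.2 : k) • (NExp_e E p.1 a * NExp_e E p.2 b) +
          ∑ p ∈ Finset.HasAntidiagonal.antidiagonal (i + 1), (p.1 : k) • (NExp_e E p.1 a * NExp_e E p.2 b) := by
        rw [Finset.smul_sum, ← Finset.sum_add_distrib]
        refine Finset.sum_congr rfl ?_
        intro p hp
        have hp' : p.1 + p.2 = i + 1 := Finset.HasAntidiagonal.mem_antidiagonal.mp hp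
        rw [← add_smul]
        congr 1
        have : ((p.1 + p.2 : ℕ) : k) = ((i + 1 : ℕ) : k) := by rw [hp']
        push_cast at this
        rw [← this, add_comm]
      rw [e2]
      congr 1
      · rw [Finset.Nat.sum_antidiagonal_succ']
        simp
      · rw [Finset.Nat.sum_antidiagonal_succ]
        simp
    have := congrArg (fun z => ((i : k) + 1)⁻¹ • z) key
    simpa only [smul_smul, inv_mul_cancel₀ h1, one_smul] using this

theorem tNExp (hG : NGrpStmt) (hE : NExtStmt) : NExpStmt := by
  intro k K _ _ _ _ E m hm
  obtain ⟨-, -, -, -, -, -, -, g8⟩ := hG k K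
  let h0 : K →ₐ[k] PowerSeries K :=
    { toFun := fun a => PowerSeries.mk fun j => NExp_e E j a
      map_one' := by
        ext j
        rw [PowerSeries.coeff_mk, PowerSeries.coeff_one]
        cases j with
        | zero => simp [NExp_e_zero]
        | succ j =>
          have := NExp_e_alg E j 1
          rw [map_one] at this
          simpa using this
      map_mul' := by
        intro a b
        ext j
        rw [PowerSeries.coeff_mk, PowerSeries.coeff_mul, NExp_e_mul]
        refine Finset.sum_congr rfl ?_
        intro p hp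
        rw [PowerSeries.coeff_mk, PowerSeries.coeff_mk]
      map_zero' := by
        ext j
        rw [PowerSeries.coeff_mk]
        unfold NExp_e
        rw [NExp_iter_zero, smul_zero, map_zero]
      map_add' := by
        intro a b
        ext j
        rw [PowerSeries.coeff_mk, map_add, PowerSeries.coeff_mk, PowerSeries.coeff_mk, NExp_e_add]
      commutes' := by
        intro c
        ext j
        have h1 : algebraMap k (PowerSeries K) c = (C (algebraMap k K c) : PowerSeries K) :=
          PowerSeries.algebraMap_apply
        rw [PowerSeries.coeff_mk, h1]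
        cases j with
        | zero => simp [NExp_e_zero]
        | succ j =>
          rw [NExp_e_alg, PowerSeries.coeff_C]
          simp }
  let h : K →ₐ[k] PowerSeries K := ((PowerSeries.expand m hm.ne').restrictScalars k).comp h0
  have hh : ∀ (a : K) (N : ℕ), coeff N (h a) =
      if m ∣ N then ((N / m).factorial : k)⁻¹ • (E^[N / m]) a else 0 := by
    intro a N
    have : h a = PowerSeries.expand m hm.ne' (PowerSeries.mk fun j => NExp_e E j a) := rfl
    rw [this, PowerSeries.coeff_expand, PowerSeries.coeff_mk]
    rfl
  obtain ⟨σ, hσ, hσh⟩ := hE k K h (by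
    intro a
    rw [← PowerSeries.coeff_zero_eq_constantCoeff_apply, hh a 0]
    simp)
  have hcoef : ∀ (a : K) (N : ℕ), PowerSeries.coeff N (σ (PowerSeries.C a)) =
      if m ∣ N then ((N / m).factorial : k)⁻¹ • (E^[N / m]) a else 0 := by
    intro a N
    rw [hσh, hh]
  refine ⟨σ, hσ, hcoef, ?_, ?_, ?_⟩
  · intro a j hj0 hjm
    rw [hcoef, if_neg]
    intro hd
    exact absurd (Nat.le_of_dvd hj0 hd) (by omega)
  · intro a
    rw [hcoef, if_pos (dvd_refl m), Nat.div_self hm]
    simp
  · intro A hA hEA
    apply g8 A σ hσ
    intro a ha N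
    rw [hcoef]
    split_ifs with hd
    · apply hA
      generalize N / m = i
      induction i with
      | zero => exact ha
      | succ i ih =>
        rw [Function.iterate_succ_apply']
        exact hEA _ ih
    · exact A.zero_mem

end Pool.Agent.Lib.MP_4318ff_ag
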