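import Pool.Agent.Lib.MP_4318ff_ag.Spec.N

/-!
# MP_4318ff_ag, N/NFact: logarithmic automorphisms of `F[[X]]` extend to `K[[X]]`
-/

set_option autoImplicit false

namespace Pool.Agent.Lib.MP_4318ff_ag

open scoped LinearAlgebra.Projectivization

/-- The ring of a chart is stable under scalars of `k`. -/
private lemma NFact_smul {k : Type} [Field k] {r : ℕ} {C : Config k r} {K : Type} [Field K] [Algebra (F k) K] [Algebra k K]
    [IsScalarTower k (F k) K] (u : Chart C) (c : k) (x : K) (hx : x ∈ u.A K) : c • x ∈ u.A K := by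
  have h1 : algebraMap k K c ∈ u.A K := by
    have h2 : IsIntegral u.R (algebraMap u.R K ⟨algebraMap k (F k) c, u.R.algebraMap_mem c⟩) := isIntegral_algebraMap
    have h3 : algebraMap u.R K ⟨algebraMap k (F k) c, u.R.algebraMap_mem c⟩ = algebraMap k K c := by
      rw [IsScalarTower.algebraMap_apply k (F k) K]
      rfl
    rw [h3] at h2
    exact h2
  rw [Algebra.smul_def]
  exact (u.A K).mul_mem h1 hx

/-- Compatible exponentials. -/
private lemma NFact_exp (h1 : NGrpStmt) {k : Type} [Field k] {K : Type} [Field K] [Algebra (F k) K] [Algebra k K]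
    [IsScalarTower k (F k) K] (E : Derivation k (F k) (F k)) (E' : Derivation k K K)
    (hE : ∀ f, E' (algebraMap (F k) K f) = algebraMap (F k) K (E f)) (m : ℕ)
    (ε : PowerSeries (F k) ≃ₐ[k] PowerSeries (F k)) (ε' : PowerSeries K ≃ₐ[k] PowerSeries K) (hd : IsDef ε) (hd' : IsDef ε')
    (he : ∀ (a : F k) (N : ℕ), PowerSeries.coeff N (ε (PowerSeries.C a)) =
      if m ∣ N then ((N / m).factorial : k)⁻¹ • (E^[N / m]) a else 0)
    (he' : ∀ (a : K) (N : ℕ), PowerSeries.coeff N (ε' (PowerSeries.C a)) =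
      if m ∣ N then ((N / m).factorial : k)⁻¹ • (E'^[N / m]) a else 0) (f : PowerSeries (F k)) :
    ε' (PowerSeries.map (algebraMap (F k) K) f) = PowerSeries.map (algebraMap (F k) K) (ε f) := by
  have hit : ∀ (i : ℕ) (a : F k), (E'^[i]) (algebraMap (F k) K a) = algebraMap (F k) K ((E^[i]) a) := by
    intro i
    induction i with
    | zero => intro a; rfl
    | succ i ih =>
      intro a
      rw [Function.iterate_succ_apply, Function.iterate_succ_apply, hE, ih]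
  have hsm : ∀ (c : k) (a : F k), algebraMap (F k) K (c • a) = c • algebraMap (F k) K a := by
    intro c a
    rw [Algebra.smul_def, map_mul, Algebra.smul_def, IsScalarTower.algebraMap_apply k (F k) K]
  ext N
  rw [(h1 k K).2.2.2.2.2.2.1 ε' hd', PowerSeries.coeff_map, (h1 k (F k)).2.2.2.2.2.2.1 ε hd, map_sum]
  refine Finset.sum_congr rfl fun p _ => ?_
  rw [PowerSeries.coeff_map, he', he]
  split_ifs
  · rw [hit, hsm]
  · rw [map_zero]

/-- The state of the recursion. -/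
private def NFact_Q {k : Type} [Field k] {r : ℕ} {C : Config k r} {K : Type} [Field K] [Algebra (F k) K] [Algebra k K]
    (u : Chart C) (θ : PowerSeries (F k) ≃ₐ[k] PowerSeries (F k)) (m : ℕ)
    (p : (PowerSeries (F k) ≃ₐ[k] PowerSeries (F k)) × (PowerSeries K ≃ₐ[k] PowerSeries K)) : Prop :=
  IsLogAt u p.1 ∧ IsDef p.2 ∧ Pre (u.A K : Set K) p.2 ∧
  (∀ f, p.2 (PowerSeries.map (algebraMap (F k) K) f) = PowerSeries.map (algebraMap (F k) K) (p.1 f)) ∧
  ∀ (a : F k) (j : ℕ), j < m → PowerSeries.coeff j (p.1 (PowerSeries.C a)) = PowerSeries.coeff j (θ (PowerSeries.C a))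

private lemma NFact_one {k : Type} [Field k] {r : ℕ} {C : Config k r} {K : Type} [Field K] [Algebra (F k) K] [Algebra k K]
    [IsScalarTower k (F k) K] (u : Chart C) (θ : PowerSeries (F k) ≃ₐ[k] PowerSeries (F k)) (hθ : IsLogAt u θ) :
    NFact_Q (K := K) u θ 1 (1, 1) := by
  refine ⟨⟨⟨rfl, fun f => rfl⟩, fun f hf => hf, ?_⟩, ⟨rfl, fun f => rfl⟩, fun f hf => hf, fun f => rfl, ?_⟩
  · intro i j m
    change PowerSeries.coeff m (PowerSeries.C (ev (C.ℓ i) / ev (C.ℓ j))) * (ev (C.ℓ j) / ev (C.ℓ i)) ∈ u.R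
    rw [PowerSeries.coeff_C]
    split_ifs
    · by_cases hi : ev (C.ℓ i) = 0
      · rw [hi, zero_div, zero_mul]; exact u.R.zero_mem
      by_cases hj : ev (C.ℓ j) = 0
      · rw [hj, zero_div, mul_zero]; exact u.R.zero_mem
      rw [div_mul_div_comm, mul_comm, div_self (mul_ne_zero hj hi)]
      exact u.R.one_mem
    · rw [zero_mul]; exact u.R.zero_mem
  · intro a j hj
    obtain rfl : j = 0 := by omega
    change PowerSeries.coeff 0 (PowerSeries.C a) = _
    rw [PowerSeries.coeff_zero_eq_constantCoeff_apply, PowerSeries.coeff_zero_eq_constantCoeff_apply, hθ.1.2]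

private lemma NFact_step (h1 : NGrpStmt) (h2 : NExpStmt) (h3 : NLeadStmt) (h5 : NLogGrpStmt) (h6 : NLogExtStmt)
    {k : Type} [Field k] [CharZero k] [IsAlgClosed k] {r n : ℕ} (C : Config k r) (hn : 2 ≤ n) (hr : 2 ≤ r)
    {K : Type} [Field K] [Algebra (F k) K] [Algebra k K] [IsScalarTower k (F k) K] (hK : IsEtaleCover C n K) (u : Chart C)
    (θ : PowerSeries (F k) ≃ₐ[k] PowerSeries (F k)) (hθ : IsLogAt u θ) (m : ℕ)
    (p : (PowerSeries (F k) ≃ₐ[k] PowerSeries (F k)) × (PowerSeries K ≃ₐ[k] PowerSeries K)) (hp : NFact_Q u θ m p) :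
    ∃ q : (PowerSeries (F k) ≃ₐ[k] PowerSeries (F k)) × (PowerSeries K ≃ₐ[k] PowerSeries K), NFact_Q u θ (m + 1) q ∧
      ∀ (a : K) (j : ℕ), j < m → PowerSeries.coeff j (q.2 (PowerSeries.C a)) = PowerSeries.coeff j (p.2 (PowerSeries.C a)) := by
  rcases Nat.eq_zero_or_pos m with rfl | hm
  · exact ⟨(1, 1), NFact_one u θ hθ, fun a j hj => absurd hj (by omega)⟩
  obtain ⟨τ, σ⟩ := p
  obtain ⟨hτ, hσ, hσA, hστ, hτθ⟩ := hp
  change IsLogAt u τ at hτ
  change IsDef σ at hσ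
  change Pre (u.A K : Set K) σ at hσA
  change ∀ f, σ (PowerSeries.map (algebraMap (F k) K) f) = PowerSeries.map (algebraMap (F k) K) (τ f) at hστ
  change ∀ (a : F k) (j : ℕ), j < m → PowerSeries.coeff j (τ (PowerSeries.C a)) = PowerSeries.coeff j (θ (PowerSeries.C a))
    at hτθ
  obtain ⟨g1, g2, g3, g4⟩ := h5 k r C u hr
  have hρ : IsLogAt u (τ⁻¹ * θ) := g1 _ _ (g2 _ hτ) hθ
  have hρa : ∀ a : F k, (τ⁻¹ * θ) (PowerSeries.C a) = τ⁻¹ (θ (PowerSeries.C a)) := fun a => rfl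
  have hinv : ∀ x, τ⁻¹ (τ x) = x := fun x => τ.symm_apply_apply x
  have hinv' : ∀ x, τ (τ⁻¹ x) = x := fun x => τ.apply_symm_apply x
  have hdvd : ∀ a : F k, PowerSeries.X ^ m ∣ (τ⁻¹ * θ) (PowerSeries.C a) - PowerSeries.C a := by
    intro a
    have e1 : (τ⁻¹ * θ) (PowerSeries.C a) - PowerSeries.C a = τ⁻¹ (θ (PowerSeries.C a) - τ (PowerSeries.C a)) := by
      rw [map_sub, hinv, hρa]
    rw [e1]
    refine (h1 k (F k)).2.2.2.2.1 _ (g2 _ hτ).1 _ _ ?_
    rw [PowerSeries.X_pow_dvd_iff]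
    intro j hj
    rw [map_sub, hτθ a j hj, sub_self]
  have hcong : Cong m (τ⁻¹ * θ) := by
    intro a j hj0 hjm
    have e2 := (PowerSeries.X_pow_dvd_iff.1 (hdvd a)) j hjm
    rw [map_sub, PowerSeries.coeff_C, if_neg (by omega), sub_zero] at e2
    exact e2
  obtain ⟨E, hE⟩ := (h3 k (F k) m hm _ hρ.1 hcong).1
  obtain ⟨l1, l2⟩ := g3 m hm _ hρ hcong E hE
  obtain ⟨E', hE', hE'A⟩ := h6 k r n C hn K hK u E l1 l2
  obtain ⟨ε, hε, hεf, hεc, hεm, -⟩ := h2 k (F k) E m hm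
  obtain ⟨ε', hε', hεf', hεc', -, hεA'⟩ := h2 k K E' m hm
  have hεL : IsLogAt u ε := g4 E l1 l2 m hm ε hε hεf
  refine ⟨(τ * ε, σ * ε'), ⟨g1 _ _ hτ hεL, (h1 k K).1 _ _ hσ hε', (h1 k K).2.2.1 _ _ _ hσA
    (hεA' (u.A K) (fun c x hx => NFact_smul u c x hx) hE'A), ?_, ?_⟩, ?_⟩
  · intro f
    change σ (ε' (PowerSeries.map (algebraMap (F k) K) f)) = PowerSeries.map (algebraMap (F k) K) (τ (ε f))
    rw [NFact_exp h1 E E' hE' m ε ε' hε hε' hεf hεf' f, hστ]
  · intro a j hj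
    change PowerSeries.coeff j (τ (ε (PowerSeries.C a))) = _
    have e3 : PowerSeries.X ^ (m + 1) ∣ ε (PowerSeries.C a) - (τ⁻¹ * θ) (PowerSeries.C a) := by
      rw [PowerSeries.X_pow_dvd_iff]
      intro i hi
      rw [map_sub]
      rcases Nat.eq_zero_or_pos i with rfl | hi0
      · rw [PowerSeries.coeff_zero_eq_constantCoeff_apply, PowerSeries.coeff_zero_eq_constantCoeff_apply, hε.2, hρ.1.2,
          sub_self]
      rcases Nat.lt_or_ge i m with him | him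
      · rw [hεc a i hi0 him, hcong a i hi0 him, sub_self]
      · obtain rfl : i = m := by omega
        rw [hεm, hE, sub_self]
    have e4 := (h1 k (F k)).2.2.2.2.1 τ hτ.1 _ _ e3
    rw [map_sub, hρa, hinv', PowerSeries.X_pow_dvd_iff] at e4
    have e5 := e4 j hj
    rw [map_sub, sub_eq_zero] at e5
    exact e5
  · intro a j hj
    exact (h3 k K m hm ε' hε' hεc').2.2.2.2.2.2 σ hσ (PowerSeries.C a) j hj

theorem tNFact (h1 : NGrpStmt) (h2 : NExpStmt) (h3 : NLeadStmt) (h4 : NLimStmt) (h5 : NLogGrpStmt) (h6 : NLogExtStmt) :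
    NFactStmt := by
  intro k _ _ _ r n C hn hr K _ _ _ _ hK u θ hθ
  have hstep := NFact_step h1 h2 h3 h5 h6 C hn hr hK u θ hθ
  choose nx hnx1 hnx2 using hstep
  have h0 : NFact_Q (K := K) u θ 0 (1, 1) := by
    have h := NFact_one (K := K) u θ hθ
    exact ⟨h.1, h.2.1, h.2.2.1, h.2.2.2.1, fun a j hj => absurd hj (by omega)⟩
  let s : (m : ℕ) → {p : (PowerSeries (F k) ≃ₐ[k] PowerSeries (F k)) × (PowerSeries K ≃ₐ[k] PowerSeries K) //
    NFact_Q u θ m p} := fun m => Nat.rec ⟨(1, 1), h0⟩ (fun m p => ⟨nx m p.1 p.2, hnx1 m p.1 p.2⟩) m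
  have hs : ∀ m, (s (m + 1)).1 = nx m (s m).1 (s m).2 := fun m => rfl
  have hss : ∀ (m : ℕ) (a : K) (j : ℕ), j < m → PowerSeries.coeff j ((s (m + 1)).1.2 (PowerSeries.C a)) =
      PowerSeries.coeff j ((s m).1.2 (PowerSeries.C a)) := by
    intro m a j hj
    rw [hs]
    exact hnx2 m (s m).1 (s m).2 a j hj
  obtain ⟨σ, hσ, hσm, -, hσA⟩ := h4 k K (fun m => (s m).1.2) (fun m => (s m).2.2.1) hss
  refine ⟨σ, hσ, hσA _ (fun m => (s m).2.2.2.1), fun f => ?_⟩
  ext N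
  rw [hσm (N + 1) _ N (Nat.lt_succ_self N), (s (N + 1)).2.2.2.2.1, PowerSeries.coeff_map, PowerSeries.coeff_map,
    (h1 k (F k)).2.2.2.2.2.2.1 _ (s (N + 1)).2.1.1, (h1 k (F k)).2.2.2.2.2.2.1 _ hθ.1]
  congr 1
  refine Finset.sum_congr rfl fun p hp => ?_
  have hp' := Finset.HasAntidiagonal.mem_antidiagonal.1 hp
  exact (s (N + 1)).2.2.2.2.2 _ _ (by omega)

end Pool.Agent.Lib.MP_4318ff_ag
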