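import Pool.Agent.Lib.MP_4318ff_ag.Spec.N

/-!
# MP_4318ff_ag, part N, module NFinal: every formal deformation is trivial
-/

set_option autoImplicit false

namespace Pool.Agent.Lib.MP_4318ff_ag

open scoped LinearAlgebra.Projectivization

theorem tNFinal (hGrp : NGrpStmt) (hEqui : NEquiStmt) (hLoc : NLocStmt) (hToLog : NToLogStmt) (hEta : NEtaStmt)
    (hThB : NThBStmt) (hFact : NFactStmt) (hUniq : NUniqStmt) : NFinalStmt := by
  intro k _ _ _ r n C hEt hArc hM hn hr K _ _ _ _ hK g hg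
  have hfin := hK.finite
  obtain ⟨h, hh, hpre⟩ := hEqui k r n C hEt K hK g hg
  obtain ⟨G1, G2, G3, G4, -, -, -, -⟩ := hGrp k K
  obtain ⟨g', hg'd⟩ : ∃ g' : Chart C → Chart C → (PowerSeries K ≃ₐ[k] PowerSeries K),
      ∀ u v, g' u v = h u * g u v * (h v)⁻¹ := ⟨fun u v => h u * g u v * (h v)⁻¹, fun u v => rfl⟩
  have hg' : IsDefCocycle C K g' := by
    refine ⟨fun u v => ?_, fun u v => ?_, fun u v w => ?_⟩
    · rw [hg'd]
      exact G1 _ _ (G1 _ _ (hh u).1 (hg.isDef u v)) (G2 _ (hh v).1)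
    · rw [hg'd]
      have e1 : Pre ((u.A K ⊔ v.A K : Subring K) : Set K) (h u) :=
        (hLoc k r C K u v).1 (h u) (hh u).1 (hh u).2
      have e2 : Pre ((u.A K ⊔ v.A K : Subring K) : Set K) (h v) := by
        rw [sup_comm]
        exact (hLoc k r C K v u).1 (h v) (hh v).1 (hh v).2
      exact G3 _ _ _ (G3 _ _ _ e1 (hg.pre u v)) (G4 _ _ (hh v).1 e2)
    · rw [hg'd, hg'd, hg'd, ← hg.coc u v w]
      group
  obtain ⟨γ, hγ, hγg⟩ := hToLog k r n C K hn hK.roots g' hg' (by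
    intro u v
    rw [hg'd]
    exact hpre u v)
  obtain ⟨P₀, hP₀⟩ := hM
  obtain ⟨η, e1, e2, e3⟩ := hEta k r C P₀ hP₀ hr hArc γ hγ ⟨0, by omega⟩
  obtain ⟨θ, hθ, hθγ⟩ := hThB k r C hr γ hγ ⟨0, by omega⟩ η e1 e2 e3
  choose σ hσ using fun u => hFact k r n C hn hr K hK u (θ u) (hθ u)
  have key : ∀ u v, g' u v * σ v = σ u := by
    intro u v
    have h1 : (σ u)⁻¹ * (g' u v * σ v) = 1 := by
      apply hUniq k K _ (G1 _ _ (G2 _ (hσ u).1) (G1 _ _ (hg'.isDef u v) (hσ v).1))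
      intro f
      have hC : (PowerSeries.C (algebraMap (F k) K f) : PowerSeries K) =
          PowerSeries.map (algebraMap (F k) K) (PowerSeries.C f) := by
        rw [PowerSeries.map_C]
      rw [hC]
      change (σ u)⁻¹ (g' u v (σ v (PowerSeries.map (algebraMap (F k) K) (PowerSeries.C f)))) = _
      have h2 : γ u v (θ v (PowerSeries.C f)) = θ u (PowerSeries.C f) := by
        rw [← hθγ u v]
        rfl
      rw [(hσ v).2.2, ← hγg, h2, ← (hσ u).2.2]
      exact (σ u).symm_apply_apply _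
    exact (inv_mul_eq_one.1 h1).symm
  refine ⟨fun u => (σ u)⁻¹ * h u, fun u => ⟨G1 _ _ (G2 _ (hσ u).1) (hh u).1,
    G3 _ _ _ (G4 _ _ (hσ u).1 (hσ u).2.1) (hh u).2⟩, fun u v => ?_⟩
  have h1 : g u v = (h u)⁻¹ * g' u v * h v := by
    rw [hg'd]
    group
  have h2 : g' u v = σ u * (σ v)⁻¹ := by
    rw [← key u v]
    group
  rw [h1, h2]
  group

end Pool.Agent.Lib.MP_4318ff_ag
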