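import Pool.Agent.Lib.MP_4318ff_ag.Spec.N

/-!
# MP_4318ff_ag, N/NForm: the lines at a divisor
-/

set_option autoImplicit false

namespace Pool.Agent.Lib.MP_4318ff_ag

open scoped LinearAlgebra.Projectivization

theorem tNForm (_ : EvStmt) (_ : UnifStmt) (hcv : CurveStmt) (hex : ExcStmt) : NFormStmt := by
  intro k _ r C u O i j hO hu hij hlam
  have hbR : ∀ c : Fin 3 → k, ev c / ev u.b ∈ u.R := fun c => Algebra.subset_adjoin (Or.inl ⟨c, rfl⟩)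
  have hi0 : C.ℓ i ≠ 0 := (C.indep i j hij).ne_zero 0
  have hj0 : C.ℓ j ≠ 0 := (C.indep j i hij.symm).ne_zero 0
  rcases hO with hO | ⟨T, hT, hO⟩
  · obtain ⟨-, -, h3, -⟩ := hcv k O hO
    have huj : UnitForm O (C.ℓ j) := by
      rcases h3 (C.ℓ j) hj0 with h | h
      · exact h
      · exfalso
        have h4 := (h (C.ℓ i) (C.indep j i hij.symm)).2
        apply h4.2.1
        rw [inv_div]
        exact hlam
    refine ⟨⟨u.b, u.b_ne, hbR _, hbR _, huj.2 u.b⟩, ?_⟩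
    rcases h3 (C.ℓ i) hi0 with h | h
    · exact Or.inl (h.2 _)
    · exact Or.inr (h (C.ℓ j) (C.indep i j hij)).2
  · obtain ⟨h1, h2, h3, -⟩ := (hex k T).2 O hO
    have haR : ∀ c : Fin 3 → k, c ⬝ᵥ T.rep = 0 → ev c / ev (u.a T) ∈ u.R :=
      fun c hc => Algebra.subset_adjoin (Or.inr ⟨T, hT, c, hc, rfl⟩)
    by_cases hjT : C.ℓ j ⬝ᵥ T.rep = 0
    · have hiT : C.ℓ i ⬝ᵥ T.rep = 0 := by
        by_contra hiT
        have h4 := h3 (C.ℓ i) (C.ℓ j) hiT hj0 hjT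
        apply h4.2.1
        rw [inv_div]
        exact hlam
      exact ⟨⟨u.a T, u.a_ne T hT, haR _ hiT, haR _ hjT, h2 (C.ℓ j) (u.a T) hj0 hjT (u.a_through T hT)⟩,
        Or.inl (h2 (C.ℓ i) (C.ℓ j) hi0 hiT hjT)⟩
    · have huj : UnitForm O (C.ℓ j) := h1 _ hjT
      refine ⟨⟨u.b, u.b_ne, hbR _, hbR _, huj.2 u.b⟩, ?_⟩
      by_cases hiT : C.ℓ i ⬝ᵥ T.rep = 0
      · exact Or.inr (h3 (C.ℓ j) (C.ℓ i) hjT hi0 hiT)
      · exact Or.inl ((h1 _ hiT).2 _)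

end Pool.Agent.Lib.MP_4318ff_ag
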