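import Pool.Agent.Lib.MP_4318ff_ag.Spec.N

/-!
# MP_4318ff_ag, module N/NGrp (helper51): the group of automorphisms of `K[[X]]`
-/

set_option autoImplicit false

namespace Pool.Agent.Lib.MP_4318ff_ag

open PowerSeries

section NGrp

variable {k K : Type} [Field k] [Field K] [Algebra k K]

private lemma NGrp_decomp (f : PowerSeries K) (m : ℕ) :
    ∃ h : PowerSeries K, f = ∑ j ∈ Finset.range m, C (coeff j f) * X ^ j + X ^ m * h := by
  have h1 : (X : PowerSeries K) ^ m ∣ f - ∑ j ∈ Finset.range m, C (coeff j f) * X ^ j := by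
    rw [PowerSeries.X_pow_dvd_iff]
    intro i hi
    rw [map_sub, map_sum, Finset.sum_eq_single i]
    · rw [PowerSeries.coeff_C_mul_X_pow, if_pos rfl, sub_self]
    · intro j _ hj
      rw [PowerSeries.coeff_C_mul_X_pow, if_neg (fun h => hj h.symm)]
    · intro h
      exact absurd (Finset.mem_range.mpr hi) h
  obtain ⟨h, hh⟩ := h1
  refine ⟨h, ?_⟩
  rw [← hh]
  ring

private lemma NGrp_range (σ : PowerSeries K ≃ₐ[k] PowerSeries K) (hσ : IsDef σ) (f : PowerSeries K) (N : ℕ) :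
    coeff N (σ f) = ∑ j ∈ Finset.range (N + 1), coeff (N - j) (σ (C (coeff j f))) := by
  obtain ⟨h, hh⟩ := NGrp_decomp f (N + 1)
  have h1 : σ f = ∑ j ∈ Finset.range (N + 1), σ (C (coeff j f)) * X ^ j + X ^ (N + 1) * σ h := by
    conv_lhs => rw [hh]
    rw [map_add, map_sum, map_mul, map_pow, hσ.1]
    refine congrArg (fun t => t + X ^ (N + 1) * σ h) ?_
    refine Finset.sum_congr rfl fun j _ => ?_
    rw [map_mul, map_pow, hσ.1]
  rw [h1, map_add, map_sum]
  have h2 : coeff N ((X : PowerSeries K) ^ (N + 1) * σ h) = 0 := by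
    rw [PowerSeries.coeff_X_pow_mul', if_neg (by omega)]
  rw [h2, add_zero]
  refine Finset.sum_congr rfl fun j hj => ?_
  rw [PowerSeries.coeff_mul_X_pow', if_pos (by have := Finset.mem_range.mp hj; omega)]

private lemma NGrp_anti (σ : PowerSeries K ≃ₐ[k] PowerSeries K) (hσ : IsDef σ) (f : PowerSeries K) (N : ℕ) :
    coeff N (σ f) = ∑ p ∈ Finset.HasAntidiagonal.antidiagonal N, coeff p.1 (σ (C (coeff p.2 f))) := by
  rw [NGrp_range σ hσ f N]
  rw [Finset.Nat.antidiagonal_eq_map', Finset.sum_map]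
  rfl

private lemma NGrp_inv (σ : PowerSeries K ≃ₐ[k] PowerSeries K) (hσ : IsDef σ) : IsDef σ⁻¹ := by
  refine ⟨?_, fun f => ?_⟩
  · have h1 : σ⁻¹ (σ X) = X := AlgEquiv.symm_apply_apply σ X
    rw [hσ.1] at h1
    exact h1
  · have h1 : σ (σ⁻¹ f) = f := AlgEquiv.apply_symm_apply σ f
    have h2 := hσ.2 (σ⁻¹ f)
    rw [h1] at h2
    exact h2.symm

private lemma NGrp_preInv (A : Subring K) (σ : PowerSeries K ≃ₐ[k] PowerSeries K) (hσ : IsDef σ)
    (hA : Pre (A : Set K) σ) : Pre (A : Set K) σ⁻¹ := by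
  intro f hf m
  have h1 : σ (σ⁻¹ f) = f := AlgEquiv.apply_symm_apply σ f
  generalize hh : σ⁻¹ f = h at h1 ⊢
  induction m using Nat.strong_induction_on with
  | _ m ih =>
    have h2 := NGrp_range σ hσ h m
    rw [h1, Finset.sum_range_succ, Nat.sub_self] at h2
    have h3 : coeff 0 (σ (C (coeff m h))) = coeff m h := by
      rw [PowerSeries.coeff_zero_eq_constantCoeff_apply, hσ.2, PowerSeries.constantCoeff_C]
    rw [h3] at h2
    have h4 : coeff m h = coeff m f - ∑ j ∈ Finset.range m, coeff (m - j) (σ (C (coeff j h))) := by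
      rw [h2]
      ring
    show coeff m h ∈ A
    rw [h4]
    refine A.sub_mem (hf m) (A.sum_mem fun j hj => ?_)
    refine hA (C (coeff j h)) (fun i => ?_) (m - j)
    show coeff i (C (coeff j h)) ∈ A
    rw [PowerSeries.coeff_C]
    split_ifs
    · exact ih j (Finset.mem_range.mp hj)
    · exact A.zero_mem

end NGrp

theorem tNGrp : NGrpStmt := by
  intro k K _ _ _
  refine ⟨?_, ?_, ?_, ?_, ?_, ?_, ?_, ?_⟩
  · intro σ τ hσ hτ
    refine ⟨?_, fun f => ?_⟩
    · show σ (τ X) = X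
      rw [hτ.1, hσ.1]
    · show constantCoeff (σ (τ f)) = constantCoeff f
      rw [hσ.2, hτ.2]
  · intro σ hσ
    exact NGrp_inv σ hσ
  · intro A σ τ hσ hτ f hf m
    show coeff m (σ (τ f)) ∈ A
    exact hσ (τ f) (hτ f hf) m
  · intro A σ hσ hA
    exact NGrp_preInv A σ hσ hA
  · intro σ hσ f m hf
    obtain ⟨h, hh⟩ := hf
    refine ⟨σ h, ?_⟩
    rw [hh, map_mul, map_pow, hσ.1]
  · intro σ τ hσ hτ h
    refine AlgEquiv.ext fun f => ?_
    refine PowerSeries.ext fun N => ?_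
    rw [NGrp_range σ hσ f N, NGrp_range τ hτ f N]
    refine Finset.sum_congr rfl fun j _ => ?_
    rw [h]
  · intro σ hσ f N
    exact NGrp_anti σ hσ f N
  · intro A σ hσ hA f hf m
    show coeff m (σ f) ∈ A
    rw [NGrp_range σ hσ f m]
    exact A.sum_mem fun j _ => hA (coeff j f) (hf j) (m - j)

end Pool.Agent.Lib.MP_4318ff_ag
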