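import Pool.Agent.Lib.MP_4318ff_ag.Spec.N

/-!
# MP_4318ff_ag, part N, module NH: deformed equations of the lines
-/

set_option autoImplicit false

namespace Pool.Agent.Lib.MP_4318ff_ag

open scoped LinearAlgebra.Projectivization

private theorem NH_ne {k : Type} [Field k] (hEv : EvStmt) {r : ℕ} (C : Config k r) (hr : 2 ≤ r) (j : Fin r) :
    ev (C.ℓ j) ≠ 0 := by
  intro h0
  have h1 := ((hEv k).2.2 (C.ℓ j)).1 h0
  obtain ⟨j', hj'⟩ : ∃ j' : Fin r, j ≠ j' := by
    by_cases h : j = ⟨0, by omega⟩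
    · refine ⟨⟨1, by omega⟩, ?_⟩
      rw [h]
      intro h2
      have := congrArg Fin.val h2
      simp at this
    · exact ⟨_, h⟩
  have h2 := (C.indep j j' hj').ne_zero 0
  simp at h2
  exact h2 h1

theorem tNH (hEv : EvStmt) (hTw : NTwStmt) : NHStmt := by
  intro k _ _ r C P hP hr γ hγ i i₀
  have hi : ev (C.ℓ i) ≠ 0 := NH_ne hEv C hr i
  have hi₀ : ev (C.ℓ i₀) ≠ 0 := NH_ne hEv C hr i₀
  obtain ⟨lam, hlam⟩ : ∃ lam : F k, lam = ev (C.ℓ i) / ev (C.ℓ i₀) := ⟨_, rfl⟩
  have hlam0 : lam ≠ 0 := by rw [hlam]; exact div_ne_zero hi hi₀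
  have hinv : lam⁻¹ = ev (C.ℓ i₀) / ev (C.ℓ i) := by rw [hlam, inv_div]
  have hCC : (PowerSeries.C lam : PowerSeries (F k)) * PowerSeries.C lam⁻¹ = 1 := by
    rw [← map_mul, mul_inv_cancel₀ hlam0, map_one]
  obtain ⟨E, hE0, hE1, hE2⟩ := hTw k r C P hP γ hγ
    (fun u v => PowerSeries.C lam⁻¹ * γ u v (PowerSeries.C lam)) (by
      intro u v
      rw [map_mul, (hγ.isDef u v).2, PowerSeries.constantCoeff_C, PowerSeries.constantCoeff_C,
        inv_mul_cancel₀ hlam0]) (by
      intro u v m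
      rw [PowerSeries.coeff_C_mul, hinv, hlam, mul_comm]
      exact hγ.log u v i i₀ m) (by
      intro u v w
      have h1 : γ u w (PowerSeries.C lam) = γ u v (γ v w (PowerSeries.C lam)) := by
        rw [← hγ.coc u v w]
        rfl
      have h2 : γ u v (PowerSeries.C lam) * γ u v (PowerSeries.C lam⁻¹) = 1 := by
        rw [← map_mul, hCC, map_one]
      rw [h1, map_mul]
      calc PowerSeries.C lam⁻¹ * γ u v (γ v w (PowerSeries.C lam))
          = PowerSeries.C lam⁻¹ * (γ u v (PowerSeries.C lam) * γ u v (PowerSeries.C lam⁻¹)) *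
            γ u v (γ v w (PowerSeries.C lam)) := by rw [h2, mul_one]
        _ = _ := by ring)
  refine ⟨fun u => PowerSeries.C lam * E u, ?_, ?_, ?_⟩
  · intro u v
    change γ u v (PowerSeries.C lam * E v) = PowerSeries.C lam * E u
    rw [hE2 u v, map_mul]
    calc γ u v (PowerSeries.C lam) * γ u v (E v)
        = (PowerSeries.C lam * PowerSeries.C lam⁻¹) * (γ u v (PowerSeries.C lam) * γ u v (E v)) := by
          rw [hCC, one_mul]
      _ = _ := by ring
  · intro u
    change PowerSeries.constantCoeff (PowerSeries.C lam * E u) = _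
    rw [map_mul, hE0, PowerSeries.constantCoeff_C, mul_one, hlam]
  · intro u m
    change PowerSeries.coeff m (PowerSeries.C lam * E u) * _ ∈ u.R
    rw [PowerSeries.coeff_C_mul, ← hinv]
    have : lam * PowerSeries.coeff m (E u) * lam⁻¹ = PowerSeries.coeff m (E u) := by
      field_simp
    rw [this]
    exact hE1 u m

end Pool.Agent.Lib.MP_4318ff_ag
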