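import Pool.Agent.Lib.MP_4318ff_ag.Spec.N
import Pool.Agent.Lib.MP_4318ff_ag.A.Hart1
import Pool.Agent.Lib.MP_4318ff_ag.A.ChartEx

/-!
# MP_4318ff_ag, N/NH0: global sections of O(1)
-/

set_option autoImplicit false

namespace Pool.Agent.Lib.MP_4318ff_ag

open MvPolynomial
open scoped LinearAlgebra.Projectivization

/-- A polynomial of degree at most one in `c/b, d/b` is a quotient of forms. -/
private theorem NH0_deg (hE : EvStmt) {k : Type} [Field k] {b c d : Fin 3 → k} (hb : b ≠ 0)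
    (h : MvPolynomial (Fin 2) k) (hs : ∀ m ∈ h.support, m 0 + m 1 ≤ 1) :
    ∃ a : Fin 3 → k, cm (ev c / ev b) (ev d / ev b) h * ev b = ev a := by
  have hb0 : ev b ≠ 0 := fun h => hb (((hE k).2.2 b).mp h)
  have h1 : cm (ev c / ev b) (ev d / ev b) h = ∑ m ∈ h.support, algebraMap k (F k) (h.coeff m) *
      ((ev c / ev b) ^ m 0 * (ev d / ev b) ^ m 1) := by
    unfold cm
    rw [aeval_def, eval₂_eq']
    refine Finset.sum_congr rfl fun m _ => ?_
    rw [Fin.prod_univ_two]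
    rfl
  rw [h1]
  refine Finset.sum_induction _ (fun x => ∃ a : Fin 3 → k, x * ev b = ev a) ?_ ?_ ?_
  · rintro x y ⟨a, ha⟩ ⟨a', ha'⟩
    exact ⟨a + a', by rw [add_mul, ha, ha', (hE k).1]⟩
  · exact ⟨0, by rw [zero_mul, ((hE k).2.2 0).2 rfl]⟩
  · intro m hm
    have h2 := hs m hm
    have h3 : (m 0 = 0 ∧ m 1 = 0) ∨ (m 0 = 1 ∧ m 1 = 0) ∨ (m 0 = 0 ∧ m 1 = 1) := by omega
    rcases h3 with ⟨h4, h5⟩ | ⟨h4, h5⟩ | ⟨h4, h5⟩
    · refine ⟨h.coeff m • b, ?_⟩
      rw [h4, h5, pow_zero, pow_zero, mul_one, mul_one, (hE k).2.1]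
    · refine ⟨h.coeff m • c, ?_⟩
      rw [h4, h5, pow_one, pow_zero, mul_one, (hE k).2.1, mul_assoc, div_mul_cancel₀ _ hb0]
    · refine ⟨h.coeff m • d, ?_⟩
      rw [h4, h5, pow_one, pow_zero, one_mul, (hE k).2.1, mul_assoc, div_mul_cancel₀ _ hb0]

private theorem NH0_basis {k : Type} [Field k] :
    ∃ b c d : Fin 3 → k, LinearIndependent k ![b, c, d] ∧ LinearIndependent k ![c, b, d] := by
  have h : LinearIndependent k ![(Pi.single 0 1 : Fin 3 → k), Pi.single 1 1, Pi.single 2 1] := by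
    have h1 := (Pi.basisFun k (Fin 3)).linearIndependent
    have h2 : ⇑(Pi.basisFun k (Fin 3)) = ![(Pi.single 0 1 : Fin 3 → k), Pi.single 1 1, Pi.single 2 1] := by
      funext i
      fin_cases i <;> simp
    rwa [h2] at h1
  refine ⟨_, _, _, h, ?_⟩
  have h3 := h.comp (Equiv.swap (0 : Fin 3) 1) (Equiv.injective _)
  have h4 : (![(Pi.single 0 1 : Fin 3 → k), Pi.single 1 1, Pi.single 2 1] ∘ (Equiv.swap (0 : Fin 3) 1)) =
      ![(Pi.single 1 1 : Fin 3 → k), Pi.single 0 1, Pi.single 2 1] := by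
    funext i
    fin_cases i
    · simp
    · simp
    · change ![(Pi.single 0 1 : Fin 3 → k), Pi.single 1 1, Pi.single 2 1] (Equiv.swap (0 : Fin 3) 1 2) = _
      rw [Equiv.swap_apply_of_ne_of_ne (by decide) (by decide)]
      rfl
  rwa [h4] at h3

private theorem NH0_one (hE : EvStmt) (hC : CoordStmt) (hL : LocStmt) (hch : ChartExStmt) (hOrd : OrdStmt)
    (hH : HartAStmt) {k : Type} [Field k] {r : ℕ} (C : Config k r) {e : Fin 3 → k} (he : e ≠ 0) {f : F k}
    (h : ∀ u : Chart C, f * (ev e / ev u.b) ∈ u.R) : ∃ c : Fin 3 → k, f = ev c / ev e := by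
  have hev : ∀ a : Fin 3 → k, a ≠ 0 → ev a ≠ 0 := fun a ha h => ha (((hE k).2.2 a).mp h)
  obtain ⟨b, c, d, hli, hli'⟩ := NH0_basis (k := k)
  have hb0 : b ≠ 0 := hli.ne_zero 0
  have hc0 : c ≠ 0 := hli'.ne_zero 0
  -- membership in the local ring of a curve
  have key : ∀ O : Subalgebra k (F k), IsCurve O → ∀ a, UnitForm O a → f * ev e / ev a ∈ O := by
    intro O hO a ha
    obtain ⟨u, hu⟩ := hch k r C O (Or.inl hO)
    have h1 : f * ev e / ev a = (f * (ev e / ev u.b)) * (ev u.b / ev a) := by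
      have h2 := hev u.b u.b_ne
      have h3 := hev a ha.1
      field_simp
    rw [h1]
    exact mul_mem (hu (h u)) (ha.2 u.b)
  obtain ⟨g, hg⟩ := hH k b c d hli (f * ev e / ev b) (fun O hO hub => key O hO b hub)
  have hz : (1 : F k) / (ev c / ev b) = ev b / ev c := one_div_div _ _
  have hw : (ev d / ev b) / (ev c / ev b) = ev d / ev c := div_div_div_cancel_right₀ (hev b hb0) _ _
  have hco := (hC k b c d hli).1
  have hco' := (hC k c b d hli').1
  obtain ⟨O, hO⟩ := (hL k _ _ hco' (X 0) exc_irr).1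
  have hcmO := ((hL k _ _ hco' (X 0) exc_irr).2 O hO).1
  have hcurve : IsCurve O := ⟨c, b, d, X 0, hli', hO⟩
  have hub : UnitForm O c := by
    refine ⟨hc0, fun a => ?_⟩
    obtain ⟨β, γ, δ, -, h2⟩ := curve_form hE hli' a
    rw [h2]
    exact hcmO _
  have h3 := (hOrd k (ev c / ev b) (ev d / ev b) g 1 hco).2 O (by rw [hz, hw]; exact hco') (by rw [hz, hw]; exact hO)
  have h4 : cm (ev c / ev b) (ev d / ev b) g / (ev c / ev b) ^ 1 = f * ev e / ev c := by
    rw [← hg, pow_one]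
    have h5 := hev b hb0
    have h6 := hev c hc0
    field_simp
  rw [h4] at h3
  have h5 := h3.1 (key O hcurve c hub)
  obtain ⟨a, ha⟩ := NH0_deg hE (c := c) (d := d) hb0 g h5
  refine ⟨a, ?_⟩
  rw [← hg, div_mul_cancel₀ _ (hev b hb0)] at ha
  rw [eq_div_iff (hev e he), ha]

theorem tNH0 (hE : EvStmt) (hC : CoordStmt) (hL : LocStmt) (_ : UnifStmt) (_ : CurveStmt) (hex : ExcStmt)
    (hch : ChartExStmt) (hOrd : OrdStmt) (hH : HartAStmt) : NH0Stmt := by
  intro k _ _ r C e he f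
  have hev : ∀ a : Fin 3 → k, a ≠ 0 → ev a ≠ 0 := fun a ha h => ha (((hE k).2.2 a).mp h)
  refine ⟨fun h => NH0_one hE hC hL hch hOrd hH C he h, fun P hP h => ?_⟩
  have haP : ∀ u : Chart C, ev (u.a P) ≠ 0 := fun u => hev _ (u.a_ne P hP)
  have h1 : ∀ u : Chart C, f * (ev e / ev u.b) ∈ u.R := by
    intro u
    have h2 : f * (ev e / ev u.b) = (f * (ev e / ev (u.a P))) * (ev (u.a P) / ev u.b) := by
      have h3 := haP u
      have h4 := hev u.b u.b_ne
      field_simp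
    rw [h2]
    exact mul_mem (h u) (Algebra.subset_adjoin (Or.inl ⟨_, rfl⟩))
  obtain ⟨c, hc⟩ := NH0_one hE hC hL hch hOrd hH C he h1
  refine ⟨c, ?_, hc⟩
  by_contra hcP
  obtain ⟨O, hO⟩ := (hex k P).1
  obtain ⟨u, hu⟩ := hch k r C O (Or.inr ⟨P, hP, hO⟩)
  have h2 := ((hex k P).2 O hO).2.2.1 c (u.a P) hcP (u.a_ne P hP) (u.a_through P hP)
  apply h2.2.1
  rw [inv_div]
  have h3 : ev c / ev (u.a P) = f * (ev e / ev (u.a P)) := by
    rw [hc]
    have h4 := haP u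
    have h5 := hev e he
    field_simp
  rw [h3]
  exact hu (h u)

end Pool.Agent.Lib.MP_4318ff_ag
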