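import Pool.Agent.Lib.MP_4318ff_ag.Spec.N2

/-!
# MP_4318ff_ag, module N/NH1F: the vanishing of the first cohomology implies that every formal deformation is trivial
-/

set_option autoImplicit false

namespace Pool.Agent.Lib.MP_4318ff_ag

open scoped LinearAlgebra.Projectivization

private theorem NH1F_one {k K : Type} [Field k] [Field K] [Algebra k K] :
    IsDef (1 : PowerSeries K ≃ₐ[k] PowerSeries K) := by
  refine ⟨rfl, fun f => rfl⟩

private theorem NH1F_preone {k K : Type} [Field k] [Field K] [Algebra k K] (A : Set K) :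
    Pre A (1 : PowerSeries K ≃ₐ[k] PowerSeries K) := by
  intro f hf m
  exact hf m

/-- Congruent series have congruent images. -/
private theorem NH1F_cong (hG : NGrpStmt) {k K : Type} [Field k] [Field K] [Algebra k K]
    (σ : PowerSeries K ≃ₐ[k] PowerSeries K) (hσ : IsDef σ) (f g : PowerSeries K) (m : ℕ)
    (h : ∀ j < m, PowerSeries.coeff j f = PowerSeries.coeff j g) :
    ∀ j < m, PowerSeries.coeff j (σ f) = PowerSeries.coeff j (σ g) := by
  have h1 : PowerSeries.X ^ m ∣ f - g := by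
    rw [PowerSeries.X_pow_dvd_iff]
    intro j hj
    rw [map_sub, h j hj, sub_self]
  have h2 := (hG k K).2.2.2.2.1 σ hσ (f - g) m h1
  rw [map_sub, PowerSeries.X_pow_dvd_iff] at h2
  intro j hj
  have h3 := h2 j hj
  rw [map_sub] at h3
  exact sub_eq_zero.mp h3

private def NH1F_P {k : Type} [Field k] {r : ℕ} (C : Config k r) (K : Type) [Field K] [Algebra (F k) K] [Algebra k K]
    (g : Chart C → Chart C → (PowerSeries K ≃ₐ[k] PowerSeries K)) (m : ℕ)
    (h : Chart C → (PowerSeries K ≃ₐ[k] PowerSeries K)) : Prop :=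
  (∀ u, IsDef (h u) ∧ Pre (u.A K : Set K) (h u)) ∧ ∀ u v, Cong (m + 1) (h u * g u v * (h v)⁻¹)

private theorem NH1F_coc (hG : NGrpStmt) (hL : NLocStmt) {k : Type} [Field k] {r : ℕ} (C : Config k r) (K : Type)
    [Field K] [Algebra (F k) K] [Algebra k K] [IsScalarTower k (F k) K]
    (g : Chart C → Chart C → (PowerSeries K ≃ₐ[k] PowerSeries K)) (hg : IsDefCocycle C K g)
    (h : Chart C → (PowerSeries K ≃ₐ[k] PowerSeries K)) (hh : ∀ u, IsDef (h u) ∧ Pre (u.A K : Set K) (h u)) :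
    IsDefCocycle C K (fun u v => h u * g u v * (h v)⁻¹) := by
  obtain ⟨g1, g2, g3, g4, -⟩ := hG k K
  refine ⟨?_, ?_, ?_⟩
  · intro u v
    exact g1 _ _ (g1 _ _ (hh u).1 (hg.isDef u v)) (g2 _ (hh v).1)
  · intro u v
    have h1 : Pre ((u.A K ⊔ v.A K : Subring K) : Set K) (h u) := (hL k r C K u v).1 (h u) (hh u).1 (hh u).2
    have h2 : Pre ((v.A K ⊔ u.A K : Subring K) : Set K) (h v) := (hL k r C K v u).1 (h v) (hh v).1 (hh v).2
    rw [sup_comm] at h2
    exact g3 _ _ _ (g3 _ _ _ h1 (hg.pre u v)) (g4 _ _ (hh v).1 h2)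
  · intro u v w
    have h1 := hg.coc u v w
    change h u * g u v * (h v)⁻¹ * (h v * g v w * (h w)⁻¹) = h u * g u w * (h w)⁻¹
    rw [← h1]
    group

/-- The rings of the charts are stable under `k`. -/
private theorem NH1F_smul {k : Type} [Field k] {r : ℕ} (C : Config k r) (K : Type) [Field K] [Algebra (F k) K]
    [Algebra k K] [IsScalarTower k (F k) K] (u : Chart C) (c : k) (x : K) (hx : x ∈ u.A K) : c • x ∈ u.A K := by
  rw [Algebra.smul_def, IsScalarTower.algebraMap_apply k (F k) K]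
  refine (u.A K).mul_mem ?_ hx
  exact (integralClosure u.R K).algebraMap_mem ⟨algebraMap k (F k) c, u.R.algebraMap_mem c⟩

private theorem NH1F_step (hG : NGrpStmt) (hX : NExpStmt) (hD : NLeadStmt) (hL : NLocStmt) {k : Type} [Field k]
    [CharZero k] {r : ℕ} (C : Config k r) (K : Type) [Field K] [Algebra (F k) K] [Algebra k K] [IsScalarTower k (F k) K]
    (hH : H1Vanishes C K) (g : Chart C → Chart C → (PowerSeries K ≃ₐ[k] PowerSeries K))
    (hg : IsDefCocycle C K g) (m : ℕ) (h : Chart C → (PowerSeries K ≃ₐ[k] PowerSeries K))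
    (hh : NH1F_P C K g m h) :
    ∃ h' : Chart C → (PowerSeries K ≃ₐ[k] PowerSeries K), NH1F_P C K g (m + 1) h' ∧
      ∀ (u : Chart C) (f : PowerSeries K) (j : ℕ), j < m + 1 →
        PowerSeries.coeff j (h' u f) = PowerSeries.coeff j (h u f) := by
  obtain ⟨g1, g2, g3, g4, -⟩ := hG k K
  have hM : 0 < m + 1 := Nat.succ_pos m
  have hGc := NH1F_coc hG hL C K g hg h hh.1
  choose D hDD using fun u v : Chart C =>
    (hD k K (m + 1) hM (h u * g u v * (h v)⁻¹) (hGc.isDef u v) (hh.2 u v)).1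
  have hpre : ∀ u v, ∀ x ∈ u.A K ⊔ v.A K, D u v x ∈ u.A K ⊔ v.A K := by
    intro u v x hx
    rw [← hDD]
    refine hGc.pre u v (PowerSeries.C x) ?_ (m + 1)
    intro j
    rw [PowerSeries.coeff_C]
    split_ifs
    · exact hx
    · exact (u.A K ⊔ v.A K).zero_mem
  have hcoc : ∀ u v w, D u v + D v w = D u w := by
    intro u v w
    ext a
    change D u v a + D v w a = D u w a
    rw [← hDD, ← hDD, ← hDD]
    have h1 := (hD k K (m + 1) hM (h u * g u v * (h v)⁻¹) (hGc.isDef u v) (hh.2 u v)).2.2.2.2.1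
      (h v * g v w * (h w)⁻¹) (hGc.isDef v w) a
    have h2 := hGc.coc u v w
    have h3 : (h u * g u w * (h w)⁻¹) (PowerSeries.C a) =
        (h u * g u v * (h v)⁻¹) ((h v * g v w * (h w)⁻¹) (PowerSeries.C a)) := by
      rw [← h2]
      rfl
    rw [h3, h1, add_comm]
  obtain ⟨E, hE1, hE2⟩ := hH D hpre hcoc
  choose ε he1 he2 he3 he4 he5 using fun u : Chart C => hX k K (E u) (m + 1) hM
  have he6 : ∀ u, Pre (u.A K : Set K) (ε u) := fun u => he5 u _ (NH1F_smul C K u) (hE1 u)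
  refine ⟨fun u => ε u * h u, ⟨?_, ?_⟩, ?_⟩
  · intro u
    exact ⟨g1 _ _ (he1 u) (hh.1 u).1, g3 _ _ _ (he6 u) (hh.1 u).2⟩
  · intro u v a j hj0 hj
    have h1 : ε u * h u * g u v * (ε v * h v)⁻¹ = ε u * ((h u * g u v * (h v)⁻¹) * (ε v)⁻¹) := by
      group
    change PowerSeries.coeff j ((ε u * h u * g u v * (ε v * h v)⁻¹) (PowerSeries.C a)) = 0
    rw [h1]
    obtain ⟨-, a2, a3, a4, a5, -, -⟩ := hD k K (m + 1) hM (ε u) (he1 u) (he3 u)
    obtain ⟨-, b2, b3, -, -, -, -⟩ := hD k K (m + 1) hM (ε v) (he1 v) (he3 v)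
    obtain ⟨-, -, -, c4, c5, -, -⟩ := hD k K (m + 1) hM (h u * g u v * (h v)⁻¹) (hGc.isDef u v) (hh.2 u v)
    have hτ : IsDef ((h u * g u v * (h v)⁻¹) * (ε v)⁻¹) := g1 _ _ (hGc.isDef u v) (g2 _ (he1 v))
    rcases Nat.lt_or_ge j (m + 1) with hjm | hjm
    · change PowerSeries.coeff j (ε u ((h u * g u v * (h v)⁻¹) ((ε v)⁻¹ (PowerSeries.C a)))) = 0
      rw [a4 _ j hjm, c4 _ j hjm]
      exact b2 a j hj0 hjm
    · have hjj : j = m + 1 := by omega
      subst hjj
      change PowerSeries.coeff (m + 1) (ε u (((h u * g u v * (h v)⁻¹) * (ε v)⁻¹) (PowerSeries.C a))) = 0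
      rw [a5 _ hτ a]
      change PowerSeries.coeff (m + 1) ((h u * g u v * (h v)⁻¹) ((ε v)⁻¹ (PowerSeries.C a))) +
        PowerSeries.coeff (m + 1) (ε u (PowerSeries.C a)) = 0
      rw [c5 _ (g2 _ (he1 v)) a, b3 a, he4, he4, hDD, hE2]
      change -(E v) a + (E v a - E u a) + E u a = 0
      ring
  · intro u f j hj
    exact (hD k K (m + 1) hM (ε u) (he1 u) (he3 u)).2.2.2.1 (h u f) j hj

/-- Module N/NH1F. -/
theorem tNH1F (h1 : NGrpStmt) (h2 : NExpStmt) (h3 : NLeadStmt) (h4 : NLimStmt) (h5 : NLocStmt) : NH1FStmt := by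
  intro k _ _ r C K _ _ _ _ hH g hg
  obtain ⟨g1, g2, g3, g4, -, g6, -, -⟩ := h1 k K
  have h0 : NH1F_P C K g 0 (fun _ => 1) := by
    refine ⟨fun u => ⟨NH1F_one, NH1F_preone _⟩, ?_⟩
    intro u v a j hj0 hj
    omega
  choose! nx hnx using fun (m : ℕ) (h : Chart C → (PowerSeries K ≃ₐ[k] PowerSeries K)) (hh : NH1F_P C K g m h) =>
    NH1F_step h1 h2 h3 h5 C K hH g hg m h hh
  let s : ℕ → (Chart C → (PowerSeries K ≃ₐ[k] PowerSeries K)) := fun m => Nat.rec (fun _ => 1) (fun m h => nx m h) m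
  have hs0 : s 0 = fun _ => 1 := rfl
  have hsS : ∀ m, s (m + 1) = nx m (s m) := fun m => rfl
  have hs : ∀ m, NH1F_P C K g m (s m) := by
    intro m
    induction m with
    | zero => exact h0
    | succ m ih => rw [hsS]; exact (hnx m (s m) ih).1
  have hst : ∀ (m : ℕ) (u : Chart C) (f : PowerSeries K) (j : ℕ), j < m + 1 →
      PowerSeries.coeff j (s (m + 1) u f) = PowerSeries.coeff j (s m u f) := by
    intro m u f j hj
    rw [hsS]
    exact (hnx m (s m) (hs m)).2 u f j hj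
  choose h hh1 hh2 hh3 hh4 using fun u : Chart C => h4 k K (fun m => s m u) (fun m => ((hs m).1 u).1)
    (fun m a j hj => hst m u (PowerSeries.C a) j (by omega))
  have hpre : ∀ u, Pre (u.A K : Set K) (h u) := fun u => hh4 u _ (fun m => ((hs m).1 u).2)
  refine ⟨h, fun u => ⟨hh1 u, hpre u⟩, ?_⟩
  intro u v
  have hdef : IsDef (h u * g u v * (h v)⁻¹) := g1 _ _ (g1 _ _ (hh1 u) (hg.isDef u v)) (g2 _ (hh1 v))
  have key : h u * g u v * (h v)⁻¹ = 1 := by
    refine g6 _ _ hdef NH1F_one ?_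
    intro a
    refine PowerSeries.ext fun m => ?_
    change _ = PowerSeries.coeff m (PowerSeries.C a)
    rcases Nat.eq_zero_or_pos m with rfl | hm
    · rw [PowerSeries.coeff_zero_eq_constantCoeff_apply, PowerSeries.coeff_zero_eq_constantCoeff_apply, hdef.2]
    rw [PowerSeries.coeff_C, if_neg (by omega)]
    have e1 : PowerSeries.coeff m ((h u * g u v * (h v)⁻¹) (PowerSeries.C a)) =
        PowerSeries.coeff m ((s (m + 1) u * g u v * (s (m + 1) v)⁻¹) (PowerSeries.C a)) := by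
      change PowerSeries.coeff m (h u (g u v ((h v)⁻¹ (PowerSeries.C a)))) =
        PowerSeries.coeff m (s (m + 1) u (g u v ((s (m + 1) v)⁻¹ (PowerSeries.C a))))
      rw [hh2 u (m + 1) _ m (by omega)]
      refine NH1F_cong h1 (s (m + 1) u) ((hs (m + 1)).1 u).1 _ _ (m + 1) ?_ m (by omega)
      refine NH1F_cong h1 (g u v) (hg.isDef u v) _ _ (m + 1) ?_
      intro j hj
      exact hh3 v (m + 1) _ j hj
    rw [e1]
    exact (hs (m + 1)).2 u v a m hm (by omega)
  have e2 : g u v = (h u)⁻¹ * (h u * g u v * (h v)⁻¹) * h v := by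
    group
  rw [e2, key, mul_one]

end Pool.Agent.Lib.MP_4318ff_ag
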