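import Pool.Agent.Lib.MP_4318ff_ag.Spec.N

/-!
# MP_4318ff_ag, module `N/NH1O`: `H¹(S, O) = 0`
-/

set_option autoImplicit false

namespace Pool.Agent.Lib.MP_4318ff_ag

open scoped LinearAlgebra.Projectivization

/-- A basis of the forms through `P`. -/
private theorem NH1O_perp {k : Type} [Field k] (P : Pt k) : ∃ a₀ a₁ : Fin 3 → k,
    LinearIndependent k ![a₀, a₁] ∧ a₀ ⬝ᵥ P.rep = 0 ∧ a₁ ⬝ᵥ P.rep = 0 ∧
    ∀ c : Fin 3 → k, c ⬝ᵥ P.rep = 0 → ∃ s t : k, c = s • a₀ + t • a₁ := by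
  classical
  let φ : (Fin 3 → k) →ₗ[k] k :=
    { toFun := fun c => c ⬝ᵥ P.rep
      map_add' := fun c d => add_dotProduct c d _
      map_smul' := fun t c => smul_dotProduct t c _ }
  have hφ : ∀ c, φ c = c ⬝ᵥ P.rep := fun _ => rfl
  have hsurj : LinearMap.range φ = ⊤ := by
    rw [LinearMap.range_eq_top]
    obtain ⟨i, hi⟩ : ∃ i, P.rep i ≠ 0 := by
      by_contra h
      push Not at h
      exact P.rep_nonzero (funext h)
    intro y
    refine ⟨Pi.single i (y / P.rep i), ?_⟩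
    rw [hφ, single_dotProduct, div_mul_cancel₀ _ hi]
  have hfr : Module.finrank k (LinearMap.ker φ) = 2 := by
    have h := LinearMap.finrank_range_add_finrank_ker φ
    rw [hsurj, finrank_top, Module.finrank_self, Module.finrank_fin_fun] at h
    omega
  let b := Module.finBasisOfFinrankEq k (LinearMap.ker φ) hfr
  refine ⟨(b 0).1, (b 1).1, ?_, (b 0).2, (b 1).2, fun c hc => ?_⟩
  · have h1 := b.linearIndependent.map' (LinearMap.ker φ).subtype
      (Submodule.ker_subtype _)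
    have h2 : (⇑(LinearMap.ker φ).subtype ∘ ⇑b) = ![(b 0).1, (b 1).1] := by
      funext i
      fin_cases i <;> rfl
    rwa [h2] at h1
  · have h3 := b.sum_repr ⟨c, hc⟩
    rw [Fin.sum_univ_two] at h3
    refine ⟨b.repr ⟨c, hc⟩ 0, b.repr ⟨c, hc⟩ 1, ?_⟩
    have h4 := congrArg Subtype.val h3
    exact h4.symm

private theorem NH1O_ne {k : Type} [Field k] {a b : Fin 3 → k}
    (h : LinearIndependent k ![a, b]) : a ≠ 0 ∧ b ≠ 0 :=
  ⟨h.ne_zero 0, h.ne_zero 1⟩

private theorem NH1O_swap {k : Type} [Field k] {a b : Fin 3 → k}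
    (h : LinearIndependent k ![a, b]) : LinearIndependent k ![b, a] := by
  rw [LinearIndependent.pair_iff] at h ⊢
  intro s t hst
  have := h t s (by rw [add_comm]; exact hst)
  exact ⟨this.2, this.1⟩

/-- Charts with a given form through `P`. -/
private theorem NH1O_chart {k : Type} [Field k] {r : ℕ} (C : Config k r) (P : Pt k)
    (a : Fin 3 → k) (ha : a ≠ 0) (haP : a ⬝ᵥ P.rep = 0) : ∃ u : Chart C, u.a P = a := by
  classical
  have h1 : ∀ Q : Pt k, ∃ c : Fin 3 → k, c ≠ 0 ∧ c ⬝ᵥ Q.rep = 0 := by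
    intro Q
    obtain ⟨a₀, a₁, hli, h0, -, -⟩ := NH1O_perp Q
    exact ⟨a₀, (NH1O_ne hli).1, h0⟩
  choose f hf hf' using h1
  refine ⟨{ b := Pi.single 0 1
            b_ne := fun h => one_ne_zero (α := k) (by simpa using congrFun h 0)
            a := Function.update f P a
            a_ne := ?_
            a_through := ?_ }, ?_⟩
  · intro Q _
    by_cases h : Q = P
    · subst h
      rw [Function.update_self]
      exact ha
    · rw [Function.update_of_ne h]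
      exact hf Q
  · intro Q _
    by_cases h : Q = P
    · subst h
      rw [Function.update_self]
      exact haP
    · rw [Function.update_of_ne h]
      exact hf' Q
  · exact Function.update_self P a f

section pencil

variable {k : Type} [Field k] (hEv : EvStmt) {P : Pt k} {x y : Fin 3 → k}
  (hli : LinearIndependent k ![x, y]) (hx : x ⬝ᵥ P.rep = 0) (hy : y ⬝ᵥ P.rep = 0)
  (hspan : ∀ c : Fin 3 → k, c ⬝ᵥ P.rep = 0 → ∃ s t : k, c = s • x + t • y)

include hEv hli hspan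

/-- The sum of the two coordinate rings. -/
private theorem NH1O_sum (hx : x ⬝ᵥ P.rep = 0) (hy : y ⬝ᵥ P.rep = 0) (f : F k)
    (hf : f ∈ PR P x ⊔ PR P y) : ∃ g ∈ PR P y, ∃ h ∈ PR P x, f = g + h := by
  obtain ⟨e1, e2, e3⟩ := hEv k
  have hx0 : ev x ≠ 0 := fun h => (NH1O_ne hli).1 ((e3 x).1 h)
  have hy0 : ev y ≠ 0 := fun h => (NH1O_ne hli).2 ((e3 y).1 h)
  set l := ev x / ev y with hl
  have hl0 : l ≠ 0 := div_ne_zero hx0 hy0
  have hl1 : l ∈ PR P y := Algebra.subset_adjoin ⟨x, hx, rfl⟩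
  have hl2 : l⁻¹ ∈ PR P x := Algebra.subset_adjoin ⟨y, hy, by rw [hl, inv_div]⟩
  have h1 : PR P x ⊔ PR P y ≤ Algebra.adjoin k ({l, l⁻¹} : Set (F k)) := by
    have hL : l ∈ Algebra.adjoin k ({l, l⁻¹} : Set (F k)) :=
      Algebra.subset_adjoin (Set.mem_insert _ _)
    have hL' : l⁻¹ ∈ Algebra.adjoin k ({l, l⁻¹} : Set (F k)) :=
      Algebra.subset_adjoin (Set.mem_insert_of_mem _ rfl)
    refine sup_le (Algebra.adjoin_le ?_) (Algebra.adjoin_le ?_)
    · rintro z ⟨c, hc, rfl⟩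
      obtain ⟨s, t, rfl⟩ := hspan c hc
      have h2 : ev (s • x + t • y) / ev x = algebraMap k (F k) s + t • l⁻¹ := by
        rw [e1, e2, e2, add_div, mul_div_assoc, mul_div_assoc, div_self hx0, mul_one, hl, inv_div,
          Algebra.smul_def]
      rw [h2]
      exact Subalgebra.add_mem _ (Subalgebra.algebraMap_mem _ s) (Subalgebra.smul_mem _ hL' t)
    · rintro z ⟨c, hc, rfl⟩
      obtain ⟨s, t, rfl⟩ := hspan c hc
      have h2 : ev (s • x + t • y) / ev y = s • l + algebraMap k (F k) t := by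
        rw [e1, e2, e2, add_div, mul_div_assoc, mul_div_assoc, div_self hy0, mul_one, hl,
          Algebra.smul_def]
      rw [h2]
      exact Subalgebra.add_mem _ (Subalgebra.smul_mem _ hL s) (Subalgebra.algebraMap_mem _ t)
  have h3 : f ∈ Submodule.span k ((Submonoid.closure ({l, l⁻¹} : Set (F k)) : Submonoid (F k)) :
      Set (F k)) := by
    rw [← Algebra.adjoin_eq_span]
    exact h1 hf
  let N : Submonoid (F k) :=
    { carrier := {z | ∃ n : ℤ, z = l ^ n}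
      mul_mem' := by
        rintro _ _ ⟨n, rfl⟩ ⟨m, rfl⟩
        exact ⟨n + m, (zpow_add₀ hl0 n m).symm⟩
      one_mem' := ⟨0, (zpow_zero l).symm⟩ }
  have h4 : Submonoid.closure ({l, l⁻¹} : Set (F k)) ≤ N := by
    rw [Submonoid.closure_le]
    rintro z (rfl | hz)
    · exact ⟨1, (zpow_one l).symm⟩
    · rw [Set.mem_singleton_iff] at hz
      exact ⟨-1, by rw [hz, zpow_neg_one]⟩
  have h5 : Submodule.span k ((Submonoid.closure ({l, l⁻¹} : Set (F k)) : Submonoid (F k)) :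
      Set (F k)) ≤ Subalgebra.toSubmodule (PR P y) ⊔ Subalgebra.toSubmodule (PR P x) := by
    rw [Submodule.span_le]
    intro z hz
    obtain ⟨n, rfl⟩ := h4 hz
    rcases n with n | n
    · refine Submodule.mem_sup_left ?_
      rw [Int.ofNat_eq_natCast, zpow_natCast]
      exact (PR P y).pow_mem hl1 n
    · refine Submodule.mem_sup_right ?_
      rw [zpow_negSucc, ← inv_pow]
      exact (PR P x).pow_mem hl2 _
  obtain ⟨g, hg, h, hh, hgh⟩ := Submodule.mem_sup.1 (h5 h3)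
  exact ⟨g, hg, h, hh, hgh.symm⟩

end pencil

private theorem NH1O_PRle {k : Type} [Field k] {P : Pt k} {O : Subalgebra k (F k)}
    {a : Fin 3 → k} (h : UnitForm O a) : PR P a ≤ O := by
  refine Algebra.adjoin_le ?_
  rintro z ⟨c, -, rfl⟩
  exact h.2 c

private theorem NH1O_PRPF {k : Type} [Field k] {P : Pt k} {a : Fin 3 → k}
    (ha : a ⬝ᵥ P.rep = 0) {z : F k} (hz : z ∈ PR P a) : z ∈ PF P := by
  have h : PR P a ≤ (PF P).toSubalgebra := by
    refine Algebra.adjoin_le ?_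
    rintro z ⟨c, hc, rfl⟩
    exact IntermediateField.subset_adjoin _ _ ⟨c, a, hc, ha, rfl⟩
  exact h hz


/-- **`H¹(S, O) = 0`.** -/
theorem tNH1O (hEv : EvStmt) (_ : CoordStmt) (hCurve : CurveStmt) (hHart : HartStmt)
    (hEx : ChartExAStmt) (hSide : SideStmt) (hGlob : GlobPStmt) (hPoly : PenPolyStmt) :
    NH1OStmt := by
  intro k _ _ r C P hP c hc hcoc
  have hcO : ∀ u v (O : Subalgebra k (F k)), u.R ≤ O → v.R ≤ O → c u v ∈ O :=
    fun u v O hu hv => sup_le hu hv (hc u v)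
  -- the pieces along one form of the pencil
  have hXex : ∀ a : Fin 3 → k, ∃ X : Chart C → F k, a ≠ 0 → a ⬝ᵥ P.rep = 0 →
      (∀ u, u.a P = a → ∀ O, IsDiv C O → u.R ≤ O → X u ∈ O) ∧
      ∀ u v, u.a P = a → v.a P = a → c u v = X v - X u := by
    intro a
    by_cases h : a ≠ 0 ∧ a ⬝ᵥ P.rep = 0
    · obtain ⟨X, hX⟩ := hSide k r C P a hP h.1 h.2 c
        (fun u v _ _ O _ hu hv => hcO u v O hu hv) (fun u v w _ _ _ => hcoc u v w)
      exact ⟨X, fun _ _ => hX⟩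
    · exact ⟨fun _ => 0, fun h1 h2 => absurd ⟨h1, h2⟩ h⟩
  choose X hX using hXex
  have hne : ∀ u : Chart C, u.a P ≠ 0 := fun u => u.a_ne P hP
  have hth : ∀ u : Chart C, u.a P ⬝ᵥ P.rep = 0 := fun u => u.a_through P hP
  obtain ⟨X0, hX0⟩ : ∃ X0 : Chart C → F k, ∀ u, X0 u = X (u.a P) u := ⟨_, fun _ => rfl⟩
  have hX0O : ∀ u O, IsDiv C O → u.R ≤ O → X0 u ∈ O := by
    intro u O hO huO
    rw [hX0]
    exact (hX _ (hne u) (hth u)).1 u rfl O hO huO
  have hX0R : ∀ u, X0 u ∈ u.R := fun u => hHart k r C u _ fun O hO huO => hX0O u O hO huO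
  have hX0c : ∀ u v, u.a P = v.a P → c u v = X0 v - X0 u := by
    intro u v h
    rw [hX0, hX0, h]
    exact (hX _ (hne v) (hth v)).2 u v h rfl
  -- the cocycle on the pencil
  have huex : ∀ a : Fin 3 → k, ∃ u : Chart C, a ≠ 0 → a ⬝ᵥ P.rep = 0 → u.a P = a := by
    intro a
    by_cases h : a ≠ 0 ∧ a ⬝ᵥ P.rep = 0
    · obtain ⟨u, hu⟩ := NH1O_chart C P a h.1 h.2
      exact ⟨u, fun _ _ => hu⟩
    · obtain ⟨x, y, hli, hx, hy, -⟩ := NH1O_perp P
      obtain ⟨u, -⟩ := NH1O_chart C P x (NH1O_ne hli).1 hx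
      exact ⟨u, fun h1 h2 => absurd ⟨h1, h2⟩ h⟩
  choose uu huu using huex
  obtain ⟨ε, hε⟩ : ∃ ε : (Fin 3 → k) → (Fin 3 → k) → F k, ∀ a a',
      ε a a' = c (uu a) (uu a') - X0 (uu a') + X0 (uu a) := ⟨_, fun _ _ => rfl⟩
  have hεc : ∀ a a' : Fin 3 → k, a ≠ 0 → a' ≠ 0 → a ⬝ᵥ P.rep = 0 → a' ⬝ᵥ P.rep = 0 →
      ∀ u v : Chart C, u.a P = a → v.a P = a' → ε a a' = c u v - X0 v + X0 u := by
    intro a a' ha ha' hp hp' u v hu hv
    have q1 := hX0c u (uu a) (by rw [hu, huu a ha hp])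
    have q2 := hX0c (uu a') v (by rw [hv, huu a' ha' hp'])
    have q3 := hcoc u (uu a) (uu a')
    have q4 := hcoc u (uu a') v
    rw [hε]
    linear_combination q3 + q4 - q1 - q2
  have hadd : ∀ a a' a'' : Fin 3 → k, ε a a' + ε a' a'' = ε a a'' := by
    intro a a' a''
    rw [hε, hε, hε, ← hcoc (uu a) (uu a') (uu a'')]
    ring
  have hneg : ∀ a a' : Fin 3 → k, ε a a' = - ε a' a := by
    intro a a'
    linear_combination hadd a a' a + hadd a a a
  have hεO : ∀ (a a' : Fin 3 → k) (O : Subalgebra k (F k)), a ≠ 0 → a' ≠ 0 →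
      a ⬝ᵥ P.rep = 0 → a' ⬝ᵥ P.rep = 0 → IsDiv C O → PR P a ≤ O → PR P a' ≤ O → ε a a' ∈ O := by
    intro a a' O ha ha' hp hp' hO h1 h2
    obtain ⟨u, huO, hu⟩ := hEx k r C O P a hO hP ha hp h1
    obtain ⟨v, hvO, hv⟩ := hEx k r C O P a' hO hP ha' hp' h2
    rw [hεc a a' ha ha' hp hp' u v hu hv]
    exact O.add_mem (O.sub_mem (hcO u v O huO hvO) (hX0O v O hO hvO)) (hX0O u O hO huO)
  have hεF : ∀ a a' : Fin 3 → k, a ≠ 0 → a' ≠ 0 → a ⬝ᵥ P.rep = 0 → a' ⬝ᵥ P.rep = 0 →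
      ε a a' ∈ PF P := fun a a' ha ha' hp hp' =>
    hGlob k r C P a a' _ hP ha ha' hp hp' fun O hO h1 h2 => hεO a a' O ha ha' hp hp' hO h1 h2
  -- the splitting
  obtain ⟨x, y, hli, hx, hy, hspan⟩ := NH1O_perp P
  obtain ⟨hx0, hy0⟩ := NH1O_ne hli
  have hp : ε x y ∈ PR P x ⊔ PR P y :=
    (hPoly k P _ (hεF x y hx0 hy0 hx hy)).2 x y hx0 hy0 hx hy fun O hO hux huy =>
      hεO x y O hx0 hy0 hx hy (Or.inl hO) (NH1O_PRle hux) (NH1O_PRle huy)
  obtain ⟨g, hg, h, hh, hgh⟩ := NH1O_sum hEv hli hspan hx hy _ hp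
  have hy' : ∀ a : Fin 3 → k, -h - ε a x = g - ε a y := by
    intro a
    linear_combination hgh - hadd a x y
  have hmem : ∀ a : Fin 3 → k, a ≠ 0 → a ⬝ᵥ P.rep = 0 → -h - ε a x ∈ PR P a := by
    intro a ha hap
    refine (hPoly k P _ ?_).1 a ha hap ?_
    · exact (PF P).sub_mem ((PF P).neg_mem (NH1O_PRPF hx hh)) (hεF a x ha hx0 hap hx)
    · intro O hO hua
      rcases (hCurve k O hO).2.2.1 x hx0 with hux | hux
      · exact O.sub_mem (O.neg_mem (NH1O_PRle hux hh))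
          (hεO a x O ha hx0 hap hx (Or.inl hO) (NH1O_PRle hua) (NH1O_PRle hux))
      · have huy := (hux y hli).1
        rw [hy']
        exact O.sub_mem (NH1O_PRle huy hg)
          (hεO a y O ha hy0 hap hy (Or.inl hO) (NH1O_PRle hua) (NH1O_PRle huy))
  have hPRR : ∀ u : Chart C, PR P (u.a P) ≤ u.R := by
    intro u
    refine Algebra.adjoin_mono ?_
    rintro z ⟨b, hb, rfl⟩
    exact Or.inr ⟨P, hP, b, hb, rfl⟩
  refine ⟨fun u => X0 u + (-h - ε (u.a P) x), fun u => ?_, fun u v => ?_⟩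
  · exact u.R.add_mem (hX0R u) (hPRR u (hmem _ (hne u) (hth u)))
  · have q1 := hεc _ _ (hne u) (hne v) (hth u) (hth v) u v rfl rfl
    have q2 := hadd (u.a P) x (v.a P)
    have q3 := hneg x (v.a P)
    linear_combination q3 - q2 - q1

end Pool.Agent.Lib.MP_4318ff_ag
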