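import Pool.Agent.Lib.MP_4318ff_ag.Spec.N

/-!
# MP_4318ff_ag, part N, module NLead: leading coefficients
-/

set_option autoImplicit false

namespace Pool.Agent.Lib.MP_4318ff_ag

section NLead

variable {k K : Type} [Field k] [Field K] [Algebra k K]

private theorem NLead_zero {σ : PowerSeries K ≃ₐ[k] PowerSeries K} (hσ : IsDef σ) (a : K) :
    PowerSeries.coeff 0 (σ (PowerSeries.C a)) = a := by
  rw [PowerSeries.coeff_zero_eq_constantCoeff_apply, hσ.2, PowerSeries.constantCoeff_C]

/-- A sum over the antidiagonal all of whose inner terms vanish. -/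
private theorem NLead_sum {m : ℕ} (hm : 0 < m) (t : ℕ × ℕ → K)
    (h : ∀ p ∈ Finset.HasAntidiagonal.antidiagonal m, 0 < p.1 → 0 < p.2 → t p = 0) :
    ∑ p ∈ Finset.HasAntidiagonal.antidiagonal m, t p = t (0, m) + t (m, 0) := by
  refine Finset.sum_eq_add (0, m) (m, 0) ?_ ?_ ?_ ?_
  · intro h0
    have := congrArg Prod.fst h0
    exact hm.ne this
  · intro c hc h0
    have hc' := Finset.HasAntidiagonal.mem_antidiagonal.1 hc
    refine h c hc (Nat.pos_of_ne_zero fun h1 => h0.1 ?_) (Nat.pos_of_ne_zero fun h1 => h0.2 ?_)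
    · refine Prod.ext h1 ?_
      change c.2 = m
      omega
    · refine Prod.ext ?_ h1
      change c.1 = m
      omega
  · intro h0
    exact absurd (Finset.HasAntidiagonal.mem_antidiagonal.2 (zero_add m)) h0
  · intro h0
    exact absurd (Finset.HasAntidiagonal.mem_antidiagonal.2 (add_zero m)) h0

private theorem NLead_low (h7 : ∀ σ : PowerSeries K ≃ₐ[k] PowerSeries K, IsDef σ → ∀ (f : PowerSeries K) (N : ℕ),
      PowerSeries.coeff N (σ f) =
      ∑ p ∈ Finset.HasAntidiagonal.antidiagonal N, PowerSeries.coeff p.1 (σ (PowerSeries.C (PowerSeries.coeff p.2 f))))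
    {m : ℕ} {σ : PowerSeries K ≃ₐ[k] PowerSeries K} (hσ : IsDef σ) (hc : Cong m σ) (f : PowerSeries K) (j : ℕ)
    (hj : j < m) : PowerSeries.coeff j (σ f) = PowerSeries.coeff j f := by
  rw [h7 σ hσ f j, Finset.sum_eq_single (0, j)]
  · exact NLead_zero hσ _
  · intro p hp hne
    have hp' := Finset.HasAntidiagonal.mem_antidiagonal.1 hp
    refine hc _ _ (Nat.pos_of_ne_zero fun h1 => hne ?_) (by omega)
    refine Prod.ext h1 ?_
    change p.2 = j
    omega
  · intro h0
    exact absurd (Finset.HasAntidiagonal.mem_antidiagonal.2 (zero_add j)) h0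

private theorem NLead_top (h7 : ∀ σ : PowerSeries K ≃ₐ[k] PowerSeries K, IsDef σ → ∀ (f : PowerSeries K) (N : ℕ),
      PowerSeries.coeff N (σ f) =
      ∑ p ∈ Finset.HasAntidiagonal.antidiagonal N, PowerSeries.coeff p.1 (σ (PowerSeries.C (PowerSeries.coeff p.2 f))))
    {m : ℕ} (hm : 0 < m) {σ : PowerSeries K ≃ₐ[k] PowerSeries K} (hσ : IsDef σ) (hc : Cong m σ) (f : PowerSeries K) :
    PowerSeries.coeff m (σ f) =
      PowerSeries.coeff m f + PowerSeries.coeff m (σ (PowerSeries.C (PowerSeries.constantCoeff f))) := by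
  rw [h7 σ hσ f m, NLead_sum hm]
  · dsimp only
    rw [NLead_zero hσ, PowerSeries.coeff_zero_eq_constantCoeff_apply]
  · intro p hp h1 h2
    have hp' := Finset.HasAntidiagonal.mem_antidiagonal.1 hp
    exact hc _ _ h1 (by omega)

private theorem NLead_mul {m : ℕ} (hm : 0 < m) {σ : PowerSeries K ≃ₐ[k] PowerSeries K} (hσ : IsDef σ) (hc : Cong m σ)
    (a b : K) : PowerSeries.coeff m (σ (PowerSeries.C (a * b))) =
      a * PowerSeries.coeff m (σ (PowerSeries.C b)) + b * PowerSeries.coeff m (σ (PowerSeries.C a)) := by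
  rw [map_mul PowerSeries.C, map_mul, PowerSeries.coeff_mul, NLead_sum hm]
  · dsimp only
    rw [NLead_zero hσ, NLead_zero hσ, mul_comm (PowerSeries.coeff m _) b]
  · intro p hp h1 h2
    have hp' := Finset.HasAntidiagonal.mem_antidiagonal.1 hp
    rw [hc _ _ h1 (by omega), zero_mul]

private theorem NLead_smul (σ : PowerSeries K ≃ₐ[k] PowerSeries K) (c : k) (a : K) (m : ℕ) :
    PowerSeries.coeff m (σ (PowerSeries.C (c • a))) = c • PowerSeries.coeff m (σ (PowerSeries.C a)) := by
  have h1 : (PowerSeries.C (c • a) : PowerSeries K) = c • PowerSeries.C a := by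
    ext n
    rw [PowerSeries.coeff_C]
    change _ = c • PowerSeries.coeff n (PowerSeries.C a)
    rw [PowerSeries.coeff_C]
    split_ifs
    · rfl
    · rw [smul_zero]
  rw [h1, map_smul]
  rfl

end NLead

theorem tNLead (h : NGrpStmt) : NLeadStmt := by
  intro k K _ _ _ m hm σ hσ hc
  obtain ⟨-, h2, -, -, -, -, h7, -⟩ := h k K
  have hc' : ∀ (a : K) (j : ℕ), j < m → PowerSeries.coeff j (σ⁻¹ (PowerSeries.C a)) =
      PowerSeries.coeff j (PowerSeries.C a) := by
    intro a j hj
    have e1 := NLead_low h7 hσ hc (σ⁻¹ (PowerSeries.C a)) j hj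
    have e2 : σ (σ⁻¹ (PowerSeries.C a)) = PowerSeries.C a := AlgEquiv.apply_symm_apply σ _
    rw [e2] at e1
    exact e1.symm
  have e3 : ∀ a : K, PowerSeries.constantCoeff (σ⁻¹ (PowerSeries.C a)) = a := by
    intro a
    rw [(h2 σ hσ).2, PowerSeries.constantCoeff_C]
  have hC : ∀ (a : K) (j : ℕ), 0 < j → PowerSeries.coeff j (PowerSeries.C a) = 0 := by
    intro a j hj
    rw [PowerSeries.coeff_C, if_neg hj.ne']
  refine ⟨⟨Derivation.mk' { toFun := fun a => PowerSeries.coeff m (σ (PowerSeries.C a)), map_add' := ?_, map_smul' := ?_ }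
    ?_, fun a => rfl⟩, ?_, ?_, NLead_low h7 hσ hc, ?_, ?_, ?_⟩
  · intro a b
    rw [map_add, map_add, map_add]
  · intro c a
    exact NLead_smul σ c a m
  · intro a b
    exact NLead_mul hm hσ hc a b
  · intro a j h0 hj
    rw [hc' a j hj, hC a j h0]
  · intro a
    have e1 := NLead_top h7 hm hσ hc (σ⁻¹ (PowerSeries.C a))
    have e2 : σ (σ⁻¹ (PowerSeries.C a)) = PowerSeries.C a := AlgEquiv.apply_symm_apply σ _
    rw [e2, e3, hC a m hm] at e1
    exact eq_neg_of_add_eq_zero_left e1.symm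
  · intro τ hτ a
    rw [NLead_top h7 hm hσ hc, hτ.2, PowerSeries.constantCoeff_C]
  · intro τ hτ a
    rw [h7 τ hτ (σ (PowerSeries.C a)) m, NLead_sum hm]
    · dsimp only
      rw [NLead_zero hτ, NLead_zero hσ, add_comm]
    · intro p hp h1 h2
      have hp' := Finset.HasAntidiagonal.mem_antidiagonal.1 hp
      rw [hc _ _ h2 (by omega), map_zero, map_zero, map_zero]
  · intro τ hτ f j hj
    rw [h7 τ hτ (σ f) j, h7 τ hτ f j]
    refine Finset.sum_congr rfl fun p hp => ?_
    have hp' := Finset.HasAntidiagonal.mem_antidiagonal.1 hp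
    rw [NLead_low h7 hσ hc f p.2 (by omega)]

end Pool.Agent.Lib.MP_4318ff_ag
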