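import Pool.Agent.Lib.MP_4318ff_ag.Spec.N

set_option autoImplicit false

namespace Pool.Agent.Lib.MP_4318ff_ag

open PowerSeries

private theorem NLim_stat {k K : Type} [Field k] [Field K] [Algebra k K] (σ : ℕ → (PowerSeries K ≃ₐ[k] PowerSeries K))
    (hc : ∀ (m : ℕ) (a : K) (j : ℕ), j < m → coeff j (σ (m + 1) (C a)) = coeff j (σ m (C a)))
    (m n : ℕ) (hmn : m ≤ n) (a : K) (j : ℕ) (hj : j < m) :
    coeff j (σ n (C a)) = coeff j (σ m (C a)) := by
  induction n, hmn using Nat.le_induction with
  | base => rfl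
  | succ n hn ih => rw [hc n a j (lt_of_lt_of_le hj hn), ih]

private theorem NLim_dvd_iff {K : Type} [Field K] (f g : PowerSeries K) (m : ℕ) :
    (∀ j < m, coeff j f = coeff j g) ↔ X ^ m ∣ f - g := by
  rw [PowerSeries.X_pow_dvd_iff]
  constructor
  · intro h j hj
    rw [map_sub, h j hj, sub_self]
  · intro h j hj
    have := h j hj
    rw [map_sub] at this
    exact sub_eq_zero.mp this

theorem tNLim (hG : NGrpStmt) (hE : NExtStmt) : NLimStmt := by
  intro k K _ _ _ σ hσ hc
  obtain ⟨-, g2, -, -, g5, -, g7, -⟩ := hG k K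
  have st := NLim_stat σ hc
  -- the limit homomorphism
  let h : K →ₐ[k] PowerSeries K :=
    { toFun := fun a => PowerSeries.mk fun j => coeff j (σ (j + 1) (C a))
      map_one' := by
        ext j
        simp [PowerSeries.coeff_mk]
      map_mul' := by
        intro a b
        ext j
        rw [PowerSeries.coeff_mk, PowerSeries.coeff_mul, map_mul, map_mul, PowerSeries.coeff_mul]
        refine Finset.sum_congr rfl ?_
        intro p hp
        have hp' : p.1 + p.2 = j := Finset.HasAntidiagonal.mem_antidiagonal.mp hp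
        rw [PowerSeries.coeff_mk, PowerSeries.coeff_mk]
        rw [st (p.1 + 1) (j + 1) (by omega) a p.1 (by omega),
          st (p.2 + 1) (j + 1) (by omega) b p.2 (by omega)]
      map_zero' := by
        ext j
        simp [PowerSeries.coeff_mk]
      map_add' := by
        intro a b
        ext j
        simp [PowerSeries.coeff_mk]
      commutes' := by
        intro c
        ext j
        have h1 : (C (algebraMap k K c) : PowerSeries K) = algebraMap k (PowerSeries K) c :=
          (PowerSeries.algebraMap_apply).symm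
        rw [PowerSeries.coeff_mk, h1, AlgEquiv.commutes] }
  have hh : ∀ (a : K) (j : ℕ), coeff j (h a) = coeff j (σ (j + 1) (C a)) := by
    intro a j
    exact PowerSeries.coeff_mk j (fun j => coeff j (σ (j + 1) (C a)))
  obtain ⟨τ, hτ, hτh⟩ := hE k K h (by
    intro a
    rw [← PowerSeries.coeff_zero_eq_constantCoeff_apply, hh a 0,
      PowerSeries.coeff_zero_eq_constantCoeff_apply, (hσ 1).2, PowerSeries.constantCoeff_C])
  have c1 : ∀ (m : ℕ) (f : PowerSeries K) (j : ℕ), j < m → coeff j (τ f) = coeff j (σ m f) := by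
    intro m f j hj
    rw [g7 τ hτ, g7 (σ m) (hσ m)]
    refine Finset.sum_congr rfl ?_
    intro p hp
    have hp' : p.1 + p.2 = j := Finset.HasAntidiagonal.mem_antidiagonal.mp hp
    rw [hτh, hh, st (p.1 + 1) m (by omega) _ p.1 (by omega)]
  refine ⟨τ, hτ, c1, ?_, ?_⟩
  · intro m f j hj
    have e1 : ∀ i < m, coeff i f = coeff i (σ m (τ⁻¹ f)) := by
      intro i hi
      rw [← c1 m _ i hi]
      have : τ (τ⁻¹ f) = f := AlgEquiv.apply_symm_apply τ f
      rw [this]
    have e2 := (NLim_dvd_iff _ _ _).mp e1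
    have e3 := g5 ((σ m)⁻¹) (g2 _ (hσ m)) _ m e2
    rw [map_sub] at e3
    have e4 : (σ m)⁻¹ (σ m (τ⁻¹ f)) = τ⁻¹ f := AlgEquiv.symm_apply_apply (σ m) _
    rw [e4] at e3
    exact ((NLim_dvd_iff _ _ _).mpr e3 j hj).symm
  · intro A hA f hf m
    rw [c1 (m + 1) f m (Nat.lt_succ_self m)]
    exact hA (m + 1) f hf m

end Pool.Agent.Lib.MP_4318ff_ag
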