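import Pool.Agent.Lib.MP_4318ff_ag.Spec.N
import Pool.Agent.Lib.MP_4318ff_ag.B.Overlap

/-!
# Automorphisms and derivations preserve the ring of the intersection of two charts
-/

set_option autoImplicit false

namespace Pool.Agent.Lib.MP_4318ff_ag

private theorem NLoc_X (hE : EvStmt) (hM : MFinStmt) {k : Type} [Field k] {r : ℕ} (C : Config k r) (u v : Chart C) :
    ∃ x y : F k, x ∈ u.R ∧ y ∈ v.R ∧ x * y = 1 ∧ ∀ z ∈ u.R ⊔ v.R, ∃ m : ℕ, x ^ m * z ∈ u.R := by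
  classical
  have hfin := hM k r C
  set Ms := hfin.toFinset with hMs
  have hMs' : ∀ P, P ∈ Ms ↔ P ∈ C.M := fun P => hfin.mem_toFinset
  have hb : ∀ w : Chart C, ev w.b ≠ 0 := fun w => overlap_ev_ne hE w.b_ne
  have ha : ∀ (w : Chart C) (P) (_ : P ∈ Ms), ev (w.a P) ≠ 0 := fun w P hP => overlap_ev_ne hE (w.a_ne P ((hMs' P).1 hP))
  have hgb : ∀ (w : Chart C) (c : Fin 3 → k), ev c / ev w.b ∈ w.R := fun w c =>
    Algebra.subset_adjoin (Or.inl ⟨c, rfl⟩)
  have hga : ∀ (w : Chart C) (P) (_ : P ∈ Ms) (c : Fin 3 → k), c ⬝ᵥ P.rep = 0 → ev c / ev (w.a P) ∈ w.R :=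
    fun w P hP c hc => Algebra.subset_adjoin (Or.inr ⟨P, (hMs' P).1 hP, c, hc, rfl⟩)
  have hfac : ∀ (w w' : Chart C) (P) (_ : P ∈ Ms), ev (w'.a P) / ev (w.a P) ∈ w.R := fun w w' P hP =>
    hga w P hP _ (w'.a_through P ((hMs' P).1 hP))
  let X : Chart C → Chart C → F k := fun w w' => ev w'.b / ev w.b * ∏ P ∈ Ms, ev (w'.a P) / ev (w.a P)
  have hX : ∀ w w', X w w' ∈ w.R := fun w w' =>
    w.R.mul_mem (hgb w _) (w.R.prod_mem fun P hP => hfac w w' P hP)
  have hXX : X u v * X v u = 1 := by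
    change (ev v.b / ev u.b * ∏ P ∈ Ms, ev (v.a P) / ev (u.a P)) *
      (ev u.b / ev v.b * ∏ P ∈ Ms, ev (u.a P) / ev (v.a P)) = 1
    have h1 : (∏ P ∈ Ms, ev (v.a P) / ev (u.a P)) * ∏ P ∈ Ms, ev (u.a P) / ev (v.a P) = 1 := by
      rw [← Finset.prod_mul_distrib]
      refine Finset.prod_eq_one fun P hP => ?_
      have h1 := ha u P hP
      have h2 := ha v P hP
      field_simp
    have h2 : ev v.b / ev u.b * (ev u.b / ev v.b) = 1 := by
      have h1 := hb u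
      have h2 := hb v
      field_simp
    calc _ = (ev v.b / ev u.b * (ev u.b / ev v.b)) *
        ((∏ P ∈ Ms, ev (v.a P) / ev (u.a P)) * ∏ P ∈ Ms, ev (u.a P) / ev (v.a P)) := by ring
      _ = 1 := by rw [h1, h2, one_mul]
  refine ⟨X u v, X v u, hX u v, hX v u, hXX, ?_⟩
  intro y hy
  have hsup : u.R ⊔ v.R = Algebra.adjoin k
      (({z | ∃ c : Fin 3 → k, z = ev c / ev u.b} ∪
        {z | ∃ P ∈ C.M, ∃ c : Fin 3 → k, c ⬝ᵥ P.rep = 0 ∧ z = ev c / ev (u.a P)}) ∪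
      ({z | ∃ c : Fin 3 → k, z = ev c / ev v.b} ∪
        {z | ∃ P ∈ C.M, ∃ c : Fin 3 → k, c ⬝ᵥ P.rep = 0 ∧ z = ev c / ev (v.a P)})) := by
    rw [Algebra.adjoin_union]
    rfl
  rw [hsup] at hy
  refine overlap_adjoin (hX u v) ?_ hy
  rintro y ((⟨c, rfl⟩ | ⟨P, hP, c, hc, rfl⟩) | (⟨c, rfl⟩ | ⟨P, hP, c, hc, rfl⟩))
  · exact ⟨0, by rw [pow_zero, one_mul]; exact hgb u c⟩
  · exact ⟨0, by rw [pow_zero, one_mul]; exact hga u P ((hMs' P).2 hP) c hc⟩
  · refine ⟨1, ?_⟩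
    rw [pow_one]
    have h1 : X u v * (ev c / ev v.b) = ev c / ev u.b * ∏ P ∈ Ms, ev (v.a P) / ev (u.a P) := by
      have h1 := hb u
      have h2 := hb v
      change (ev v.b / ev u.b * ∏ P ∈ Ms, ev (v.a P) / ev (u.a P)) * (ev c / ev v.b) = _
      field_simp
    rw [h1]
    exact u.R.mul_mem (hgb u _) (u.R.prod_mem fun P hP => hfac u v P hP)
  · refine ⟨1, ?_⟩
    have hP' := (hMs' P).2 hP
    rw [pow_one]
    have h1 : X u v * (ev c / ev (v.a P)) = ev v.b / ev u.b * (ev c / ev (u.a P)) *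
        ∏ P ∈ Ms.erase P, ev (v.a P) / ev (u.a P) := by
      have h1 := ha u P hP'
      have h2 := ha v P hP'
      change (ev v.b / ev u.b * ∏ P ∈ Ms, ev (v.a P) / ev (u.a P)) * (ev c / ev (v.a P)) = _
      rw [← Finset.mul_prod_erase Ms _ hP']
      field_simp
    rw [h1]
    exact u.R.mul_mem (u.R.mul_mem (hgb u _) (hga u P hP' c hc))
      (u.R.prod_mem fun P hP => hfac u v P (Finset.mem_of_mem_erase hP))

private theorem NLoc_C {K : Type} [Field K] (A : Subring K) {a : K} (ha : a ∈ A) (m : ℕ) :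
    PowerSeries.coeff m (PowerSeries.C a) ∈ A := by
  rw [PowerSeries.coeff_C]
  split_ifs
  · exact ha
  · exact A.zero_mem

/-- Automorphisms and derivations which preserve the ring of a chart preserve the ring of the intersection. -/
theorem tNLoc (h1 : EvStmt) (h2 : MFinStmt) (h3 : OverlapStmt) (h4 : NGrpStmt) (h5 : NUnitStmt) : NLocStmt := by
  intro k _ r C K _ _ _ _ u v
  obtain ⟨x, y, hx, hy, hxy, hden⟩ := NLoc_X h1 h2 C u v
  have hle1 : u.A K ≤ u.A K ⊔ v.A K := le_sup_left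
  have hle2 : v.A K ≤ u.A K ⊔ v.A K := le_sup_right
  have key : ∀ a ∈ u.A K ⊔ v.A K, ∃ p q : K, p ∈ u.A K ∧ q ∈ v.A K ∧ p * q = 1 ∧ a * p ∈ u.A K := by
    intro a ha
    rw [← h3 k r C K u v] at ha
    obtain ⟨m, hm⟩ := overlap_denom hx hden ha
    refine ⟨algebraMap (F k) K (x ^ m), algebraMap (F k) K (y ^ m), overlap_ic_of_mem (u.R.pow_mem hx m),
      overlap_ic_of_mem (v.R.pow_mem hy m), ?_, ?_⟩
    · rw [← map_mul, ← mul_pow, hxy, one_pow, map_one]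
    · rw [mul_comm]
      exact hm
  refine ⟨?_, ?_⟩
  · intro τ hτ hpre
    refine (h4 k K).2.2.2.2.2.2.2 (u.A K ⊔ v.A K) τ hτ ?_
    intro a ha
    obtain ⟨p, q, hp, hq, hpq, hap⟩ := key a ha
    have hp0 : p ≠ 0 := left_ne_zero_of_mul_eq_one hpq
    have hcc : PowerSeries.constantCoeff (τ (PowerSeries.C p)) = p := by
      rw [hτ.2, PowerSeries.constantCoeff_C]
    have hinv : p⁻¹ = q := by
      rw [inv_eq_iff_eq_inv]
      exact eq_inv_of_mul_eq_one_left hpq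
    refine h5 K (u.A K ⊔ v.A K) (τ (PowerSeries.C (a * p))) (τ (PowerSeries.C a)) (τ (PowerSeries.C p)) ?_ ?_ ?_ ?_ ?_
    · rw [hcc, hinv]
      exact hle2 hq
    · rw [hcc]
      exact hp0
    · intro m
      exact hle1 (hpre _ (fun m => NLoc_C _ hp m) m)
    · intro m
      exact hle1 (hpre _ (fun m => NLoc_C _ hap m) m)
    · rw [← map_mul, ← map_mul]
  · intro E hE a ha
    obtain ⟨p, q, hp, hq, hpq, hap⟩ := key a ha
    have e1 : E (a * p) = a * E p + p * E a := by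
      rw [Derivation.leibniz, smul_eq_mul, smul_eq_mul]
    have e2 : E a = (E (a * p) - a * E p) * q := by
      rw [e1]
      have : (a * E p + p * E a - a * E p) * q = (p * q) * E a := by ring
      rw [this, hpq, one_mul]
    rw [e2]
    exact (u.A K ⊔ v.A K).mul_mem ((u.A K ⊔ v.A K).sub_mem (hle1 (hE _ hap))
      ((u.A K ⊔ v.A K).mul_mem ha (hle1 (hE _ hp)))) (hle2 hq)

end Pool.Agent.Lib.MP_4318ff_ag
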