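import Pool.Agent.Lib.MP_4318ff_ag.Spec.N

/-!
# MP_4318ff_ag, part N, module NLogExt: logarithmic vector fields extend to `Y`
-/

set_option autoImplicit false

namespace Pool.Agent.Lib.MP_4318ff_ag

open scoped LinearAlgebra.Projectivization

private theorem NLogExt_int {k : Type} [Field k] {r : ℕ} (C : Config k r) (n : ℕ) (K : Type) [Field K]
    [Algebra (F k) K] (u : Chart C) :
    ∀ x ∈ u.A K, IsIntegral (u.A K ⊓ (Kummer K C n).toSubring : Subring K) x := by
  intro x hx
  have hx' : IsIntegral u.R x := hx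
  have hmem : ∀ s : u.R, algebraMap (F k) K (s : F k) ∈ (u.A K ⊓ (Kummer K C n).toSubring : Subring K) := by
    intro s
    refine ⟨?_, ?_⟩
    · change IsIntegral u.R (algebraMap (F k) K (s : F k))
      exact (isIntegral_algebraMap (R := u.R) (A := K) (x := s))
    · exact Subfield.subset_closure (Or.inl ⟨(s : F k), rfl⟩)
  let φ : u.R →+* (u.A K ⊓ (Kummer K C n).toSubring : Subring K) :=
    ((algebraMap (F k) K).comp u.R.val.toRingHom).codRestrict
      (u.A K ⊓ (Kummer K C n).toSubring : Subring K) hmem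
  exact IsIntegral.map_of_comp_eq φ (RingHom.id K) (by ext s; rfl) hx'

private theorem NLogExt_kummer {k : Type} [Field k] {r : ℕ} (C : Config k r) (n : ℕ) (K L : Type) [Field K]
    [Field L] [Algebra (F k) K] [Algebra (F k) L]
    [Algebra K L] [IsScalarTower (F k) K L] : ∀ x ∈ Kummer K C n, algebraMap K L x ∈ Kummer L C n := by
  have h : Kummer K C n ≤ (Kummer L C n).comap (algebraMap K L) := by
    unfold Kummer
    rw [Subfield.closure_le]
    rintro x (⟨f, rfl⟩ | ⟨i, j, hij⟩)
    · rw [SetLike.mem_coe, Subfield.mem_comap, ← IsScalarTower.algebraMap_apply]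
      exact Subfield.subset_closure (Or.inl ⟨f, rfl⟩)
    · rw [SetLike.mem_coe, Subfield.mem_comap]
      refine Subfield.subset_closure (Or.inr ⟨i, j, ?_⟩)
      rw [← map_pow, hij, ← IsScalarTower.algebraMap_apply]
  intro x hx
  exact h hx

/-- The image of `O` is integral over `O`. -/
private theorem NLogExt_mem {k : Type} [Field k] (L : Type) [Field L] [Algebra (F k) L] (O : Subalgebra k (F k))
    (f : F k) (hf : f ∈ O) : algebraMap (F k) L f ∈ ic L O := by
  change IsIntegral O (algebraMap (F k) L f)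
  exact (isIntegral_algebraMap (R := O) (A := L) (x := ⟨f, hf⟩))

/-- A derivation preserving the ring of the chart preserves the local rings of the divisors. -/
private theorem NLogExt_O (hOL : NOLocStmt) {k : Type} [Field k] {r : ℕ} (C : Config k r) (u : Chart C)
    (E : Derivation k (F k) (F k)) (hE : ∀ x ∈ u.R, E x ∈ u.R) (O : Subalgebra k (F k)) (hO : IsDiv C O)
    (huO : u.R ≤ O) : ∀ f ∈ O, E f ∈ O := by
  intro f hf
  obtain ⟨h₁, m₁, h₂, m₂, h0, hi, rfl⟩ := hOL k r C u O hO huO f hf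
  have e1 : E (h₁ / h₂ * h₂) = h₁ / h₂ * E h₂ + h₂ * E (h₁ / h₂) := by
    rw [Derivation.leibniz]
    rfl
  rw [div_mul_cancel₀ _ h0] at e1
  have e2 : E (h₁ / h₂) = (E h₁ - h₁ / h₂ * E h₂) * h₂⁻¹ := by
    field_simp
    field_simp at e1
    linear_combination -e1
  rw [e2]
  exact O.mul_mem (O.sub_mem (huO (hE _ m₁)) (O.mul_mem hf (huO (hE _ m₂)))) hi

/-- At a divisor, either all quotients of lines are regular or one of them is a uniformiser. -/
private theorem NLogExt_pi (hCu : CurveStmt) (hEx : ExcStmt) {k : Type} [Field k] {r : ℕ} (C : Config k r)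
    (hne : ∀ j, C.ℓ j ≠ 0) (hev : ∀ j, ev (C.ℓ j) ≠ 0)
    (O : Subalgebra k (F k)) (hO : IsDiv C O) :
    (∃ π, IsUnif O π ∧ ∀ i j, ev (C.ℓ i) / ev (C.ℓ j) ∈ O) ∨ ∃ i j, IsUnif O (ev (C.ℓ i) / ev (C.ℓ j)) := by
  by_cases hall : ∀ i j, ev (C.ℓ i) / ev (C.ℓ j) ∈ O
  · left
    rcases hO with hc | ⟨T, hT, he⟩
    · obtain ⟨⟨π, hπ⟩, -⟩ := hCu k O hc
      exact ⟨π, hπ, hall⟩
    · obtain ⟨-, -, h3, -⟩ := (hEx k T).2 O he
      obtain ⟨b, c, d, hli, hc0, hd0, -⟩ := he
      have hb : b ⬝ᵥ T.rep ≠ 0 := by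
        intro hb0
        apply T.rep_nonzero
        have hdet : IsUnit (Matrix.of ![b, c, d]) := Matrix.linearIndependent_rows_iff_isUnit.1 hli
        have hmv : (Matrix.of ![b, c, d]).mulVec T.rep = 0 := by
          funext a
          fin_cases a
          · exact hb0
          · exact hc0
          · exact hd0
        have hinj := Matrix.mulVec_injective_iff_isUnit.2 hdet
        exact hinj (by rw [hmv, Matrix.mulVec_zero])
      have hcne : c ≠ 0 := by
        have := hli.ne_zero 1
        simpa using this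
      exact ⟨_, h3 b c hb hcne hc0, hall⟩
  · right
    push Not at hall
    obtain ⟨i, j, hij⟩ := hall
    have hne' : j ≠ i := by
      rintro rfl
      apply hij
      rw [div_self (hev j)]
      exact O.one_mem
    rcases hO with hc | ⟨T, hT, he⟩
    · obtain ⟨-, -, h3, -⟩ := hCu k O hc
      rcases h3 (C.ℓ j) (hne j) with h | h
      · exact absurd (h.2 _) hij
      · exact ⟨j, i, (h (C.ℓ i) (C.indep j i hne')).2⟩
    · obtain ⟨h1, h2, h3, -⟩ := (hEx k T).2 O he
      have hj : C.ℓ j ⬝ᵥ T.rep = 0 := by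
        by_contra hj
        exact hij ((h1 _ hj).2 _)
      have hi : C.ℓ i ⬝ᵥ T.rep ≠ 0 := by
        intro hi
        exact hij (h2 _ _ (hne j) hj hi)
      exact ⟨j, i, h3 _ _ hi (hne j) hj⟩

private theorem NLogExt_core (hEv : EvStmt) (hCu : CurveStmt) (hEx : ExcStmt) (hHK : HartKStmt)
    (hGd : GoodStmt) (hED : ExtDerStmt) (hES : EtStepStmt) (hOL : NOLocStmt)
    (k : Type) [Field k] [CharZero k] [IsAlgClosed k] (r n : ℕ) (C : Config k r) (hn : 2 ≤ n)
    (K : Type) [Field K] [Algebra (F k) K] [Algebra k K] [IsScalarTower k (F k) K]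
    (L : Type) [Field L] [Algebra (F k) L] [Algebra K L] [IsScalarTower (F k) K L] [Algebra k L]
    [IsScalarTower k (F k) L] [FiniteDimensional (F k) L] [IsGalois (F k) L]
    (hK : IsEtaleCover C n K) (u : Chart C) (E : Derivation k (F k) (F k)) (hE : ∀ x ∈ u.R, E x ∈ u.R)
    (hlog : ∀ i j, E (ev (C.ℓ i) / ev (C.ℓ j)) * (ev (C.ℓ j) / ev (C.ℓ i)) ∈ u.R)
    (E' : Derivation k K K) (hE' : ∀ f, E' (algebraMap (F k) K f) = algebraMap (F k) K (E f)) :
    ∀ x ∈ u.A K, E' x ∈ u.A K := by
  have hkKL : IsScalarTower k K L := by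
    refine IsScalarTower.of_algebraMap_eq fun x => ?_
    rw [IsScalarTower.algebraMap_apply k (F k) L, IsScalarTower.algebraMap_apply k (F k) K,
      IsScalarTower.algebraMap_apply (F k) K L]
  obtain ⟨h1, -, h3, -⟩ := hED k K L
  obtain ⟨EL, hEL⟩ := h1 E'
  have hELF : ∀ f, EL (algebraMap (F k) L f) = algebraMap (F k) L (E f) := by
    intro f
    rw [IsScalarTower.algebraMap_apply (F k) K L, hEL, hE', ← IsScalarTower.algebraMap_apply]
  have hRL : Roots L C n := by
    intro i j
    obtain ⟨z, hz⟩ := hK.roots i j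
    exact ⟨algebraMap K L z, by rw [← map_pow, hz, ← IsScalarTower.algebraMap_apply]⟩
  have hr : 2 ≤ r := by
    have h0 : (Set.range C.ℓ).finrank k ≤ Fintype.card (Fin r) := finrank_range_le_card C.ℓ
    rw [Set.finrank, C.span, finrank_top, Module.finrank_fin_fun, Fintype.card_fin] at h0
    omega
  have hne : ∀ j, C.ℓ j ≠ 0 := by
    intro j h0
    obtain ⟨j', hj'⟩ : ∃ j' : Fin r, j ≠ j' := by
      by_cases h : j = ⟨0, by omega⟩
      · refine ⟨⟨1, by omega⟩, ?_⟩
        rw [h]
        intro h2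
        have := congrArg Fin.val h2
        simp at this
      · exact ⟨_, h⟩
    have h2 := (C.indep j j' hj').ne_zero 0
    simp at h2
    exact h2 h0
  have hev : ∀ j, ev (C.ℓ j) ≠ 0 := fun j h0 => hne j (((hEv k).2.2 (C.ℓ j)).1 h0)
  have hn0 : (n : L) ≠ 0 := by
    have : CharZero L := charZero_of_injective_algebraMap (algebraMap k L).injective
    exact Nat.cast_ne_zero.2 (by omega)
  have claim : ∀ y ∈ ic L u.R, y ∈ Kummer L C n → EL y ∈ ic L u.R := by
    intro y hy hyK
    refine hHK k r C L u _ fun O hO huO => ?_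
    have hyO : y ∈ ic L O := by
      have hy' : IsIntegral u.R y := hy
      change IsIntegral O y
      exact IsIntegral.map_of_comp_eq (Subalgebra.inclusion huO).toRingHom (RingHom.id L) (by ext s; rfl) hy'
    have hEO := NLogExt_O hOL C u E hE O hO huO
    have hELO : ∀ f ∈ O, EL (algebraMap (F k) L f) ∈ ic L O := by
      intro f hf
      rw [hELF]
      exact NLogExt_mem L O _ (hEO f hf)
    rcases NLogExt_pi hCu hEx C hne hev O hO with ⟨π, hπ, hall⟩ | ⟨i, j, hπ⟩
    · exact hGd k r n C L O π EL (by omega) hRL hπ hELO (Or.inl hall) y hyO hyK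
    · obtain ⟨ζ, hζ⟩ := hRL i j
      obtain ⟨π, hπd⟩ : ∃ π : F k, π = ev (C.ℓ i) / ev (C.ℓ j) := ⟨_, rfl⟩
      rw [← hπd] at hζ hπ
      have hπ0 : π ≠ 0 := by
        rintro h0
        apply hπ.2.1
        rw [h0, inv_zero]
        exact O.zero_mem
      have hζ0 : ζ ≠ 0 := by
        rintro rfl
        rw [zero_pow (by omega)] at hζ
        exact hπ0 ((map_eq_zero _).1 hζ.symm)
      have hζO : ζ ∈ ic L O := by
        change IsIntegral O ζ
        refine IsIntegral.of_pow (n := n) (by omega) ?_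
        rw [hζ]
        exact NLogExt_mem L O _ hπ.1
      refine hGd k r n C L O π EL (by omega) hRL hπ hELO (Or.inr ⟨ζ, hζO, hζ, ?_⟩) y hyO hyK
      have e1 : EL (ζ ^ n) = (n : L) * ζ ^ (n - 1) * EL ζ := by
        rw [Derivation.leibniz_pow]
        simp [nsmul_eq_mul, smul_eq_mul, mul_assoc]
      rw [hζ, hELF] at e1
      have hζn : ζ ^ n = ζ ^ (n - 1) * ζ := by
        rw [← pow_succ]
        congr 1
        omega
      have hm : E π * π⁻¹ ∈ O := by
        rw [hπd, inv_div]
        exact huO (hlog i j)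
      have e2 : EL ζ = algebraMap (F k) L (algebraMap k (F k) (n : k)⁻¹ * (E π * π⁻¹)) * ζ := by
        rw [map_mul, map_mul, map_inv₀ (algebraMap (F k) L) π, ← IsScalarTower.algebraMap_apply, map_inv₀,
          map_natCast, ← hζ, hζn, e1]
        field_simp
      rw [e2]
      refine (ic L O).mul_mem (NLogExt_mem L O _ (O.mul_mem (O.algebraMap_mem _) hm)) hζO
  have : CharZero K := charZero_of_injective_algebraMap (algebraMap k K).injective
  intro x hx
  refine hES K _ _ _ (hK.etale u) (E'.restrictScalars ℤ) ?_ (NLogExt_int C n K u) x hx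
  rintro y ⟨hy1, hy2⟩
  change E' y ∈ u.A K
  refine (h3 u.R (E' y)).1 ?_
  rw [← hEL]
  exact claim _ ((h3 u.R y).2 hy1) (NLogExt_kummer C n K L y hy2)

theorem tNLogExt (hEv : EvStmt) (_ : UnifStmt) (hCu : CurveStmt) (hEx : ExcStmt) (_ : BasStmt) (hHK : HartKStmt)
    (hGd : GoodStmt) (hED : ExtDerStmt) (hES : EtStepStmt) (hOL : NOLocStmt) : NLogExtStmt := by
  intro k _ _ _ r n C hn K _ _ _ _ hK u E hE hlog
  have := hK.finite
  have : CharZero (F k) := charZero_of_injective_algebraMap (algebraMap k (F k)).injective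
  have : Algebra.IsAlgebraic (F k) (AlgebraicClosure K) := Algebra.IsAlgebraic.trans (F k) K (AlgebraicClosure K)
  have : IsAlgClosure (F k) (AlgebraicClosure K) := ⟨inferInstance, inferInstance⟩
  have : Normal (F k) (AlgebraicClosure K) := IsAlgClosure.normal (F k) (AlgebraicClosure K)
  obtain ⟨h1, -⟩ := hED k (F k) K
  obtain ⟨E', hE'⟩ := h1 E
  exact ⟨E', hE', NLogExt_core hEv hCu hEx hHK hGd hED hES hOL k r n C hn K
    (IntermediateField.normalClosure (F k) K (AlgebraicClosure K)) hK u E hE hlog E' hE'⟩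

end Pool.Agent.Lib.MP_4318ff_ag
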