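import Pool.Agent.Lib.MP_4318ff_ag.Spec.N

set_option autoImplicit false

namespace Pool.Agent.Lib.MP_4318ff_ag

open scoped LinearAlgebra.Projectivization

private lemma NLogGrp_coeff_mul {K : Type} [Field K] (A : Subring K) (f g : PowerSeries K)
    (hf : ∀ m, PowerSeries.coeff m f ∈ A) (hg : ∀ m, PowerSeries.coeff m g ∈ A) (m : ℕ) :
    PowerSeries.coeff m (f * g) ∈ A := by
  rw [PowerSeries.coeff_mul]
  exact Subring.sum_mem _ fun p _ => A.mul_mem (hf _) (hg _)

private lemma NLogGrp_coeff_C {K : Type} [Field K] (A : Subring K) (a : K) (ha : a ∈ A) (m : ℕ) :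
    PowerSeries.coeff m (PowerSeries.C a) ∈ A := by
  rw [PowerSeries.coeff_C]
  split_ifs
  · exact ha
  · exact A.zero_mem

private lemma NLogGrp_lam_ne {k : Type} [Field k] (h1 : EvStmt) {r : ℕ} (C : Config k r) (hr : 2 ≤ r) (i j : Fin r) :
    ev (C.ℓ i) / ev (C.ℓ j) ≠ 0 := by
  have key : ∀ i : Fin r, ev (C.ℓ i) ≠ 0 := by
    intro i h
    have h0 := ((h1 k).2.2 (C.ℓ i)).1 h
    obtain ⟨j, hj⟩ : ∃ j : Fin r, i ≠ j := by
      by_contra hcon
      push Not at hcon
      have e1 := hcon ⟨0, by omega⟩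
      have e2 := hcon ⟨1, by omega⟩
      rw [e1] at e2
      exact absurd (Fin.mk.inj_iff.1 e2) (by omega)
    have := (C.indep i j hj).ne_zero 0
    apply this
    simpa using h0
  exact div_ne_zero (key i) (key j)

theorem tNLogGrp (h1 : EvStmt) (h2 : NGrpStmt) (_ : NExpStmt) (_ : NLeadStmt) (h5 : NUnitStmt) : NLogGrpStmt := by
  intro k _ _ r C u hr
  obtain ⟨g1, g2, g3, g4, g5, g6, g7, g8⟩ := h2 k (F k)
  have hinv : ∀ i j : Fin r, ev (C.ℓ j) / ev (C.ℓ i) = (ev (C.ℓ i) / ev (C.ℓ j))⁻¹ := fun i j => (inv_div _ _).symm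
  -- translation: the log condition in terms of `W`
  have tr : ∀ (σ : PowerSeries (F k) ≃ₐ[k] PowerSeries (F k)) (l : F k) (m : ℕ),
      PowerSeries.coeff m (PowerSeries.C l⁻¹ * σ (PowerSeries.C l)) =
        PowerSeries.coeff m (σ (PowerSeries.C l)) * l⁻¹ := by
    intro σ l m
    rw [PowerSeries.coeff_C_mul, mul_comm]
  refine ⟨?_, ?_, ?_, ?_⟩
  · rintro σ τ ⟨s1, s2, s3⟩ ⟨t1, t2, t3⟩
    refine ⟨g1 _ _ s1 t1, g3 _ _ _ s2 t2, ?_⟩
    intro i j m
    have hl := NLogGrp_lam_ne h1 C hr i j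
    set l := ev (C.ℓ i) / ev (C.ℓ j) with hldef
    rw [hinv i j, ← hldef, ← tr]
    have e1 : PowerSeries.C l⁻¹ * (σ * τ) (PowerSeries.C l) =
        (PowerSeries.C l⁻¹ * σ (PowerSeries.C l)) * σ (PowerSeries.C l⁻¹ * τ (PowerSeries.C l)) := by
      have e2 : σ (τ (PowerSeries.C l)) = σ (PowerSeries.C l) * σ (PowerSeries.C l⁻¹ * τ (PowerSeries.C l)) := by
        rw [← map_mul, ← mul_assoc, ← map_mul PowerSeries.C, mul_inv_cancel₀ hl, map_one, one_mul]
      rw [AlgEquiv.mul_apply, e2, mul_assoc]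
    rw [e1]
    have hs : ∀ m, PowerSeries.coeff m (PowerSeries.C l⁻¹ * σ (PowerSeries.C l)) ∈ u.R.toSubring := by
      intro m
      rw [tr]
      have := s3 i j m
      rw [hinv i j] at this
      exact this
    have ht : ∀ m, PowerSeries.coeff m (PowerSeries.C l⁻¹ * τ (PowerSeries.C l)) ∈ u.R.toSubring := by
      intro m
      rw [tr]
      have := t3 i j m
      rw [hinv i j] at this
      exact this
    exact NLogGrp_coeff_mul u.R.toSubring _ _ hs (s2 _ ht) m
  · rintro σ ⟨s1, s2, s3⟩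
    have si := g2 σ s1
    have sp : Pre (u.R : Set (F k)) σ⁻¹ := g4 u.R.toSubring σ s1 s2
    refine ⟨si, sp, ?_⟩
    intro i j m
    have hl := NLogGrp_lam_ne h1 C hr i j
    set l := ev (C.ℓ i) / ev (C.ℓ j) with hldef
    rw [hinv i j, ← hldef, ← tr]
    have hs : ∀ m, PowerSeries.coeff m (PowerSeries.C l⁻¹ * σ (PowerSeries.C l)) ∈ u.R.toSubring := by
      intro m
      rw [tr]
      have := s3 i j m
      rw [hinv i j] at this
      exact this
    have hc : PowerSeries.constantCoeff (σ⁻¹ (PowerSeries.C l⁻¹ * σ (PowerSeries.C l))) = 1 := by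
      rw [si.2, map_mul, s1.2, PowerSeries.constantCoeff_C, PowerSeries.constantCoeff_C, inv_mul_cancel₀ hl]
    have hss : ∀ x, σ⁻¹ (σ x) = x := fun x => σ.symm_apply_apply x
    refine h5 (F k) u.R.toSubring 1 (PowerSeries.C l⁻¹ * σ⁻¹ (PowerSeries.C l))
      (σ⁻¹ (PowerSeries.C l⁻¹ * σ (PowerSeries.C l))) ?_ ?_ (sp _ hs) ?_ ?_ m
    · rw [hc, inv_one]; exact u.R.toSubring.one_mem
    · rw [hc]; exact one_ne_zero
    · intro m
      have : (1 : PowerSeries (F k)) = PowerSeries.C 1 := (map_one _).symm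
      rw [this]
      exact NLogGrp_coeff_C _ _ u.R.toSubring.one_mem m
    · rw [map_mul, hss]
      have e3 : σ⁻¹ (PowerSeries.C l) * σ⁻¹ (PowerSeries.C l⁻¹) = 1 := by
        rw [← map_mul, ← map_mul PowerSeries.C, mul_inv_cancel₀ hl, map_one, map_one]
      have e4 : PowerSeries.C l⁻¹ * PowerSeries.C l = (1 : PowerSeries (F k)) := by
        rw [← map_mul, inv_mul_cancel₀ hl, map_one]
      calc PowerSeries.C l⁻¹ * σ⁻¹ (PowerSeries.C l) * (σ⁻¹ (PowerSeries.C l⁻¹) * PowerSeries.C l)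
          = (PowerSeries.C l⁻¹ * PowerSeries.C l) * (σ⁻¹ (PowerSeries.C l) * σ⁻¹ (PowerSeries.C l⁻¹)) := by ring
        _ = 1 := by rw [e3, e4, one_mul]
  · rintro m hm σ ⟨s1, s2, s3⟩ _ D hD
    refine ⟨?_, ?_⟩
    · intro x hx
      rw [← hD]
      exact s2 _ (NLogGrp_coeff_C u.R.toSubring x hx) m
    · intro i j
      rw [← hD]
      exact s3 i j m
  · intro E hE hl m hm σ s1 hσ
    refine ⟨s1, ?_, ?_⟩
    · refine g8 u.R.toSubring σ s1 ?_
      intro a ha N
      rw [hσ]
      split_ifs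
      · refine u.R.smul_mem ?_ _
        generalize N / m = n
        induction n with
        | zero => exact ha
        | succ n ih =>
          rw [Function.iterate_succ_apply']
          exact hE _ ih
      · exact u.R.toSubring.zero_mem
    · intro i j N
      have hne := NLogGrp_lam_ne h1 C hr i j
      have hl' := hl i j
      rw [hinv i j] at hl' ⊢
      set l := ev (C.ℓ i) / ev (C.ℓ j) with hldef
      rw [hσ]
      split_ifs
      · rw [smul_mul_assoc]
        refine u.R.smul_mem ?_ _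
        generalize N / m = n
        induction n with
        | zero =>
          rw [Function.iterate_zero, id_eq, mul_inv_cancel₀ hne]
          exact u.R.one_mem
        | succ n ih =>
          rw [Function.iterate_succ_apply']
          have e5 : (E^[n]) l = ((E^[n]) l * l⁻¹) * l := by
            rw [mul_assoc, inv_mul_cancel₀ hne, mul_one]
          have e6 : E ((E^[n]) l) * l⁻¹ = ((E^[n]) l * l⁻¹) * (E l * l⁻¹) + E ((E^[n]) l * l⁻¹) := by
            conv_lhs => rw [e5]
            rw [Derivation.leibniz, smul_eq_mul, smul_eq_mul]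
            rw [add_mul]
            congr 1
            · ring
            · rw [mul_comm l, mul_assoc, mul_inv_cancel₀ hne, mul_one]
          rw [e6]
          exact u.R.add_mem (u.R.mul_mem ih hl') (hE _ ih)
      · rw [zero_mul]
        exact u.R.zero_mem

end Pool.Agent.Lib.MP_4318ff_ag
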