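import Pool.Agent.Lib.MP_4318ff_ag.Spec.N

/-!
# MP_4318ff_ag, module N/NLogO: the logarithmic property at a divisor (helper73)
-/

set_option autoImplicit false

namespace Pool.Agent.Lib.MP_4318ff_ag

open scoped LinearAlgebra.Projectivization

section

variable {k : Type} [Field k] {K : Type} [Field K] [Algebra (F k) K]

private theorem NLogO_ic_mono {S T : Subalgebra k (F k)} (h : S ≤ T) {x : K} (hx : x ∈ ic K S) : x ∈ ic K T := by
  obtain ⟨p, hp, h0⟩ := (hx : IsIntegral S x)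
  refine (⟨p.map (Subalgebra.inclusion h).toRingHom, hp.map _, ?_⟩ : IsIntegral T x)
  rw [Polynomial.eval₂_map]
  exact h0

private theorem NLogO_le_ic {S : Subalgebra k (F k)} {f : F k} (hf : f ∈ S) : algebraMap (F k) K f ∈ ic K S := by
  have h : algebraMap S K ⟨f, hf⟩ = algebraMap (F k) K f := rfl
  rw [← h]
  exact (isIntegral_algebraMap : IsIntegral S (algebraMap S K ⟨f, hf⟩))

private theorem NLogO_desc {S : Subalgebra k (F k)} {f : F k} (hf : algebraMap (F k) K f ∈ ic K S) :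
    IsIntegral S f := by
  obtain ⟨p, hp, h0⟩ := (hf : IsIntegral S (algebraMap (F k) K f))
  refine ⟨p, hp, ?_⟩
  apply (algebraMap (F k) K).injective
  have h1 : algebraMap S K = (algebraMap (F k) K).comp (algebraMap S (F k)) := rfl
  rw [h1, ← Polynomial.hom_eval₂] at h0
  rw [h0, map_zero]

private theorem NLogO_unif (hCurve : CurveStmt) (hExc : ExcStmt) {r : ℕ} {C : Config k r} {O : Subalgebra k (F k)}
    (hO : IsDiv C O) : ∃ π, IsUnif O π := by
  rcases hO with hO | ⟨P, _, hO⟩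
  · exact (hCurve k O hO).1
  · have hO' := hO
    obtain ⟨b, c, d, hlin, hc, hd, _⟩ := hO'
    have hc0 : c ≠ 0 := hlin.ne_zero 1
    have hb : b ⬝ᵥ P.rep ≠ 0 := by
      intro hb
      have hM : (Matrix.of ![b, c, d]).mulVec P.rep = 0 := by
        ext i
        fin_cases i
        · exact hb
        · exact hc
        · exact hd
      have hu : IsUnit (Matrix.of ![b, c, d]) := by
        rw [← Matrix.linearIndependent_rows_iff_isUnit]
        exact hlin
      have := Matrix.mulVec_injective_iff_isUnit.2 hu (hM.trans (Matrix.mulVec_zero _).symm)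
      exact P.rep_nonzero this
    exact ⟨_, ((hExc k P).2 O hO).2.2.1 b c hb hc0 hc⟩

private theorem NLogO_mul {L : Type} [Field L] (S : Subring L) {f g : PowerSeries L}
    (hf : ∀ m, PowerSeries.coeff m f ∈ S) (hg : ∀ m, PowerSeries.coeff m g ∈ S) (m : ℕ) :
    PowerSeries.coeff m (f * g) ∈ S := by
  rw [PowerSeries.coeff_mul]
  exact S.sum_mem fun p _ => S.mul_mem (hf _) (hg _)

private theorem NLogO_C {L : Type} [Field L] (S : Subring L) {a : L} (ha : a ∈ S) (m : ℕ) :
    PowerSeries.coeff m (PowerSeries.C a) ∈ S := by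
  rw [PowerSeries.coeff_C]
  split_ifs
  · exact ha
  · exact S.zero_mem

private theorem NLogO_pow {L : Type} [Field L] (S : Subring L) {f : PowerSeries L}
    (hf : ∀ m, PowerSeries.coeff m f ∈ S) (n : ℕ) : ∀ m, PowerSeries.coeff m (f ^ n) ∈ S := by
  induction n with
  | zero =>
    intro m
    rw [pow_zero, ← map_one (PowerSeries.C (R := L))]
    exact NLogO_C S S.one_mem m
  | succ n ih =>
    rw [pow_succ]
    exact NLogO_mul S ih hf

end

/-- One direction: the quotient `λ` is in `O`. -/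
private theorem NLogO_case (hUnif : UnifStmt) (hRoot : NRootStmt) (hUnit : NUnitStmt)
    {k : Type} [Field k] [CharZero k] {n : ℕ} {K : Type} [Field K] [Algebra (F k) K]
    [Algebra k K] [IsScalarTower k (F k) K] (hn : 2 ≤ n) {u v O : Subalgebra k (F k)}
    {σ : PowerSeries K ≃ₐ[k] PowerSeries K} {γ : PowerSeries (F k) ≃ₐ[k] PowerSeries (F k)} (hσ : IsDef σ) (hγ : IsDef γ)
    (hpre : Pre ((ic K u ⊔ ic K v : Subring K) : Set K) σ)
    (hres : ∀ f, PowerSeries.map (algebraMap (F k) K) (γ f) = σ (PowerSeries.map (algebraMap (F k) K) f))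
    (hu : u ≤ O) (hv : v ≤ O) {π : F k} (hπ : IsUnif O π)
    (h1 : ∀ f ∈ O, ∀ m, PowerSeries.coeff m (γ (PowerSeries.C f)) ∈ O)
    {x y lam : F k} (hx : x ∈ u) (hy : y ∈ u) (hyi : y⁻¹ ∈ O) (hy0 : y ≠ 0) (hl : lam = x / y) (hl0 : lam ≠ 0)
    (hz : ∃ z : K, z ^ n = algebraMap (F k) K lam) (hU : lam⁻¹ ∈ O ∨ IsUnif O lam) (hlO : lam ∈ O) (m : ℕ) :
    PowerSeries.coeff m (PowerSeries.C lam⁻¹ * γ (PowerSeries.C lam)) ∈ O := by
  obtain ⟨z, hz⟩ := hz
  set φ := algebraMap (F k) K with hφ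
  have hn0 : 0 < n := by omega
  have hz0 : z ≠ 0 := by
    rintro rfl
    rw [zero_pow hn0.ne'] at hz
    exact hl0 ((map_eq_zero φ).1 hz.symm)
  have hCC : ∀ (τ : PowerSeries K ≃ₐ[k] PowerSeries K), IsDef τ → ∀ a : K,
      PowerSeries.constantCoeff (τ (PowerSeries.C a)) = a := fun τ hτ a => by
    rw [hτ.2, PowerSeries.constantCoeff_C]
  have hCF : ∀ a : F k, PowerSeries.constantCoeff (γ (PowerSeries.C a)) = a := fun a => by
    rw [hγ.2, PowerSeries.constantCoeff_C]
  have hsup : ((ic K u ⊔ ic K v : Subring K)) ≤ ic K O :=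
    sup_le (fun _ h => NLogO_ic_mono hu h) (fun _ h => NLogO_ic_mono hv h)
  -- the element y z
  have hyz : z * φ y ∈ ic K u := by
    have hpow : (z * φ y) ^ n = φ (x * y ^ (n - 1)) := by
      rw [mul_pow, hz, ← map_pow, ← map_mul, hl]
      congr 1
      obtain ⟨n', rfl⟩ : ∃ n', n = n' + 1 := ⟨n - 1, by omega⟩
      simp only [Nat.add_sub_cancel]
      rw [pow_succ]
      field_simp
    have hin : φ (x * y ^ (n - 1)) ∈ ic K u := NLogO_le_ic (u.mul_mem hx (u.pow_mem hy _))
    rw [← hpow] at hin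
    exact (IsIntegral.of_pow hn0 (hin : IsIntegral u ((z * φ y) ^ n)) : IsIntegral u (z * φ y))
  have hσyz : ∀ m, PowerSeries.coeff m (σ (PowerSeries.C (z * φ y))) ∈ ic K O := by
    intro m
    apply hsup
    apply hpre
    intro m
    exact NLogO_C (ic K u ⊔ ic K v) ((le_sup_left : ic K u ≤ ic K u ⊔ ic K v) hyz) m
  have hmap : ∀ f : F k, PowerSeries.map φ (γ (PowerSeries.C f)) = σ (PowerSeries.C (φ f)) := by
    intro f
    rw [hres, PowerSeries.map_C]
  have hσy : ∀ m, PowerSeries.coeff m (σ (PowerSeries.C (φ y))) ∈ ic K O := by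
    intro m
    rw [← hmap, PowerSeries.coeff_map]
    exact NLogO_le_ic (h1 y (hu hy) m)
  have hσz : ∀ m, PowerSeries.coeff m (σ (PowerSeries.C z)) ∈ ic K O := by
    refine hUnit K (ic K O) (σ (PowerSeries.C (z * φ y))) (σ (PowerSeries.C z)) (σ (PowerSeries.C (φ y))) ?_ ?_ hσy hσyz ?_
    · rw [hCC σ hσ, ← map_inv₀]
      exact NLogO_le_ic hyi
    · rw [hCC σ hσ]
      exact (map_ne_zero φ).2 hy0
    · rw [← map_mul, ← map_mul]
  -- the root w
  set w : PowerSeries K := PowerSeries.C z⁻¹ * σ (PowerSeries.C z) with hw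
  have hw0 : PowerSeries.constantCoeff w = 1 := by
    rw [hw, map_mul, PowerSeries.constantCoeff_C, hCC σ hσ, inv_mul_cancel₀ hz0]
  set g : PowerSeries (F k) := PowerSeries.C lam⁻¹ * γ (PowerSeries.C lam) with hg
  have hg0 : PowerSeries.constantCoeff g = 1 := by
    rw [hg, map_mul, PowerSeries.constantCoeff_C, hCF, inv_mul_cancel₀ hl0]
  have hwg : w ^ n = PowerSeries.map φ g := by
    rw [hw, hg, mul_pow, map_mul, PowerSeries.map_C, hmap, ← map_pow, ← map_pow, ← map_pow, hz, inv_pow, hz, map_inv₀ φ]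
  obtain ⟨W, hW0, _, hWn⟩ := (hRoot k (F k) n hn0).1 ⊤ (fun _ _ _ => Subring.mem_top _) g hg0
    (fun _ => Subring.mem_top _)
  have hwW : w = PowerSeries.map φ W := by
    refine (hRoot k K n hn0).2 _ _ hw0 ?_ ?_
    · rw [← PowerSeries.coeff_zero_eq_constantCoeff_apply, PowerSeries.coeff_map,
        PowerSeries.coeff_zero_eq_constantCoeff_apply, hW0, map_one]
    · rw [hwg, ← map_pow, hWn]
  have hWm : ∀ m, PowerSeries.coeff m W ∈ O := by
    intro m
    have hc : z * φ (PowerSeries.coeff m W) = PowerSeries.coeff m (σ (PowerSeries.C z)) := by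
      rw [← PowerSeries.coeff_map, ← hwW, hw, PowerSeries.coeff_C_mul, mul_inv_cancel_left₀ hz0]
    have hc2 : φ (lam * (PowerSeries.coeff m W) ^ n) ∈ ic K O := by
      have : φ (lam * (PowerSeries.coeff m W) ^ n) = (z * φ (PowerSeries.coeff m W)) ^ n := by
        rw [mul_pow, hz, map_mul, map_pow]
      rw [this, hc]
      exact (ic K O).pow_mem (hσz m) n
    have hc3 : lam * (PowerSeries.coeff m W) ^ n ∈ O := (hUnif k O π hπ).2.1 _ (NLogO_desc hc2)
    rcases hU with hU | hU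
    · have hc4 : (PowerSeries.coeff m W) ^ n ∈ O := by
        have := O.mul_mem hU hc3
        rwa [inv_mul_cancel_left₀ hl0] at this
      apply (hUnif k O π hπ).2.1
      apply IsIntegral.of_pow hn0
      exact (isIntegral_algebraMap : IsIntegral O (algebraMap O (F k) ⟨_, hc4⟩))
    · by_cases hW : PowerSeries.coeff m W = 0
      · rw [hW]
        exact O.zero_mem
      · obtain ⟨e, t, ht, hti, hWe⟩ := hU.2.2 _ hW
        have ht0 : t ≠ 0 := by
          rintro rfl
          rw [mul_zero] at hWe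
          exact hW hWe
        have he : lam ^ (1 + e * n) * t ^ n ∈ O := by
          have : lam ^ (1 + e * n) * t ^ n = lam * (PowerSeries.coeff m W) ^ n := by
            rw [hWe, mul_pow, zpow_add₀ hl0, zpow_one, zpow_mul, zpow_natCast, mul_assoc]
          rw [this]
          exact hc3
        have hge := (hUnif k O lam hU).2.2.2 (1 + e * n) (t ^ n) (pow_ne_zero _ ht0) (O.pow_mem ht _)
          (by rw [← inv_pow]; exact O.pow_mem hti _) he
        have he0 : 0 ≤ e := by
          by_contra hneg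
          have h2 : e ≤ -1 := by omega
          have h3 : e * (n : ℤ) ≤ -1 * n := mul_le_mul_of_nonneg_right h2 (by positivity)
          have h4 : (2 : ℤ) ≤ n := by exact_mod_cast hn
          omega
        obtain ⟨e', rfl⟩ := Int.eq_ofNat_of_zero_le he0
        rw [hWe]
        exact O.mul_mem (by rw [zpow_natCast]; exact O.pow_mem hU.1 _) ht
  rw [← hWn]
  exact NLogO_pow O.toSubring hWm n m

theorem tNLogO (hEv : EvStmt) (hUnif : UnifStmt) (_ : NGrpStmt) (hRoot : NRootStmt) (hUnit : NUnitStmt)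
    (hOLoc : NOLocStmt) (hForm : NFormStmt) (hCurve : CurveStmt) (hExc : ExcStmt) : NLogOStmt := by
  intro k _ _ r n C K _ _ _ _ hn hroots u v σ γ hσ hγ hpre hres O hO hu hv
  obtain ⟨π, hπ⟩ := NLogO_unif hCurve hExc hO
  have hCF : ∀ a : F k, PowerSeries.constantCoeff (γ (PowerSeries.C a)) = a := fun a => by
    rw [hγ.2, PowerSeries.constantCoeff_C]
  have hsup : ((u.A K ⊔ v.A K : Subring K)) ≤ ic K O :=
    sup_le (fun _ h => NLogO_ic_mono hu h) (fun _ h => NLogO_ic_mono hv h)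
  have hR : ∀ f ∈ u.R, ∀ m, PowerSeries.coeff m (γ (PowerSeries.C f)) ∈ O := by
    intro f hf m
    apply (hUnif k O π hπ).2.1
    apply NLogO_desc (K := K)
    rw [← PowerSeries.coeff_map, hres, PowerSeries.map_C]
    apply hsup
    apply hpre
    intro m
    exact NLogO_C (u.A K ⊔ v.A K) ((le_sup_left : u.A K ≤ u.A K ⊔ v.A K) (NLogO_le_ic hf)) m
  have h1 : ∀ f ∈ O, ∀ m, PowerSeries.coeff m (γ (PowerSeries.C f)) ∈ O := by
    intro f hf
    obtain ⟨h₁, hh₁, h₂, hh₂, hne, hinv, hfe⟩ := hOLoc k r C u O hO hu f hf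
    refine hUnit (F k) O.toSubring (γ (PowerSeries.C h₁)) (γ (PowerSeries.C f)) (γ (PowerSeries.C h₂)) ?_ ?_
      (hR h₂ hh₂) (hR h₁ hh₁) ?_
    · rw [hCF]
      exact hinv
    · rw [hCF]
      exact hne
    · rw [← map_mul, ← map_mul, hfe, div_mul_cancel₀ _ hne]
  refine ⟨h1, ?_⟩
  have hne : ∀ i j, i ≠ j → ev (C.ℓ i) ≠ 0 := by
    intro i j hij h
    exact (C.indep i j hij).ne_zero 0 (((hEv k).2.2 _).1 h)
  have key : ∀ i j, i ≠ j → ev (C.ℓ i) / ev (C.ℓ j) ∈ O → ∀ m,
      PowerSeries.coeff m (PowerSeries.C (ev (C.ℓ i) / ev (C.ℓ j))⁻¹ * γ (PowerSeries.C (ev (C.ℓ i) / ev (C.ℓ j)))) ∈ O := by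
    intro i j hij hlO m
    obtain ⟨⟨a', ha', hia, hja, haj⟩, hU⟩ := hForm k r C u O i j hO hu hij hlO
    have ha0 : ev a' ≠ 0 := fun h => ha' (((hEv k).2.2 _).1 h)
    have hi0 := hne i j hij
    have hj0 := hne j i hij.symm
    refine NLogO_case hUnif hRoot hUnit hn hσ hγ hpre hres hu hv hπ h1 hia hja ?_ (div_ne_zero hj0 ha0) ?_
      (div_ne_zero hi0 hj0) (hroots i j) ?_ hlO m
    · rw [inv_div]
      exact haj
    · field_simp
    · rw [inv_div]
      exact hU
  intro i j m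
  rw [← inv_div (ev (C.ℓ i)) (ev (C.ℓ j)), mul_comm, ← PowerSeries.coeff_C_mul]
  by_cases hij : i = j
  · subst hij
    by_cases h0 : ev (C.ℓ i) = 0
    · rw [h0, div_zero, inv_zero, map_zero, zero_mul, map_zero]
      exact O.zero_mem
    · rw [div_self h0, inv_one, map_one, map_one, one_mul, ← map_one (PowerSeries.C (R := F k))]
      exact NLogO_C O.toSubring O.one_mem m
  · by_cases hlO : ev (C.ℓ i) / ev (C.ℓ j) ∈ O
    · exact key i j hij hlO m
    · have hi0 := hne i j hij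
      have hj0 := hne j i (Ne.symm hij)
      have hl0 : ev (C.ℓ i) / ev (C.ℓ j) ≠ 0 := div_ne_zero hi0 hj0
      have hlO' : ev (C.ℓ j) / ev (C.ℓ i) ∈ O := by
        rcases (hUnif k O π hπ).1 (ev (C.ℓ i) / ev (C.ℓ j)) with h | h
        · exact absurd h hlO
        · rwa [inv_div] at h
      have hV := key j i (Ne.symm hij) hlO'
      rw [inv_div] at hV
      refine hUnit (F k) O.toSubring 1 _
        (PowerSeries.C (ev (C.ℓ i) / ev (C.ℓ j)) * γ (PowerSeries.C (ev (C.ℓ j) / ev (C.ℓ i)))) ?_ ?_ hV ?_ ?_ m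
      · rw [map_mul, hCF, PowerSeries.constantCoeff_C, ← inv_div (ev (C.ℓ i)) (ev (C.ℓ j)), mul_inv_cancel₀ hl0, inv_one]
        exact O.one_mem
      · rw [map_mul, hCF, PowerSeries.constantCoeff_C, ← inv_div (ev (C.ℓ i)) (ev (C.ℓ j)), mul_inv_cancel₀ hl0]
        exact one_ne_zero
      · intro m
        rw [← map_one (PowerSeries.C (R := F k))]
        exact NLogO_C O.toSubring O.one_mem m
      · rw [mul_mul_mul_comm, ← map_mul, ← map_mul γ, ← map_mul (PowerSeries.C (R := F k)), inv_mul_cancel₀ hl0,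
          ← inv_div (ev (C.ℓ i)) (ev (C.ℓ j)), mul_inv_cancel₀ hl0, map_one, map_one, mul_one]

end Pool.Agent.Lib.MP_4318ff_ag
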