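import Pool.Agent.Lib.MP_4318ff_ag.Spec.N
import Pool.Agent.Lib.MP_4318ff_ag.A.Hart1
import Pool.Agent.Lib.MP_4318ff_ag.A.ChartEx

/-!
# MP_4318ff_ag, N/NOLoc: the local ring of a divisor is a localisation of the ring of a chart
-/

set_option autoImplicit false

namespace Pool.Agent.Lib.MP_4318ff_ag

open MvPolynomial
open scoped LinearAlgebra.Projectivization

private theorem NOLoc_of_loc {k : Type} [Field k] {R O : Subalgebra k (F k)} {z w : F k}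
    {p : MvPolynomial (Fin 2) k} (hc : IsCoord z w) (hO : IsLoc z w p O) (hz : z ∈ R) (hw : w ∈ R)
    {f : F k} (hf : f ∈ O) : ∃ h₁ ∈ R, ∃ h₂ ∈ R, h₂ ≠ 0 ∧ h₂⁻¹ ∈ O ∧ f = h₁ / h₂ := by
  obtain ⟨h₁, h₂, hd, e⟩ := (hO.2 f).1 hf
  have h0 : h₂ ≠ 0 := by
    rintro rfl
    exact hd (dvd_zero _)
  have h0' : cm z w h₂ ≠ 0 := by
    intro h
    exact h0 (hc.1 (by rw [h, map_zero]))
  refine ⟨cm z w h₁, hart_cm_mem hz hw h₁, cm z w h₂, hart_cm_mem hz hw h₂, h0', ?_, ?_⟩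
  · refine (hO.2 _).2 ⟨1, h₂, hd, ?_⟩
    rw [inv_mul_cancel₀ h0', map_one]
  · rw [← e, mul_div_cancel_right₀ _ h0']

private theorem NOLoc_basis {k : Type} [Field k] (b : Fin 3 → k) (hb : b ≠ 0) :
    ∃ c d : Fin 3 → k, LinearIndependent k ![b, c, d] := by
  obtain ⟨q, hq⟩ := exc_ne b hb
  have hbq : b ⬝ᵥ q ≠ 0 := by rwa [dotProduct_comm]
  have hq0 : q ≠ 0 := by
    rintro rfl
    exact hq (zero_dotProduct b)
  obtain ⟨c, d, hcd, hc, hd⟩ := chartex_two q hq0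
  refine ⟨c, d, linearIndependent_finCons.mpr ⟨hcd, ?_⟩⟩
  intro hmem
  have hle : Submodule.span k (Set.range ![c, d]) ≤ LinearMap.ker (exc_f q) := by
    rw [Submodule.span_le]
    rintro x ⟨i, rfl⟩
    fin_cases i
    · exact hc
    · exact hd
  exact hbq (hle hmem)

theorem tNOLoc (hE : EvStmt) (hC : CoordStmt) (hcv : CurveStmt) (hex : ExcStmt) : NOLocStmt := by
  intro k _ r C u O hO hu f hf
  have hev : ∀ a : Fin 3 → k, a ≠ 0 → ev a ≠ 0 := fun a ha h => ha (((hE k).2.2 a).mp h)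
  have hbR : ∀ c : Fin 3 → k, ev c / ev u.b ∈ u.R := fun c => Algebra.subset_adjoin (Or.inl ⟨c, rfl⟩)
  rcases hO with hO | ⟨T, hT, hO⟩
  · have hub : UnitForm O u.b := ⟨u.b_ne, fun c => hu (hbR c)⟩
    obtain ⟨c, d, hli⟩ := NOLoc_basis u.b u.b_ne
    obtain ⟨p, hp⟩ := (hcv k O hO).2.2.2 u.b c d hli hub
    exact NOLoc_of_loc (hC k u.b c d hli).1 hp (hbR c) (hbR d) hf
  · obtain ⟨h1, h2, h3, h4⟩ := (hex k T).2 O hO
    have haR : ∀ c : Fin 3 → k, c ⬝ᵥ T.rep = 0 → ev c / ev (u.a T) ∈ u.R :=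
      fun c hc => Algebra.subset_adjoin (Or.inr ⟨T, hT, c, hc, rfl⟩)
    have hbT : u.b ⬝ᵥ T.rep ≠ 0 := by
      intro h0
      obtain ⟨b', hb'⟩ := exc_ne T.rep T.rep_nonzero
      have h5 := h3 b' u.b hb' u.b_ne h0
      apply h5.2.1
      rw [inv_div]
      exact hu (hbR b')
    obtain ⟨d, hli, hd⟩ := hart_ext T.rep_nonzero (u.a_ne T hT) (u.a_through T hT) hbT
    exact NOLoc_of_loc (hC k u.b (u.a T) d hli).2 (h4 u.b (u.a T) d hli (u.a_through T hT) hd)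
      (hbR (u.a T)) (haR d hd) hf

end Pool.Agent.Lib.MP_4318ff_ag
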