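import Pool.Agent.Lib.MP_4318ff_ag.Spec.N

/-!
# MP_4318ff_ag, part N, module NRat: the leading coefficient modulo `F`
-/

set_option autoImplicit false

namespace Pool.Agent.Lib.MP_4318ff_ag

section NRat

variable {k K : Type} [Field k] [Field K] [Algebra k K]

private theorem NRat_C {A : Subring K} {σ : PowerSeries K ≃ₐ[k] PowerSeries K} (h : Pre (A : Set K) σ) {a : K}
    (ha : a ∈ A) (m : ℕ) : PowerSeries.coeff m (σ (PowerSeries.C a)) ∈ A := by
  refine h _ (fun j => ?_) m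
  rw [PowerSeries.coeff_C]
  split_ifs
  · exact ha
  · exact A.zero_mem

private theorem NRat_step (hG : NGrpStmt) (hE : NExpStmt) (hL : NLeadStmt) [CharZero k] (A R : Subring K)
    (hA : ∀ (c : k), ∀ x ∈ A, c • x ∈ A) (hR : ∀ (c : k), ∀ x ∈ R, c • x ∈ R) {j m : ℕ} (hj : 0 < j) (hjm : j < m)
    {σ : PowerSeries K ≃ₐ[k] PowerSeries K} (hσ : IsDef σ) (hp : Pre (A : Set K) σ) (hc : Cong j σ)
    (hr : ∀ f ∈ R, ∀ i : ℕ, i < m → PowerSeries.coeff i (σ (PowerSeries.C f)) ∈ R) :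
    ∃ τ : PowerSeries K ≃ₐ[k] PowerSeries K, IsDef τ ∧ Pre (A : Set K) τ ∧ Cong (j + 1) τ ∧
      (∀ f ∈ R, ∀ i : ℕ, i < m → PowerSeries.coeff i (τ (PowerSeries.C f)) ∈ R) ∧
      ∀ f ∈ R, PowerSeries.coeff m (τ (PowerSeries.C f)) - PowerSeries.coeff m (σ (PowerSeries.C f)) ∈ R := by
  obtain ⟨g1, -, g3, -, -, -, g7, -⟩ := hG k K
  obtain ⟨⟨D, hD⟩, -⟩ := hL k K j hj σ hσ hc
  have hDA : ∀ x ∈ A, (-D) x ∈ A := by
    intro x hx
    rw [Derivation.neg_apply, ← hD]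
    exact A.neg_mem (NRat_C hp hx j)
  have hDR : ∀ x ∈ R, (-D) x ∈ R := by
    intro x hx
    rw [Derivation.neg_apply, ← hD]
    exact R.neg_mem (hr x hx j hjm)
  obtain ⟨ε, e1, -, e3, e4, e5⟩ := hE k K (-D) j hj
  have hεA := e5 A hA hDA
  have hεR := e5 R hR hDR
  obtain ⟨-, -, -, l4, l5, -, -⟩ := hL k K j hj ε e1 e3
  have key : ∀ f ∈ R, ∀ p : ℕ × ℕ, p.2 < m →
      PowerSeries.coeff p.1 (ε (PowerSeries.C (PowerSeries.coeff p.2 (σ (PowerSeries.C f))))) ∈ R := by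
    intro f hf p hp2
    exact NRat_C hεR (hr f hf p.2 hp2) p.1
  refine ⟨ε * σ, g1 ε σ e1 hσ, g3 _ ε σ hεA hp, ?_, ?_, ?_⟩
  · intro a i hi0 hi
    rw [AlgEquiv.mul_apply]
    rcases Nat.lt_succ_iff_lt_or_eq.1 hi with h1 | rfl
    · rw [l4 _ i h1]
      exact hc a i hi0 h1
    · rw [l5 σ hσ a, hD a, e4 a, Derivation.neg_apply, add_neg_cancel]
  · intro f hf i hi
    rw [AlgEquiv.mul_apply, g7 ε e1]
    refine R.sum_mem fun p hp => ?_
    have hp' := Finset.HasAntidiagonal.mem_antidiagonal.1 hp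
    exact key f hf p (by omega)
  · intro f hf
    have hmem : ((0, m) : ℕ × ℕ) ∈ Finset.HasAntidiagonal.antidiagonal m :=
      Finset.HasAntidiagonal.mem_antidiagonal.2 (zero_add m)
    rw [AlgEquiv.mul_apply, g7 ε e1, ← Finset.add_sum_erase _ _ hmem]
    have h0 : PowerSeries.coeff 0 (ε (PowerSeries.C (PowerSeries.coeff m (σ (PowerSeries.C f))))) =
        PowerSeries.coeff m (σ (PowerSeries.C f)) := by
      rw [PowerSeries.coeff_zero_eq_constantCoeff_apply, e1.2, PowerSeries.constantCoeff_C]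
    dsimp only
    rw [h0, add_sub_cancel_left]
    refine R.sum_mem fun p hp => ?_
    obtain ⟨hp0, hp1⟩ := Finset.mem_erase.1 hp
    have hp' := Finset.HasAntidiagonal.mem_antidiagonal.1 hp1
    refine key f hf p (lt_of_le_of_ne (by omega) fun h2 => hp0 ?_)
    refine Prod.ext ?_ h2
    change p.1 = 0
    omega

end NRat

theorem tNRat (hG : NGrpStmt) (hE : NExpStmt) (hL : NLeadStmt) : NRatStmt := by
  intro k _ _ K _ _ _ _ A hA m hm σ hσ hp hr
  have hR : ∀ (c : k), ∀ x ∈ (algebraMap (F k) K).range, c • x ∈ (algebraMap (F k) K).range := by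
    rintro c _ ⟨f, rfl⟩
    refine ⟨c • f, ?_⟩
    rw [Algebra.smul_def, map_mul, ← IsScalarTower.algebraMap_apply, ← Algebra.smul_def]
  have hmem : ∀ x : K, x ∈ (algebraMap (F k) K).range ↔ x ∈ Set.range (algebraMap (F k) K) := fun x => Iff.rfl
  have hr' : ∀ f ∈ (algebraMap (F k) K).range, ∀ i : ℕ, i < m →
      PowerSeries.coeff i (σ (PowerSeries.C f)) ∈ (algebraMap (F k) K).range := by
    rintro _ ⟨f, rfl⟩ i hi
    exact hr f i hi
  have main : ∀ j : ℕ, j + 1 ≤ m → ∃ τ : PowerSeries K ≃ₐ[k] PowerSeries K, IsDef τ ∧ Pre (A : Set K) τ ∧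
      Cong (j + 1) τ ∧ (∀ f ∈ (algebraMap (F k) K).range, ∀ i : ℕ, i < m →
        PowerSeries.coeff i (τ (PowerSeries.C f)) ∈ (algebraMap (F k) K).range) ∧
      ∀ f ∈ (algebraMap (F k) K).range, PowerSeries.coeff m (τ (PowerSeries.C f)) -
        PowerSeries.coeff m (σ (PowerSeries.C f)) ∈ (algebraMap (F k) K).range := by
    intro j
    induction j with
    | zero =>
      intro _
      refine ⟨σ, hσ, hp, ?_, hr', ?_⟩
      · intro a i hi0 hi
        omega
      · intro f _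
        rw [sub_self]
        exact Subring.zero_mem _
    | succ j ih =>
      intro hj
      obtain ⟨τ, t1, t2, t3, t4, t5⟩ := ih (by omega)
      obtain ⟨τ', u1, u2, u3, u4, u5⟩ := NRat_step hG hE hL A (algebraMap (F k) K).range hA hR (Nat.succ_pos j)
        (by omega) t1 t2 t3 t4
      refine ⟨τ', u1, u2, u3, u4, fun f hf => ?_⟩
      have := Subring.add_mem _ (u5 f hf) (t5 f hf)
      rwa [sub_add_sub_cancel] at this
  obtain ⟨τ, t1, t2, t3, -, t5⟩ := main (m - 1) (by omega)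
  rw [Nat.sub_add_cancel hm] at t3
  obtain ⟨⟨D, hD⟩, -⟩ := hL k K m hm τ t1 t3
  refine ⟨D, ?_, ?_⟩
  · intro x hx
    rw [← hD]
    exact NRat_C t2 hx m
  · intro f
    have := Subring.neg_mem _ (t5 (algebraMap (F k) K f) ⟨f, rfl⟩)
    rw [neg_sub, hD] at this
    exact this

end Pool.Agent.Lib.MP_4318ff_ag
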