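import Pool.Agent.Lib.MP_4318ff_ag.Spec.N

/-!
# MP_4318ff_ag, N/NRes: restriction of an automorphism of `K[[X]]` to `F[[X]]`
-/

set_option autoImplicit false

namespace Pool.Agent.Lib.MP_4318ff_ag

open PowerSeries

theorem tNRes (h1 : NGrpStmt) (h2 : NExtStmt) : NResStmt := by
  intro k _ K _ _ _ _ σ hσ hP
  set φ : F k →+* K := algebraMap (F k) K with hφ
  have hinj : Function.Injective φ := φ.injective
  have hmapinj : Function.Injective (PowerSeries.map φ) := by
    intro f g hfg
    ext m
    apply hinj
    rw [← PowerSeries.coeff_map, ← PowerSeries.coeff_map, hfg]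
  -- the coefficients of `σ (C (φ f))`
  have hex : ∀ (f : F k) (m : ℕ), ∃ x : F k, φ x = PowerSeries.coeff m (σ (PowerSeries.C (φ f))) := by
    intro f m
    have h3 := hP (PowerSeries.C (φ f)) (fun m => by
      rw [PowerSeries.coeff_C]
      split_ifs
      · exact ⟨f, rfl⟩
      · exact ⟨0, map_zero _⟩) m
    exact h3
  choose c hc using hex
  set h : F k → PowerSeries (F k) := fun f => PowerSeries.mk (c f) with hh
  have hmap : ∀ f, PowerSeries.map φ (h f) = σ (PowerSeries.C (φ f)) := by
    intro f
    ext m
    rw [PowerSeries.coeff_map, hh, PowerSeries.coeff_mk, hc]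
  let H : F k →ₐ[k] PowerSeries (F k) :=
    { toFun := h
      map_one' := by
        apply hmapinj
        rw [hmap, map_one, map_one, map_one, map_one]
      map_mul' := by
        intro x y
        apply hmapinj
        rw [hmap, map_mul (PowerSeries.map φ), hmap, hmap, map_mul, map_mul, map_mul]
      map_zero' := by
        apply hmapinj
        rw [hmap, map_zero, map_zero, map_zero, map_zero]
      map_add' := by
        intro x y
        apply hmapinj
        rw [hmap, map_add (PowerSeries.map φ), hmap, hmap, map_add, map_add, map_add]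
      commutes' := by
        intro r
        apply hmapinj
        rw [hmap]
        have e1 : φ (algebraMap k (F k) r) = algebraMap k K r := by
          rw [hφ, ← IsScalarTower.algebraMap_apply]
        have e2 : PowerSeries.C (algebraMap k K r) = algebraMap k (PowerSeries K) r :=
          (PowerSeries.algebraMap_apply).symm
        rw [e1, e2, AlgEquiv.commutes]
        have e3 : algebraMap k (PowerSeries (F k)) r = PowerSeries.C (algebraMap k (F k) r) :=
          PowerSeries.algebraMap_apply
        rw [e3, PowerSeries.map_C, e1, e2] }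
  have hH : ∀ f, H f = h f := fun _ => rfl
  obtain ⟨γ, hγ, hγ2⟩ := h2 k (F k) H (by
    intro a
    apply hinj
    have h3 := congrArg PowerSeries.constantCoeff (hmap a)
    rw [hσ.2, PowerSeries.constantCoeff_C] at h3
    rw [hH, ← h3, ← PowerSeries.coeff_zero_eq_constantCoeff_apply,
      ← PowerSeries.coeff_zero_eq_constantCoeff_apply, PowerSeries.coeff_map])
  refine ⟨γ, hγ, ?_⟩
  have g7 := (h1 k K).2.2.2.2.2.2.1 σ hσ
  have g7' := (h1 k (F k)).2.2.2.2.2.2.1 γ hγ
  intro f
  ext N
  rw [PowerSeries.coeff_map, g7', g7, map_sum]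
  apply Finset.sum_congr rfl
  intro p _
  rw [hγ2, hH, ← PowerSeries.coeff_map, hmap, PowerSeries.coeff_map]

end Pool.Agent.Lib.MP_4318ff_ag
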