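import Pool.Agent.Lib.MP_4318ff_ag.Spec.N

/-!
# MP_4318ff_ag, N/NRoot: `n`-th roots of power series with coefficients in a ring
-/

set_option autoImplicit false

namespace Pool.Agent.Lib.MP_4318ff_ag

open PowerSeries

/-- the power series with coefficients in a subring form a subring -/
private theorem NRoot_sub (K : Type) [Field K] (A : Subring K) : ∃ S : Subring (PowerSeries K),
    ∀ f, f ∈ S ↔ ∀ m, coeff m f ∈ A := by
  refine ⟨⟨⟨⟨⟨{f | ∀ m, coeff m f ∈ A}, ?_⟩, ?_⟩, ?_, ?_⟩, ?_⟩, fun f => Iff.rfl⟩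
  · intro a b ha hb m
    rw [coeff_mul]
    exact A.sum_mem fun p _ => A.mul_mem (ha _) (hb _)
  · intro m
    show coeff m (1 : PowerSeries K) ∈ A
    rw [coeff_one]
    split_ifs
    · exact A.one_mem
    · exact A.zero_mem
  · intro a b ha hb m
    rw [map_add]
    exact A.add_mem (ha m) (hb m)
  · intro m
    show coeff m (0 : PowerSeries K) ∈ A
    rw [map_zero]
    exact A.zero_mem
  · intro a ha m
    rw [map_neg]
    exact A.neg_mem (ha m)

/-- the effect of adding a term `c X ^ m` -/
private theorem NRoot_step (K : Type) [Field K] (w : PowerSeries K) (hw : constantCoeff w = 1) (c : K) (m : ℕ)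
    (hm : 0 < m) (n : ℕ) : ∃ g : PowerSeries K,
      (w + C c * X ^ m) ^ n = w ^ n + C ((n : K) * c) * X ^ m + X ^ (m + 1) * g := by
  obtain ⟨h, hh⟩ : ∃ h, w = 1 + X * h := by
    have : X ∣ w - 1 := by
      rw [X_dvd_iff, map_sub, hw, map_one, sub_self]
    obtain ⟨h, hh⟩ := this
    exact ⟨h, by rw [← hh]; ring⟩
  obtain ⟨m', rfl⟩ : ∃ m', m = m' + 1 := ⟨m - 1, by omega⟩
  induction n with
  | zero => exact ⟨0, by simp⟩
  | succ n ih =>
    obtain ⟨g, hg⟩ := ih
    -- `w ^ n = 1 + X * h'`
    obtain ⟨h', hh'⟩ : ∃ h', w ^ n = 1 + X * h' := by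
      have : X ∣ w ^ n - 1 := by
        rw [X_dvd_iff, map_sub, map_pow, hw, map_one, one_pow, sub_self]
      obtain ⟨h', hh'⟩ := this
      exact ⟨h', by rw [← hh']; ring⟩
    refine ⟨C ((n : K) * c) * h + C c * h' + C ((n : K) * c) * C c * X ^ m' + g * w + g * C c * X ^ (m' + 1), ?_⟩
    rw [pow_succ, hg]
    have e1 : (C ((n : K) * c) : PowerSeries K) * X ^ (m' + 1) * w =
        C ((n : K) * c) * X ^ (m' + 1) + X ^ (m' + 1 + 1) * (C ((n : K) * c) * h) := by
      rw [hh]; ring
    have e2 : (w ^ n) * (C c * X ^ (m' + 1)) = C c * X ^ (m' + 1) + X ^ (m' + 1 + 1) * (C c * h') := by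
      rw [hh']; ring
    have e3 : (C (((n + 1 : ℕ) : K) * c) : PowerSeries K) = C ((n : K) * c) + C c := by
      rw [← map_add]
      congr 1
      push_cast
      ring
    calc (w ^ n + C ((n : K) * c) * X ^ (m' + 1) + X ^ (m' + 1 + 1) * g) * (w + C c * X ^ (m' + 1))
        = w ^ n * w + C ((n : K) * c) * X ^ (m' + 1) * w + (w ^ n) * (C c * X ^ (m' + 1))
          + X ^ (m' + 1 + 1) * (C ((n : K) * c) * C c * X ^ m' + g * w + g * C c * X ^ (m' + 1)) := by ring
      _ = _ := by rw [e1, e2, e3]; ring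

theorem tNRoot : NRootStmt := by
  intro k K _ _ _ _ n hn
  have : CharZero K := charZero_of_injective_algebraMap (algebraMap k K).injective
  have hnK : (n : K) ≠ 0 := by exact_mod_cast hn.ne'
  constructor
  · intro A hA f hf hfA
    obtain ⟨S, hS⟩ := NRoot_sub K A
    -- division by `n`
    have hdiv : ∀ x ∈ A, (n : K)⁻¹ * x ∈ A := by
      intro x hx
      have := hA (n : k)⁻¹ x hx
      rwa [Algebra.smul_def, map_inv₀, map_natCast] at this
    -- the approximations
    have step : ∀ (m : ℕ) (w : PowerSeries K), 0 < m → constantCoeff w = 1 → (∀ j, coeff j w ∈ A) →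
        (∀ j, j < m → coeff j (w ^ n) = coeff j f) →
        ∃ w' : PowerSeries K, constantCoeff w' = 1 ∧ (∀ j, coeff j w' ∈ A) ∧
          (∀ j, j < m + 1 → coeff j (w' ^ n) = coeff j f) ∧ ∀ j, j < m → coeff j w' = coeff j w := by
      intro m w hm hw hwA hwf
      let c : K := (n : K)⁻¹ * (coeff m f - coeff m (w ^ n))
      have hwS : w ∈ S := (hS w).2 hwA
      have hc : c ∈ A := hdiv _ (A.sub_mem (hfA m) ((hS _).1 (S.pow_mem hwS n) m))
      obtain ⟨g, hg⟩ := NRoot_step K w hw c m hm n
      refine ⟨w + C c * X ^ m, ?_, ?_, ?_, ?_⟩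
      · rw [map_add, hw, map_mul, map_pow, constantCoeff_X, zero_pow hm.ne', mul_zero, add_zero]
      · intro j
        rw [map_add, coeff_C_mul, coeff_X_pow]
        split_ifs
        · exact A.add_mem (hwA j) (by rw [mul_one]; exact hc)
        · exact A.add_mem (hwA j) (by rw [mul_zero]; exact A.zero_mem)
      · intro j hj
        have hg0 : coeff j (X ^ (m + 1) * g) = 0 := by
          rw [coeff_X_pow_mul', if_neg (by omega)]
        rw [hg, map_add, map_add, coeff_C_mul, coeff_X_pow, hg0, add_zero]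
        by_cases hjm : j = m
        · subst hjm
          rw [if_pos rfl, mul_one]
          show coeff j (w ^ n) + (n : K) * ((n : K)⁻¹ * (coeff j f - coeff j (w ^ n))) = _
          rw [mul_inv_cancel_left₀ hnK]
          ring
        · rw [if_neg hjm, mul_zero, add_zero]
          exact hwf j (by omega)
      · intro j hj
        rw [map_add, coeff_C_mul, coeff_X_pow, if_neg (by omega), mul_zero, add_zero]
    choose! s hs1 hs2 hs3 hs4 using step
    let W : ℕ → PowerSeries K := fun m => Nat.rec 1 (fun m w => s (m + 1) w) m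
    have hW0 : W 0 = 1 := rfl
    have hWs : ∀ m, W (m + 1) = s (m + 1) (W m) := fun m => rfl
    have hW : ∀ m, constantCoeff (W m) = 1 ∧ (∀ j, coeff j (W m) ∈ A) ∧
        ∀ j, j < m + 1 → coeff j (W m ^ n) = coeff j f := by
      intro m
      induction m with
      | zero =>
        rw [hW0]
        refine ⟨map_one _, (hS 1).1 S.one_mem, ?_⟩
        intro j hj
        have : j = 0 := by omega
        subst this
        rw [one_pow, coeff_zero_eq_constantCoeff_apply, coeff_zero_eq_constantCoeff_apply, hf, map_one]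
      | succ m ih =>
        rw [hWs]
        exact ⟨hs1 _ _ (by omega) ih.1 ih.2.1 ih.2.2, hs2 _ _ (by omega) ih.1 ih.2.1 ih.2.2,
          hs3 _ _ (by omega) ih.1 ih.2.1 ih.2.2⟩
    have hstab : ∀ m d j, j < m + 1 → coeff j (W (m + d)) = coeff j (W m) := by
      intro m d
      induction d with
      | zero => intro j _; rfl
      | succ d ih =>
        intro j hj
        rw [← ih j hj, ← add_assoc, hWs]
        exact hs4 _ _ (by omega) (hW _).1 (hW _).2.1 (hW _).2.2 j (by omega)
    let w : PowerSeries K := PowerSeries.mk fun j => coeff j (W j)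
    have hw : ∀ j, coeff j w = coeff j (W j) := fun j => coeff_mk _ _
    have hwW : ∀ m j, j < m + 1 → coeff j w = coeff j (W m) := by
      intro m j hj
      rw [hw]
      obtain ⟨d, rfl⟩ : ∃ d, m = j + d := ⟨m - j, by omega⟩
      exact (hstab j d j (by omega)).symm
    have hdvd : ∀ m, X ^ (m + 1) ∣ w - W m := by
      intro m
      rw [X_pow_dvd_iff]
      intro j hj
      rw [map_sub, hwW m j hj, sub_self]
    refine ⟨w, ?_, ?_, ?_⟩
    · rw [← coeff_zero_eq_constantCoeff_apply, hw, coeff_zero_eq_constantCoeff_apply, (hW 0).1]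
    · intro m
      rw [hw]
      exact (hW m).2.1 m
    · ext m
      have h1 : X ^ (m + 1) ∣ w ^ n - W m ^ n := (hdvd m).trans (sub_dvd_pow_sub_pow _ _ _)
      rw [X_pow_dvd_iff] at h1
      have h2 := h1 m (by omega)
      rw [map_sub, sub_eq_zero] at h2
      rw [h2, (hW m).2.2 m (by omega)]
  · intro w w' hw hw' he
    have h1 := sub_dvd_pow_sub_pow w w' n
    have h2 : (w - w') * (∑ i ∈ Finset.range n, w ^ i * w' ^ (n - 1 - i)) = 0 := by
      rw [mul_comm, Commute.geom_sum₂_mul (Commute.all w w') n, he, sub_self]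
    rcases mul_eq_zero.1 h2 with h | h
    · exact sub_eq_zero.1 h
    · exfalso
      have h3 := congrArg (constantCoeff (R := K)) h
      rw [map_sum, map_zero] at h3
      have h4 : ∀ i ∈ Finset.range n, constantCoeff (w ^ i * w' ^ (n - 1 - i)) = (1 : K) := by
        intro i _
        rw [map_mul, map_pow, map_pow, hw, hw', one_pow, one_pow, mul_one]
      rw [Finset.sum_congr rfl h4, Finset.sum_const, Finset.card_range, nsmul_eq_mul, mul_one] at h3
      exact hnK h3
end Pool.Agent.Lib.MP_4318ff_ag
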