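import Pool.Agent.Lib.MP_4318ff_ag.Spec.N

set_option autoImplicit false

namespace Pool.Agent.Lib.MP_4318ff_ag

open PowerSeries

/-- MODULE `N/NSpan`: completeness of `k[[X]]`. -/
theorem tNSpan : NSpanStmt := by
  intro k L _ _ _ ι d V y hV x hx
  have hV2 : ∀ x : V, ∃ (l : Fin d → k) (x' : V), ∀ u, x.1 u =
      ∑ a, PowerSeries.C (algebraMap k L (l a)) * y a u + PowerSeries.X * x'.1 u := by
    rintro ⟨x, hx⟩
    obtain ⟨l, x', hx', h⟩ := hV x hx
    exact ⟨l, ⟨x', hx'⟩, h⟩
  choose l nx hnx using hV2
  set c : V → Fin d → PowerSeries k := fun x a => PowerSeries.mk (fun n => l (nx^[n] x) a) with hc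
  have hcr : ∀ x a, c x a = PowerSeries.C (l x a) + PowerSeries.X * c (nx x) a := by
    intro x a
    ext n
    cases n with
    | zero => simp [hc]
    | succ n =>
      rw [map_add, PowerSeries.coeff_succ_X_mul, PowerSeries.coeff_C, if_neg (Nat.succ_ne_zero n), zero_add]
      simp only [hc, PowerSeries.coeff_mk, Function.iterate_succ_apply]
  have hD : ∀ (m : ℕ) (x : V) (u : ι), (PowerSeries.X : PowerSeries L) ^ m ∣
      x.1 u - ∑ a, PowerSeries.map (algebraMap k L) (c x a) * y a u := by
    intro m
    induction m with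
    | zero => intro x u; simp
    | succ m ih =>
      intro x u
      have h1 : x.1 u - ∑ a, PowerSeries.map (algebraMap k L) (c x a) * y a u =
          PowerSeries.X * ((nx x).1 u - ∑ a, PowerSeries.map (algebraMap k L) (c (nx x) a) * y a u) := by
        have h2 : ∑ a, PowerSeries.map (algebraMap k L) (c x a) * y a u =
            ∑ a, PowerSeries.C (algebraMap k L (l x a)) * y a u +
              PowerSeries.X * ∑ a, PowerSeries.map (algebraMap k L) (c (nx x) a) * y a u := by
          rw [Finset.mul_sum, ← Finset.sum_add_distrib]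
          refine Finset.sum_congr rfl fun a _ => ?_
          rw [hcr x a, map_add, map_mul, PowerSeries.map_C, PowerSeries.map_X]
          ring
        rw [h2, hnx x u]
        ring
      rw [h1, pow_succ']
      exact mul_dvd_mul_left _ (ih (nx x) u)
  refine ⟨c ⟨x, hx⟩, fun u => ?_⟩
  rw [← sub_eq_zero]
  ext m
  have h := hD (m + 1) ⟨x, hx⟩ u
  rw [PowerSeries.X_pow_dvd_iff] at h
  rw [map_zero]
  exact h m (Nat.lt_succ_self m)

end Pool.Agent.Lib.MP_4318ff_ag
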