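import Pool.Agent.Lib.MP_4318ff_ag.Spec.N

/-!
# MP_4318ff_ag, part N, module NStep: one step of the equivariance
-/

set_option autoImplicit false

namespace Pool.Agent.Lib.MP_4318ff_ag

section NStep

variable {k : Type} [Field k] {K : Type} [Field K] [Algebra (F k) K] [Algebra k K] [IsScalarTower k (F k) K]

private theorem NStep_const {r : ℕ} {C : Config k r} (u : Chart C) (c : k) : algebraMap k K c ∈ u.A K := by
  have h1 : algebraMap k K c = algebraMap u.R K (algebraMap k u.R c) := by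
    rw [IsScalarTower.algebraMap_apply k (F k) K]
    rfl
  rw [h1]
  exact Subalgebra.algebraMap_mem (integralClosure u.R K) _

private theorem NStep_smul {r : ℕ} {C : Config k r} (u : Chart C) (c : k) (x : K) (hx : x ∈ u.A K) :
    c • x ∈ u.A K := by
  rw [Algebra.smul_def]
  exact (u.A K).mul_mem (NStep_const u c) hx

private theorem NStep_smul2 {r : ℕ} {C : Config k r} (u v : Chart C) (c : k) (x : K) (hx : x ∈ u.A K ⊔ v.A K) :
    c • x ∈ u.A K ⊔ v.A K := by
  rw [Algebra.smul_def]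
  exact Subring.mul_mem _ ((le_sup_left : u.A K ≤ u.A K ⊔ v.A K) (NStep_const u c)) hx

omit [IsScalarTower k (F k) K] in
private theorem NStep_coc (hG : NGrpStmt) {m : ℕ} (hm : 0 < m) {σ τ : PowerSeries K ≃ₐ[k] PowerSeries K} (hσ : IsDef σ)
    (hτ : IsDef τ) (rσ : RatBelow m σ) (rτ : RatBelow m τ) (f : F k) :
    PowerSeries.coeff m ((σ * τ) (PowerSeries.C (algebraMap (F k) K f))) -
      PowerSeries.coeff m (σ (PowerSeries.C (algebraMap (F k) K f))) -
      PowerSeries.coeff m (τ (PowerSeries.C (algebraMap (F k) K f))) ∈ (algebraMap (F k) K).range := by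
  obtain ⟨-, -, -, -, -, -, g7, -⟩ := hG k K
  have hm1 : ((0, m) : ℕ × ℕ) ∈ Finset.HasAntidiagonal.antidiagonal m :=
    Finset.HasAntidiagonal.mem_antidiagonal.2 (zero_add m)
  have hm2 : ((m, 0) : ℕ × ℕ) ∈ (Finset.HasAntidiagonal.antidiagonal m).erase (0, m) := by
    refine Finset.mem_erase.2 ⟨fun h0 => ?_, Finset.HasAntidiagonal.mem_antidiagonal.2 (add_zero m)⟩
    exact hm.ne' (congrArg Prod.fst h0)
  rw [AlgEquiv.mul_apply, g7 σ hσ, ← Finset.add_sum_erase _ _ hm1, ← Finset.add_sum_erase _ _ hm2]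
  dsimp only
  have e1 : PowerSeries.coeff 0 (σ (PowerSeries.C (PowerSeries.coeff m (τ (PowerSeries.C (algebraMap (F k) K f)))))) =
      PowerSeries.coeff m (τ (PowerSeries.C (algebraMap (F k) K f))) := by
    rw [PowerSeries.coeff_zero_eq_constantCoeff_apply, hσ.2, PowerSeries.constantCoeff_C]
  have e2 : PowerSeries.coeff 0 (τ (PowerSeries.C (algebraMap (F k) K f))) = algebraMap (F k) K f := by
    rw [PowerSeries.coeff_zero_eq_constantCoeff_apply, hτ.2, PowerSeries.constantCoeff_C]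
  rw [e1, e2]
  have e3 : ∀ a b c : K, a + (b + c) - b - a = c := by
    intro a b c
    ring
  rw [e3]
  refine Subring.sum_mem _ fun p hp => ?_
  obtain ⟨hp0, hp1⟩ := Finset.mem_erase.1 hp
  obtain ⟨hp2, hp3⟩ := Finset.mem_erase.1 hp1
  have hp' := Finset.HasAntidiagonal.mem_antidiagonal.1 hp3
  have q1 : p.1 ≠ 0 := by
    intro h1
    refine hp2 (Prod.ext h1 ?_)
    change p.2 = m
    omega
  have q2 : p.2 ≠ 0 := by
    intro h1
    refine hp0 (Prod.ext ?_ h1)
    change p.1 = m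
    omega
  obtain ⟨h, hh⟩ := rτ f p.2 (by omega)
  rw [← hh]
  exact rσ h p.1 (by omega)

end NStep

theorem tNStep (hG : NGrpStmt) (hE : NExpStmt) (hL : NLeadStmt) (hRat : NRatStmt) (_ : NLocStmt) : NStepStmt := by
  intro k _ _ _ r n C hAdd K _ _ _ _ hK g hg m hm hr
  have hD0 : ∀ u v : Chart C, ∃ D : Derivation k K K, (∀ x ∈ u.A K ⊔ v.A K, D x ∈ u.A K ⊔ v.A K) ∧ ∀ f : F k,
      PowerSeries.coeff m (g u v (PowerSeries.C (algebraMap (F k) K f))) - D (algebraMap (F k) K f) ∈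
        Set.range (algebraMap (F k) K) := fun u v =>
    hRat k K (u.A K ⊔ v.A K) (fun c x hx => NStep_smul2 u v c x hx) m hm (g u v) (hg.isDef u v) (hg.pre u v) (hr u v)
  choose D hD1 hD2 using hD0
  have hD2' : ∀ u v (f : F k), PowerSeries.coeff m (g u v (PowerSeries.C (algebraMap (F k) K f))) -
      D u v (algebraMap (F k) K f) ∈ (algebraMap (F k) K).range := hD2
  obtain ⟨E, hE1, hE2⟩ := hAdd K hK D hD1 (by
    intro u v w f
    have h1 := NStep_coc hG hm (hg.isDef u v) (hg.isDef v w) (hr u v) (hr v w) f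
    rw [hg.coc] at h1
    have h2 := Subring.sub_mem _ (Subring.sub_mem _ (Subring.add_mem _ h1 (hD2' u v f)) (Subring.neg_mem _ (hD2' v w f)))
      (hD2' u w f)
    have h3 : ∀ a b c x y z : K, a - b - c + (b - x) - -(c - y) - (a - z) = -(x + y - z) := by
      intro a b c x y z
      ring
    rw [h3] at h2
    have h4 := Subring.neg_mem _ h2
    rw [neg_neg] at h4
    obtain ⟨f', hf'⟩ := h4
    exact ⟨f', hf'.symm⟩)
  have hτ0 : ∀ u : Chart C, ∃ σ : PowerSeries K ≃ₐ[k] PowerSeries K, IsDef σ ∧ Cong m σ ∧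
      (∀ a : K, PowerSeries.coeff m (σ (PowerSeries.C a)) = E u a) ∧ Pre (u.A K : Set K) σ := by
    intro u
    obtain ⟨σ, s1, -, s3, s4, s5⟩ := hE k K (E u) m hm
    exact ⟨σ, s1, s3, s4, s5 (u.A K) (fun c x hx => NStep_smul u c x hx) (hE1 u)⟩
  choose τ t1 t2 t3 t4 using hτ0
  refine ⟨τ, fun u => ⟨t1 u, t4 u, t2 u⟩, ?_⟩
  intro u v f j hj
  obtain ⟨g1, g2, -⟩ := hG k K
  obtain ⟨-, -, -, l4, l5, -, -⟩ := hL k K m hm (τ u) (t1 u) (t2 u)
  obtain ⟨-, v2, v3, -, -, -, -⟩ := hL k K m hm (τ v) (t1 v) (t2 v)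
  obtain ⟨-, -, -, -, -, w6, w7⟩ := hL k K m hm (τ v)⁻¹ (g2 _ (t1 v)) v2
  rw [mul_assoc, AlgEquiv.mul_apply]
  rcases Nat.lt_succ_iff_lt_or_eq.1 hj with h1 | rfl
  · rw [l4 _ j h1, AlgEquiv.mul_apply, w7 (g u v) (hg.isDef u v) _ j h1]
    exact hr u v f j h1
  · rw [l5 (g u v * (τ v)⁻¹) (g1 _ _ (hg.isDef u v) (g2 _ (t1 v))), AlgEquiv.mul_apply, w6 (g u v) (hg.isDef u v), v3,
      t3, t3]
    obtain ⟨f', hf'⟩ := hE2 u v f
    have h2 := Subring.add_mem _ (hD2' u v f) (show (D u v - (E v - E u)) (algebraMap (F k) K f) ∈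
      (algebraMap (F k) K).range from ⟨f', hf'.symm⟩)
    rw [Derivation.sub_apply, Derivation.sub_apply] at h2
    have h3 : ∀ a d x y : K, a - d + (d - (x - y)) = a + -x + y := by
      intro a d x y
      ring
    rw [h3] at h2
    exact h2

end Pool.Agent.Lib.MP_4318ff_ag
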