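import Pool.Agent.Lib.MP_4318ff_ag.Spec.N

/-!
# MP_4318ff_ag, module N/NThA: the automorphism with given images of the coordinates
-/

set_option autoImplicit false

namespace Pool.Agent.Lib.MP_4318ff_ag

open PowerSeries

private lemma NThA_cc {k : Type} [Field k] (η : Fin 3 → PowerSeries (F k)) (b : F k) (hb : b ≠ 0)
    (hη : ∀ a, constantCoeff (η a) = gen k a / b) (a : Fin 3) :
    constantCoeff (η a * (η 0)⁻¹) = gen k a := by
  have h0 : gen k 0 = 1 := rfl
  rw [map_mul, hη, PowerSeries.constantCoeff_inv, hη, h0]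
  field_simp

/-- The automorphism with given images of the coordinates. -/
theorem tNThA (h1 : EvStmt) (h2 : NExtStmt) : NThAStmt := by
  intro k _ e he η hη
  have hb : ev e ≠ 0 := fun h => he (((h1 k).2.2 e).1 h)
  have h0 : gen k 0 = 1 := rfl
  have hη0 : constantCoeff (η 0) ≠ 0 := by
    rw [hη, h0]
    exact one_div_ne_zero hb
  obtain ⟨φ, hφ⟩ : ∃ φ : MvPolynomial (Fin 2) k →ₐ[k] PowerSeries (F k),
    φ = MvPolynomial.aeval ![η 1 * (η 0)⁻¹, η 2 * (η 0)⁻¹] := ⟨_, rfl⟩
  have hφ0 : φ (MvPolynomial.X 0) = η 1 * (η 0)⁻¹ := by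
    rw [hφ, MvPolynomial.aeval_X]
    rfl
  have hφ1 : φ (MvPolynomial.X 1) = η 2 * (η 0)⁻¹ := by
    rw [hφ, MvPolynomial.aeval_X]
    rfl
  have hcc : ((constantCoeff (R := F k)).comp φ.toRingHom) =
      algebraMap (MvPolynomial (Fin 2) k) (F k) := by
    refine MvPolynomial.ringHom_ext (fun c => ?_) fun i => ?_
    · have e1 : φ (MvPolynomial.C c) = PowerSeries.C (algebraMap k (F k) c) := by
        rw [← MvPolynomial.algebraMap_eq, AlgHom.commutes]
        exact PowerSeries.algebraMap_apply
      change constantCoeff (φ (MvPolynomial.C c)) = _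
      rw [e1, ← MvPolynomial.algebraMap_eq, ← IsScalarTower.algebraMap_apply]
      exact PowerSeries.constantCoeff_C _
    · change constantCoeff (φ (MvPolynomial.X i)) = _
      fin_cases i
      · change constantCoeff (φ (MvPolynomial.X 0)) = _
        rw [hφ0, NThA_cc η (ev e) hb hη 1]
        rfl
      · change constantCoeff (φ (MvPolynomial.X 1)) = _
        rw [hφ1, NThA_cc η (ev e) hb hη 2]
        rfl
  have hunit : ∀ y : nonZeroDivisors (MvPolynomial (Fin 2) k), IsUnit (φ y) := by
    intro y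
    rw [PowerSeries.isUnit_iff_constantCoeff, isUnit_iff_ne_zero]
    have e1 : constantCoeff (φ y) = algebraMap (MvPolynomial (Fin 2) k) (F k) y :=
      RingHom.congr_fun hcc y
    rw [e1]
    exact IsLocalization.to_map_ne_zero_of_mem_nonZeroDivisors _ le_rfl y.2
  obtain ⟨h, hh⟩ : ∃ h : F k →ₐ[k] PowerSeries (F k), h = IsLocalization.liftAlgHom
    (M := nonZeroDivisors (MvPolynomial (Fin 2) k)) (f := φ) hunit := ⟨_, rfl⟩
  have hlift : ∀ p : MvPolynomial (Fin 2) k, h (algebraMap _ (F k) p) = φ p := by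
    intro p
    rw [hh, IsLocalization.liftAlgHom_apply]
    exact IsLocalization.lift_eq _ p
  have hcch : ∀ a, constantCoeff (h a) = a := by
    have e1 : (constantCoeff (R := F k)).comp h.toRingHom = RingHom.id (F k) := by
      refine IsLocalization.ringHom_ext (nonZeroDivisors (MvPolynomial (Fin 2) k)) ?_
      rw [RingHom.id_comp]
      refine RingHom.ext fun p => ?_
      change constantCoeff (h (algebraMap _ (F k) p)) = algebraMap _ (F k) p
      rw [hlift]
      exact RingHom.congr_fun hcc p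
    intro a
    exact RingHom.congr_fun e1 a
  obtain ⟨θ, hθ, hθC⟩ := h2 k (F k) h hcch
  refine ⟨θ, hθ, fun c => ?_⟩
  have hgen : ∀ a, h (gen k a) * η 0 = η a := by
    intro a
    fin_cases a
    · change h (gen k 0) * η 0 = η 0
      rw [h0, map_one, one_mul]
    · change h (algebraMap _ (F k) (MvPolynomial.X 0)) * η 0 = η 1
      rw [hlift, hφ0, mul_assoc, PowerSeries.inv_mul_cancel _ hη0, mul_one]
    · change h (algebraMap _ (F k) (MvPolynomial.X 1)) * η 0 = η 2
      rw [hlift, hφ1, mul_assoc, PowerSeries.inv_mul_cancel _ hη0, mul_one]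
  rw [hθC]
  unfold ev
  rw [map_sum, Finset.sum_mul]
  refine Finset.sum_congr rfl fun a _ => ?_
  rw [map_mul, AlgHom.commutes, mul_assoc, hgen, PowerSeries.algebraMap_apply]

end Pool.Agent.Lib.MP_4318ff_ag
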