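import Pool.Agent.Lib.MP_4318ff_ag.Spec.N

set_option autoImplicit false

namespace Pool.Agent.Lib.MP_4318ff_ag

open scoped LinearAlgebra.Projectivization

private lemma NThB_coeff_mul {K : Type} [Field K] (A : Subring K) (f g : PowerSeries K)
    (hf : ∀ m, PowerSeries.coeff m f ∈ A) (hg : ∀ m, PowerSeries.coeff m g ∈ A) (m : ℕ) :
    PowerSeries.coeff m (f * g) ∈ A := by
  rw [PowerSeries.coeff_mul]
  exact Subring.sum_mem _ fun p _ => A.mul_mem (hf _) (hg _)

private lemma NThB_coeff_C {K : Type} [Field K] (A : Subring K) (a : K) (ha : a ∈ A) (m : ℕ) :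
    PowerSeries.coeff m (PowerSeries.C a) ∈ A := by
  rw [PowerSeries.coeff_C]
  split_ifs
  · exact ha
  · exact A.zero_mem

/-- `c · η` -/
private noncomputable def NThB_D {k : Type} [Field k] (η : Fin 3 → PowerSeries (F k)) (c : Fin 3 → k) :
    PowerSeries (F k) := ∑ a, PowerSeries.C (algebraMap k (F k) (c a)) * η a

private lemma NThB_D_add {k : Type} [Field k] (η : Fin 3 → PowerSeries (F k)) (c d : Fin 3 → k) :
    NThB_D η (c + d) = NThB_D η c + NThB_D η d := by
  simp only [NThB_D, Pi.add_apply, map_add, add_mul, Finset.sum_add_distrib]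

private lemma NThB_D_smul {k : Type} [Field k] (η : Fin 3 → PowerSeries (F k)) (x : k) (c : Fin 3 → k) :
    NThB_D η (x • c) = PowerSeries.C (algebraMap k (F k) x) * NThB_D η c := by
  simp only [NThB_D, Pi.smul_apply, smul_eq_mul, map_mul, mul_assoc, Finset.mul_sum]

private lemma NThB_D_zero {k : Type} [Field k] (η : Fin 3 → PowerSeries (F k)) :
    NThB_D η 0 = 0 := by
  simp [NThB_D]

private lemma NThB_D_cc {k : Type} [Field k] (η : Fin 3 → PowerSeries (F k)) (e : Fin 3 → k)
    (hη : ∀ a, PowerSeries.constantCoeff (η a) = gen k a / ev e) (c : Fin 3 → k) :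
    PowerSeries.constantCoeff (NThB_D η c) = ev c / ev e := by
  simp only [NThB_D, map_sum, map_mul, PowerSeries.constantCoeff_C, hη, ev, Finset.sum_div]
  exact Finset.sum_congr rfl fun a _ => by rw [mul_div_assoc]

private lemma NThB_ne {k : Type} [Field k] {r : ℕ} (C : Config k r) (hr : 2 ≤ r) (i : Fin r) : C.ℓ i ≠ 0 := by
  intro h0
  obtain ⟨j, hj⟩ : ∃ j : Fin r, i ≠ j := by
    by_contra hcon
    push Not at hcon
    have e1 := hcon ⟨0, by omega⟩
    have e2 := hcon ⟨1, by omega⟩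
    rw [e1] at e2
    exact absurd (Fin.mk.inj_iff.1 e2) (by omega)
  have := (C.indep i j hj).ne_zero 0
  apply this
  simpa using h0

theorem tNThB (h1 : EvStmt) (h2 : PntStmt) (h3 : BasStmt) (h4 : NGrpStmt) (h5 : NUnitStmt) (h6 : NThAStmt) :
    NThBStmt := by
  intro k _ r C hr γ hγ i₀ η hη1 hη2 hη3
  obtain ⟨evadd, evsmul, ev0⟩ := h1 k
  obtain ⟨g1, g2, g3, g4, g5, g6, g7, g8⟩ := h4 k (F k)
  have lne : ∀ i, C.ℓ i ≠ 0 := NThB_ne C hr
  have evne : ∀ c : Fin 3 → k, c ≠ 0 → ev c ≠ 0 := fun c hc h => hc ((ev0 c).1 h)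
  set e := C.ℓ i₀ with he
  have hee : ev e ≠ 0 := evne e (lne i₀)
  have hex : ∀ u : Chart C, ∃ θ : PowerSeries (F k) ≃ₐ[k] PowerSeries (F k), IsDef θ ∧ ∀ c : Fin 3 → k,
      θ (PowerSeries.C (ev c)) * η u 0 = NThB_D (η u) c := fun u => h6 k e (lne i₀) (η u) (hη2 u)
  choose θ hθ1 hθ2 using hex
  have hη0 : ∀ u, η u 0 ≠ 0 := by
    intro u h
    have := hη2 u 0
    rw [h, map_zero] at this
    have hg : gen k 0 = 1 := rfl
    rw [hg] at this
    exact (one_div_ne_zero hee) this.symm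
  -- quotients
  have quot : ∀ (u : Chart C) (c d : Fin 3 → k), d ≠ 0 →
      θ u (PowerSeries.C (ev c / ev d)) * NThB_D (η u) d = NThB_D (η u) c := by
    intro u c d hd
    rw [← hθ2, ← hθ2, ← mul_assoc, ← map_mul, ← map_mul PowerSeries.C, div_mul_cancel₀ _ (evne d hd)]
  -- key
  have key : ∀ (u : Chart C) (c d : Fin 3 → k), d ≠ 0 →
      (∀ m, PowerSeries.coeff m (PowerSeries.C (ev e / ev d) * NThB_D (η u) c) ∈ u.R.toSubring) →
      (∀ m, PowerSeries.coeff m (PowerSeries.C (ev e / ev d) * NThB_D (η u) d) ∈ u.R.toSubring) →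
      ∀ m, PowerSeries.coeff m (θ u (PowerSeries.C (ev c / ev d))) ∈ u.R.toSubring := by
    intro u c d hd hc hd'
    have hcc : PowerSeries.constantCoeff (PowerSeries.C (ev e / ev d) * NThB_D (η u) d) = 1 := by
      rw [map_mul, PowerSeries.constantCoeff_C, NThB_D_cc (η u) e (hη2 u)]
      have := evne d hd
      field_simp
    refine h5 (F k) u.R.toSubring (PowerSeries.C (ev e / ev d) * NThB_D (η u) c) _
      (PowerSeries.C (ev e / ev d) * NThB_D (η u) d) ?_ ?_ hd' hc ?_
    · rw [hcc, inv_one]; exact u.R.toSubring.one_mem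
    · rw [hcc]; exact one_ne_zero
    · rw [mul_left_comm, quot u c d hd]
  have base : ∀ (u : Chart C) (i : Fin r) (m : ℕ),
      PowerSeries.coeff m (PowerSeries.C (ev e / ev (C.ℓ i)) * NThB_D (η u) (C.ℓ i)) ∈ u.R.toSubring := by
    intro u i m
    rw [PowerSeries.coeff_C_mul, mul_comm]
    exact hη3 u i m
  -- multiples
  have mult : ∀ (u : Chart C) (d : Fin 3 → k) (i : Fin r), ev (C.ℓ i) / ev d ∈ u.R → ∀ (m : ℕ),
      PowerSeries.coeff m (PowerSeries.C (ev e / ev d) * NThB_D (η u) (C.ℓ i)) ∈ u.R.toSubring := by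
    intro u d i hi m
    have e1 : PowerSeries.C (ev e / ev d) * NThB_D (η u) (C.ℓ i) =
        PowerSeries.C (ev (C.ℓ i) / ev d) * (PowerSeries.C (ev e / ev (C.ℓ i)) * NThB_D (η u) (C.ℓ i)) := by
      rw [← mul_assoc, ← map_mul]
      congr 2
      have := evne _ (lne i)
      field_simp
    rw [e1]
    exact NThB_coeff_mul _ _ _ (NThB_coeff_C _ _ hi) (base u i) m
  have comb : ∀ (u : Chart C) (d c : Fin 3 → k) (x : k),
      (∀ m, PowerSeries.coeff m (PowerSeries.C (ev e / ev d) * NThB_D (η u) c) ∈ u.R.toSubring) →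
      ∀ m, PowerSeries.coeff m (PowerSeries.C (ev e / ev d) * NThB_D (η u) (x • c)) ∈ u.R.toSubring := by
    intro u d c x hc m
    rw [NThB_D_smul, mul_left_comm, PowerSeries.coeff_C_mul]
    exact u.R.toSubring.mul_mem (u.R.algebraMap_mem x) (hc m)
  have comb2 : ∀ (u : Chart C) (d c c' : Fin 3 → k),
      (∀ m, PowerSeries.coeff m (PowerSeries.C (ev e / ev d) * NThB_D (η u) c) ∈ u.R.toSubring) →
      (∀ m, PowerSeries.coeff m (PowerSeries.C (ev e / ev d) * NThB_D (η u) c') ∈ u.R.toSubring) →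
      ∀ m, PowerSeries.coeff m (PowerSeries.C (ev e / ev d) * NThB_D (η u) (c + c')) ∈ u.R.toSubring := by
    intro u d c c' hc hc' m
    rw [NThB_D_add, mul_add, map_add]
    exact u.R.toSubring.add_mem (hc m) (hc' m)
  have hb : ∀ (u : Chart C) (c : Fin 3 → k) (m : ℕ),
      PowerSeries.coeff m (PowerSeries.C (ev e / ev u.b) * NThB_D (η u) c) ∈ u.R.toSubring := by
    intro u c
    have hc : c ∈ Submodule.span k (Set.range C.ℓ) := by rw [C.span]; trivial
    induction hc using Submodule.span_induction with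
    | mem x hx =>
      obtain ⟨i, rfl⟩ := hx
      exact mult u u.b i (Algebra.subset_adjoin (Or.inl ⟨C.ℓ i, rfl⟩))
    | zero => intro m; rw [NThB_D_zero, mul_zero, map_zero]; exact u.R.toSubring.zero_mem
    | add x y _ _ hx hy => exact comb2 u u.b x y hx hy
    | smul a x _ hx => exact comb u u.b x a hx
  have ha : ∀ (u : Chart C) (P : Pt k), P ∈ C.M → ∀ (c : Fin 3 → k), c ⬝ᵥ P.rep = 0 → ∀ (m : ℕ),
      PowerSeries.coeff m (PowerSeries.C (ev e / ev (u.a P)) * NThB_D (η u) c) ∈ u.R.toSubring := by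
    intro u P hP c hc
    obtain ⟨i, hi, j, hj, _, _, hij, _, _⟩ := (h3 k r C).2.2.1 P hP
    obtain ⟨x, y, rfl⟩ := (h2 k).2.1 P (C.ℓ i) (C.ℓ j) c (C.indep i j hij) hi hj hc
    have hgen : ∀ i' ∈ C.through P, ev (C.ℓ i') / ev (u.a P) ∈ u.R := fun i' hi' =>
      Algebra.subset_adjoin (Or.inr ⟨P, hP, C.ℓ i', hi', rfl⟩)
    exact comb2 u (u.a P) _ _ (comb u (u.a P) _ x (mult u (u.a P) i (hgen i hi)))
      (comb u (u.a P) _ y (mult u (u.a P) j (hgen j hj)))
  refine ⟨θ, ?_, ?_⟩
  · intro u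
    refine ⟨hθ1 u, ?_, ?_⟩
    · refine g8 u.R.toSubring (θ u) (hθ1 u) ?_
      intro f hf
      have hf' : f ∈ Algebra.adjoin k ({z | ∃ c : Fin 3 → k, z = ev c / ev u.b} ∪
        {z | ∃ P ∈ C.M, ∃ c : Fin 3 → k, c ⬝ᵥ P.rep = 0 ∧ z = ev c / ev (u.a P)}) := hf
      induction hf' using Algebra.adjoin_induction with
      | mem x hx =>
        rcases hx with ⟨c, rfl⟩ | ⟨P, hP, c, hc, rfl⟩
        · exact key u c u.b u.b_ne (hb u c) (hb u u.b)
        · exact key u c (u.a P) (u.a_ne P hP) (ha u P hP c hc) (ha u P hP _ (u.a_through P hP))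
      | algebraMap x =>
        intro m
        have e2 : PowerSeries.C (algebraMap k (F k) x) = algebraMap k (PowerSeries (F k)) x := PowerSeries.algebraMap_apply.symm
        rw [e2, AlgEquiv.commutes, ← e2]
        exact NThB_coeff_C _ _ (u.R.algebraMap_mem x) m
      | add x y hx hy ihx ihy =>
        intro m
        rw [map_add, map_add, map_add]
        exact u.R.toSubring.add_mem (ihx hx m) (ihy hy m)
      | mul x y hx hy ihx ihy =>
        intro m
        rw [map_mul, map_mul]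
        exact NThB_coeff_mul _ _ _ (ihx hx) (ihy hy) m
    · intro i j m
      have e3 : PowerSeries.coeff m (θ u (PowerSeries.C (ev (C.ℓ i) / ev (C.ℓ j)))) * (ev (C.ℓ j) / ev (C.ℓ i)) =
          PowerSeries.coeff m (PowerSeries.C (ev (C.ℓ j) / ev (C.ℓ i)) *
            θ u (PowerSeries.C (ev (C.ℓ i) / ev (C.ℓ j)))) := by
        rw [PowerSeries.coeff_C_mul, mul_comm]
      rw [e3]
      have hcc : PowerSeries.constantCoeff (PowerSeries.C (ev e / ev (C.ℓ j)) * NThB_D (η u) (C.ℓ j)) = 1 := by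
        rw [map_mul, PowerSeries.constantCoeff_C, NThB_D_cc (η u) e (hη2 u)]
        have := evne _ (lne j)
        field_simp
      refine h5 (F k) u.R.toSubring (PowerSeries.C (ev e / ev (C.ℓ i)) * NThB_D (η u) (C.ℓ i)) _
        (PowerSeries.C (ev e / ev (C.ℓ j)) * NThB_D (η u) (C.ℓ j)) ?_ ?_ (base u j) (base u i) ?_ m
      · rw [hcc, inv_one]; exact u.R.toSubring.one_mem
      · rw [hcc]; exact one_ne_zero
      · have hq := quot u (C.ℓ i) (C.ℓ j) (lne j)
        have e4 : ev (C.ℓ j) / ev (C.ℓ i) * (ev e / ev (C.ℓ j)) = ev e / ev (C.ℓ i) := by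
          have := evne _ (lne j)
          have := evne _ (lne i)
          field_simp
        calc PowerSeries.C (ev (C.ℓ j) / ev (C.ℓ i)) * θ u (PowerSeries.C (ev (C.ℓ i) / ev (C.ℓ j))) *
              (PowerSeries.C (ev e / ev (C.ℓ j)) * NThB_D (η u) (C.ℓ j))
            = (PowerSeries.C (ev (C.ℓ j) / ev (C.ℓ i)) * PowerSeries.C (ev e / ev (C.ℓ j))) *
              (θ u (PowerSeries.C (ev (C.ℓ i) / ev (C.ℓ j))) * NThB_D (η u) (C.ℓ j)) := by ring
          _ = _ := by rw [hq, ← map_mul, e4]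
  · intro u v
    refine g6 _ _ (g1 _ _ (hγ.isDef u v) (hθ1 v)) (hθ1 u) ?_
    have hgen : ∀ a : Fin 3, ev (Pi.single a 1 : Fin 3 → k) = gen k a := by
      intro a
      simp only [ev]
      rw [Finset.sum_eq_single a]
      · rw [Pi.single_eq_same, map_one, one_mul]
      · intro b _ hb
        rw [Pi.single_eq_of_ne hb, map_zero, zero_mul]
      · intro h; exact absurd (Finset.mem_univ a) h
    have hD : ∀ (w : Chart C) (a : Fin 3), NThB_D (η w) (Pi.single a 1) = η w a := by
      intro w a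
      simp only [NThB_D]
      rw [Finset.sum_eq_single a]
      · rw [Pi.single_eq_same, map_one, map_one, one_mul]
      · intro b _ hb
        rw [Pi.single_eq_of_ne hb, map_zero, map_zero, zero_mul]
      · intro h; exact absurd (Finset.mem_univ a) h
    have hag : ∀ a : Fin 3, γ u v (θ v (PowerSeries.C (gen k a))) = θ u (PowerSeries.C (gen k a)) := by
      intro a
      apply mul_right_cancel₀ (hη0 u)
      have e5 := hθ2 u (Pi.single a 1)
      have e6 := hθ2 v (Pi.single a 1)
      rw [hgen, hD] at e5 e6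
      rw [e5, ← hη1 u v 0, ← map_mul, e6, hη1]
    have hring : ((γ u v).toRingEquiv.toRingHom.comp ((θ v).toRingEquiv.toRingHom.comp (PowerSeries.C (R := F k)))) =
        ((θ u).toRingEquiv.toRingHom.comp (PowerSeries.C (R := F k))) := by
      apply IsLocalization.ringHom_ext (nonZeroDivisors (MvPolynomial (Fin 2) k))
      apply MvPolynomial.ringHom_ext
      · intro t
        have e7 : algebraMap (MvPolynomial (Fin 2) k) (F k) (MvPolynomial.C t) = algebraMap k (F k) t := by
          rw [IsScalarTower.algebraMap_apply k (MvPolynomial (Fin 2) k) (F k)]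
          rfl
        have e2 : PowerSeries.C (algebraMap k (F k) t) = algebraMap k (PowerSeries (F k)) t := PowerSeries.algebraMap_apply.symm
        change γ u v (θ v (PowerSeries.C (algebraMap (MvPolynomial (Fin 2) k) (F k) (MvPolynomial.C t)))) =
          θ u (PowerSeries.C (algebraMap (MvPolynomial (Fin 2) k) (F k) (MvPolynomial.C t)))
        rw [e7, e2, AlgEquiv.commutes, AlgEquiv.commutes, AlgEquiv.commutes]
      · intro i
        change γ u v (θ v (PowerSeries.C (algebraMap (MvPolynomial (Fin 2) k) (F k) (MvPolynomial.X i)))) =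
          θ u (PowerSeries.C (algebraMap (MvPolynomial (Fin 2) k) (F k) (MvPolynomial.X i)))
        fin_cases i
        · exact hag 1
        · exact hag 2
    intro a
    exact congrArg (fun f : F k →+* PowerSeries (F k) => f a) hring

end Pool.Agent.Lib.MP_4318ff_ag
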