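import Pool.Agent.Lib.MP_4318ff_ag.Spec.N

set_option autoImplicit false

namespace Pool.Agent.Lib.MP_4318ff_ag

/-- Module N/NToLog: the log property on the charts. -/
theorem tNToLog (h1 : NGrpStmt) (h2 : NResStmt) (h3 : NLogOStmt) (h4 : HartUVStmt) : NToLogStmt := by
  intro k _ _ r n C K _ _ _ _ hn hR g hg hpre
  choose γ hγdef hγ using fun u v => h2 k K (g u v) (hg.isDef u v) (hpre u v)
  obtain ⟨g1, -, -, -, -, g6, -, g8⟩ := h1 k (F k)
  refine ⟨γ, ⟨hγdef, ?_, ?_, ?_⟩, hγ⟩
  · intro u v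
    have key := g8 (u.R ⊔ v.R : Subalgebra k (F k)).toSubring (γ u v) (hγdef u v) ?_
    · exact key
    · intro a ha m
      have ha' : a ∈ u.R ⊔ v.R := ha
      have : PowerSeries.coeff m (γ u v (PowerSeries.C a)) ∈ u.R ⊔ v.R := by
        refine h4 k r C u v _ ?_
        intro O hO hu hv
        exact (h3 k r n C K hn hR u v (g u v) (γ u v) (hg.isDef u v) (hγdef u v) (hg.pre u v) (hγ u v) O hO hu hv).1 a
          ((sup_le hu hv) ha') m
      exact this
  · intro u v w
    refine g6 _ _ (g1 _ _ (hγdef u v) (hγdef v w)) (hγdef u w) ?_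
    intro a
    apply PowerSeries.map_injective (algebraMap (F k) K) (algebraMap (F k) K).injective
    rw [AlgEquiv.mul_apply, hγ, hγ, hγ, ← AlgEquiv.mul_apply, hg.coc]
  · intro u v i j m
    refine h4 k r C u v _ ?_
    intro O hO hu hv
    exact (h3 k r n C K hn hR u v (g u v) (γ u v) (hg.isDef u v) (hγdef u v) (hg.pre u v) (hγ u v) O hO hu hv).2 i j m

end Pool.Agent.Lib.MP_4318ff_ag
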