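import Pool.Agent.Lib.MP_4318ff_ag.Spec.N

set_option autoImplicit false

namespace Pool.Agent.Lib.MP_4318ff_ag

open PowerSeries

private theorem NTw_X {k K : Type} [Field k] [Field K] [Algebra k K] (σ : PowerSeries K ≃ₐ[k] PowerSeries K)
    (hσ : IsDef σ) (m : ℕ) (h : PowerSeries K) : σ (X ^ m * h) = X ^ m * σ h := by
  rw [map_mul, map_pow, hσ.1]

private theorem NTw_mul {k L : Type} [Field k] [Field L] [Algebra k L] (A : Subalgebra k L) (f g : PowerSeries L)
    (hf : ∀ m, coeff m f ∈ A) (hg : ∀ m, coeff m g ∈ A) (m : ℕ) : coeff m (f * g) ∈ A := by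
  rw [coeff_mul]
  exact A.sum_mem fun p _ => A.mul_mem (hf _) (hg _)

private def NTw_P {k : Type} [Field k] {r : ℕ} (C : Config k r)
    (γ : Chart C → Chart C → (PowerSeries (F k) ≃ₐ[k] PowerSeries (F k)))
    (Φ : Chart C → Chart C → PowerSeries (F k)) (m : ℕ) (a : Chart C → PowerSeries (F k)) : Prop :=
  (∀ u, constantCoeff (a u) = 1) ∧ (∀ u j, coeff j (a u) ∈ u.R) ∧
    ∀ u v, (X : PowerSeries (F k)) ^ m ∣ a u - Φ u v * γ u v (a v)

private theorem NTw_step (h2 : NH1OStmt) {k : Type} [Field k] [IsAlgClosed k] {r : ℕ} (C : Config k r) (P : Pt k)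
    (hP : P ∈ C.M) (γ : Chart C → Chart C → (PowerSeries (F k) ≃ₐ[k] PowerSeries (F k))) (hγ : IsLogDef C γ)
    (Φ : Chart C → Chart C → PowerSeries (F k)) (hΦ : ∀ u v, constantCoeff (Φ u v) = 1)
    (hΦR : ∀ u v m, coeff m (Φ u v) ∈ u.R ⊔ v.R) (hΦc : ∀ u v w, Φ u w = Φ u v * γ u v (Φ v w))
    (m : ℕ) (hm : 0 < m) (a : Chart C → PowerSeries (F k)) (ha : NTw_P C γ Φ m a) :
    ∃ a' : Chart C → PowerSeries (F k), NTw_P C γ Φ (m + 1) a' ∧
      ∀ u, (X : PowerSeries (F k)) ^ m ∣ a' u - a u := by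
  obtain ⟨ha1, haR, had⟩ := ha
  have hb : ∀ u v, coeff m (a u - Φ u v * γ u v (a v)) ∈ u.R ⊔ v.R := by
    intro u v
    rw [map_sub]
    refine Subalgebra.sub_mem _ ((le_sup_left : u.R ≤ u.R ⊔ v.R) (haR u m)) ?_
    refine NTw_mul _ _ _ (hΦR u v) ?_ m
    exact hγ.pre u v (a v) fun j => (le_sup_right : v.R ≤ u.R ⊔ v.R) (haR v j)
  have hδ : ∀ u v w, a u - Φ u w * γ u w (a w) =
      (a u - Φ u v * γ u v (a v)) + Φ u v * γ u v (a v - Φ v w * γ v w (a w)) := by
    intro u v w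
    have e1 : γ u w (a w) = γ u v (γ v w (a w)) := by
      rw [← hγ.coc u v w]; rfl
    rw [hΦc u v w, e1, map_sub, map_mul]
    ring
  have hcc : ∀ u v (f : PowerSeries (F k)), (X : PowerSeries (F k)) ^ m ∣ f →
      coeff m (Φ u v * γ u v f) = coeff m f := by
    rintro u v f ⟨g, rfl⟩
    rw [NTw_X _ (hγ.isDef u v), ← mul_assoc, mul_comm (Φ u v), mul_assoc]
    have e1 := coeff_X_pow_mul (Φ u v * γ u v g) m 0
    have e2 := coeff_X_pow_mul g m 0
    rw [zero_add] at e1 e2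
    rw [e1, e2, coeff_zero_eq_constantCoeff_apply, coeff_zero_eq_constantCoeff_apply, map_mul, hΦ, one_mul,
      (hγ.isDef u v).2]
  obtain ⟨x, hx, hbx⟩ := h2 k r C P hP (fun u v => coeff m (a u - Φ u v * γ u v (a v))) hb (by
    intro u v w
    rw [hδ u v w, map_add, hcc u v _ (had v w)])
  have hXm : ∀ y : F k, (PowerSeries.C y * X ^ m : PowerSeries (F k)) = X ^ m * PowerSeries.C y := fun y => mul_comm _ _
  refine ⟨fun u => a u + PowerSeries.C (x u) * X ^ m, ⟨?_, ?_, ?_⟩, ?_⟩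
  · intro u
    rw [map_add, ha1, map_mul, map_pow, constantCoeff_X, zero_pow hm.ne', mul_zero, add_zero]
  · intro u j
    rw [map_add, coeff_C_mul, coeff_X_pow]
    refine Subalgebra.add_mem _ (haR u j) (Subalgebra.mul_mem _ (hx u) ?_)
    split_ifs
    · exact Subalgebra.one_mem _
    · exact Subalgebra.zero_mem _
  · intro u v
    have e : a u + PowerSeries.C (x u) * X ^ m - Φ u v * γ u v (a v + PowerSeries.C (x v) * X ^ m) =
        (a u - Φ u v * γ u v (a v)) + X ^ m * PowerSeries.C (x u) - Φ u v * γ u v (X ^ m * PowerSeries.C (x v)) := by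
      rw [map_add, hXm, hXm]
      ring
    show (X : PowerSeries (F k)) ^ (m + 1) ∣ a u + PowerSeries.C (x u) * X ^ m -
      Φ u v * γ u v (a v + PowerSeries.C (x v) * X ^ m)
    rw [e, X_pow_dvd_iff]
    intro j hj
    have hd1 := had u v
    rcases Nat.lt_succ_iff_lt_or_eq.1 hj with hj | rfl
    · have d1 : coeff j (a u - Φ u v * γ u v (a v)) = 0 := (X_pow_dvd_iff.1 hd1) j hj
      have d2 : coeff j (X ^ m * PowerSeries.C (x u) : PowerSeries (F k)) = 0 :=
        (X_pow_dvd_iff.1 (dvd_mul_right _ _)) j hj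
      have d3 : coeff j (Φ u v * γ u v (X ^ m * PowerSeries.C (x v))) = 0 := by
        rw [NTw_X _ (hγ.isDef u v)]
        exact (X_pow_dvd_iff.1 (Dvd.intro_left (Φ u v * γ u v (PowerSeries.C (x v))) (by ring))) j hj
      rw [map_sub, map_add, d1, d2, d3]
      ring
    · have e1 := coeff_X_pow_mul (PowerSeries.C (x u) : PowerSeries (F k)) j 0
      have e2 := coeff_X_pow_mul (PowerSeries.C (x v) : PowerSeries (F k)) j 0
      rw [zero_add] at e1 e2
      rw [map_sub, map_add, hcc u v _ (dvd_mul_right _ _), e1, e2, hbx, coeff_zero_C, coeff_zero_C]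
      ring
  · intro u
    refine ⟨PowerSeries.C (x u), ?_⟩
    show a u + PowerSeries.C (x u) * X ^ m - a u = X ^ m * PowerSeries.C (x u)
    ring

theorem tNTw (_ : NGrpStmt) (h2 : NH1OStmt) : NTwStmt := by
  classical
  intro k _ _ r C P hP γ hγ Φ hΦ hΦR hΦc
  have h0 : NTw_P C γ Φ 1 (fun _ => 1) := by
    refine ⟨fun u => map_one _, fun u j => ?_, fun u v => ?_⟩
    · rw [coeff_one]
      split_ifs
      · exact Subalgebra.one_mem _
      · exact Subalgebra.zero_mem _
    · rw [pow_one, X_dvd_iff, map_one, mul_one, map_sub, map_one, hΦ, sub_self]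
  have hstep := NTw_step h2 C P hP γ hγ Φ hΦ hΦR hΦc
  choose! nxt hn1 hn2 using hstep
  let s : ℕ → Chart C → PowerSeries (F k) := fun n => Nat.rec (fun _ => 1) (fun n a => nxt (n + 1) a) n
  have hs0 : s 0 = fun _ => 1 := rfl
  have hs1 : ∀ n, s (n + 1) = nxt (n + 1) (s n) := fun n => rfl
  have hsP : ∀ n, NTw_P C γ Φ (n + 1) (s n) := by
    intro n
    induction n with
    | zero => exact h0
    | succ n ih => rw [hs1]; exact hn1 (n + 1) (Nat.succ_pos n) _ ih
  have hss : ∀ n u, (X : PowerSeries (F k)) ^ (n + 1) ∣ s (n + 1) u - s n u := by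
    intro n u
    rw [hs1]
    exact hn2 (n + 1) (Nat.succ_pos n) _ (hsP n) u
  have hst : ∀ j n u, j ≤ n → coeff j (s n u) = coeff j (s j u) := by
    intro j n u hjn
    induction n, hjn using Nat.le_induction with
    | base => rfl
    | succ n hjn ih =>
      rw [← ih]
      have := (X_pow_dvd_iff.1 (hss n u)) j (Nat.lt_succ_of_le hjn)
      rw [map_sub, sub_eq_zero] at this
      exact this
  let E : Chart C → PowerSeries (F k) := fun u => PowerSeries.mk fun j => coeff j (s j u)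
  have hE : ∀ n u, (X : PowerSeries (F k)) ^ (n + 1) ∣ E u - s n u := by
    intro n u
    rw [X_pow_dvd_iff]
    intro j hj
    rw [map_sub, coeff_mk, hst j n u (Nat.lt_succ_iff.1 hj), sub_self]
  refine ⟨E, fun u => ?_, fun u m => ?_, fun u v => ?_⟩
  · rw [← coeff_zero_eq_constantCoeff_apply, coeff_mk, coeff_zero_eq_constantCoeff_apply]
    exact (hsP 0).1 u
  · rw [coeff_mk]
    exact (hsP m).2.1 u m
  · ext j
    obtain ⟨g, hg⟩ := hE j v
    have e1 : coeff j (E u) = coeff j (s j u) := coeff_mk _ _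
    have e2 : coeff j (s j u) = coeff j (Φ u v * γ u v (s j v)) := by
      have := (X_pow_dvd_iff.1 ((hsP j).2.2 u v)) j (Nat.lt_succ_self j)
      rw [map_sub, sub_eq_zero] at this
      exact this
    have e3 : E v = s j v + X ^ (j + 1) * g := by rw [← hg]; ring
    rw [e1, e2, e3, map_add, NTw_X _ (hγ.isDef u v), mul_add, map_add]
    have e4 : coeff j (Φ u v * (X ^ (j + 1) * γ u v g)) = 0 :=
      (X_pow_dvd_iff.1 (show (X : PowerSeries (F k)) ^ (j + 1) ∣ _ from
        Dvd.intro_left (Φ u v * γ u v g) (by ring))) j (Nat.lt_succ_self j)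
    rw [e4, add_zero]

end Pool.Agent.Lib.MP_4318ff_ag
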