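import Pool.Agent.Lib.MP_4318ff_ag.Spec.N

/-!
# MP_4318ff_ag, part N: uniqueness of extensions
-/

set_option autoImplicit false

namespace Pool.Agent.Lib.MP_4318ff_ag

private theorem NUniq_K {k : Type} [Field k] [CharZero k] {K : Type} [Field K] [Algebra (F k) K] [Algebra k K]
    [IsScalarTower k (F k) K] [FiniteDimensional (F k) K] (D : Derivation k K K)
    (hF : ∀ f : F k, D (algebraMap (F k) K f) = 0) (y : K) : D y = 0 := by
  have : CharZero (F k) := charZero_of_injective_algebraMap (algebraMap k (F k)).injective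
  have hlin : ∀ (f : F k) (x : K), D (f • x) = f • D x := by
    intro f x
    rw [Algebra.smul_def, D.leibniz, hF f, smul_zero, add_zero, smul_eq_mul, ← Algebra.smul_def]
  let L : K →ₗ[F k] K :=
    { toFun := D
      map_add' := fun a b => map_add D a b
      map_smul' := fun f x => hlin f x }
  let D' : Derivation (F k) K K := Derivation.mk' L (fun a b => D.leibniz a b)
  have h1 : D' y = D y := rfl
  have h2 := D'.map_aeval (minpoly (F k) y) y
  rw [minpoly.aeval, map_zero] at h2
  have h3 : Polynomial.aeval y (Polynomial.derivative (minpoly (F k) y)) ≠ 0 :=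
    (Algebra.IsSeparable.isSeparable (F k) y).aeval_derivative_ne_zero (minpoly.aeval _ _)
  rw [← h1]
  exact (smul_eq_zero.1 h2.symm).resolve_left h3

theorem tNUniq (h1 : NGrpStmt) (h2 : NLeadStmt) : NUniqStmt := by
  intro k _ _ K _ _ _ _ _ σ hσ hF
  have hcong : ∀ m, Cong m σ := by
    intro m
    induction m with
    | zero => exact fun a j _ hj => absurd hj (Nat.not_lt_zero j)
    | succ m ih =>
      intro a j hj0 hj
      rcases Nat.lt_or_ge j m with hjm | hjm
      · exact ih a j hj0 hjm
      · have hjm' : j = m := by omega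
        subst hjm'
        obtain ⟨⟨D, hD⟩, -⟩ := h2 k K j hj0 σ hσ ih
        rw [hD]
        apply NUniq_K D
        intro f
        rw [← hD, hF, PowerSeries.coeff_C]
        exact if_neg (by omega)
  obtain ⟨-, -, -, -, -, h6, -, -⟩ := h1 k K
  have hone : IsDef (1 : PowerSeries K ≃ₐ[k] PowerSeries K) := ⟨rfl, fun f => rfl⟩
  apply h6 σ 1 hσ hone
  intro a
  ext j
  rcases Nat.eq_zero_or_pos j with hj | hj
  · subst hj
    rw [PowerSeries.coeff_zero_eq_constantCoeff_apply, PowerSeries.coeff_zero_eq_constantCoeff_apply]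
    exact hσ.2 _
  · rw [hcong (j + 1) a j hj (Nat.lt_succ_self j)]
    show 0 = PowerSeries.coeff j (PowerSeries.C a)
    rw [PowerSeries.coeff_C, if_neg (by omega)]

end Pool.Agent.Lib.MP_4318ff_ag
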