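import Pool.Agent.Lib.MP_4318ff_ag.Spec.N

/-!
# MP_4318ff_ag, part N: quotients of power series with coefficients in a ring
-/

set_option autoImplicit false

namespace Pool.Agent.Lib.MP_4318ff_ag

theorem tNUnit : NUnitStmt := by
  intro K _ A f g h hi h0 hh hf hgh m
  induction m using Nat.strong_induction_on with
  | _ m ih =>
    have h1 : PowerSeries.coeff m f = PowerSeries.coeff m g * PowerSeries.constantCoeff h +
        ∑ p ∈ (Finset.HasAntidiagonal.antidiagonal m).erase (m, 0), PowerSeries.coeff p.1 g * PowerSeries.coeff p.2 h := by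
      rw [← hgh, PowerSeries.coeff_mul, ← Finset.add_sum_erase _ _ (show (m, 0) ∈ Finset.HasAntidiagonal.antidiagonal m by simp)]
      simp
    have h2 : (∑ p ∈ (Finset.HasAntidiagonal.antidiagonal m).erase (m, 0), PowerSeries.coeff p.1 g * PowerSeries.coeff p.2 h) ∈ A := by
      apply A.sum_mem
      intro p hp
      obtain ⟨hp1, hp2⟩ := Finset.mem_erase.1 hp
      have hp3 := Finset.HasAntidiagonal.mem_antidiagonal.1 hp2
      refine A.mul_mem (ih p.1 ?_) (hh p.2)
      rcases Nat.lt_or_ge p.1 m with h3 | h3
      · exact h3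
      · exfalso
        apply hp1
        ext
        · show p.1 = m
          omega
        · show p.2 = 0
          omega
    have h3 : PowerSeries.coeff m g = (PowerSeries.coeff m f -
        ∑ p ∈ (Finset.HasAntidiagonal.antidiagonal m).erase (m, 0), PowerSeries.coeff p.1 g * PowerSeries.coeff p.2 h) *
        (PowerSeries.constantCoeff h)⁻¹ := by
      rw [h1, add_sub_cancel_right, mul_assoc, mul_inv_cancel₀ h0, mul_one]
    rw [h3]
    exact A.mul_mem (A.sub_mem (hf m) h2) hi

end Pool.Agent.Lib.MP_4318ff_ag
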