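import Pool.Agent.Lib.MP_4318ff_ag.Spec.N

/-!
# MP_4318ff_ag, module N/NEqui: every formal deformation can be made `F`-rational
-/

set_option autoImplicit false

namespace Pool.Agent.Lib.MP_4318ff_ag

open scoped LinearAlgebra.Projectivization

private theorem NEqui_one {k K : Type} [Field k] [Field K] [Algebra k K] :
    IsDef (1 : PowerSeries K ≃ₐ[k] PowerSeries K) := by
  refine ⟨rfl, fun f => rfl⟩

private theorem NEqui_preone {k K : Type} [Field k] [Field K] [Algebra k K] (A : Set K) :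
    Pre A (1 : PowerSeries K ≃ₐ[k] PowerSeries K) := by
  intro f hf m
  exact hf m

/-- Congruent series have congruent images. -/
private theorem NEqui_cong (hG : NGrpStmt) {k K : Type} [Field k] [Field K] [Algebra k K]
    (σ : PowerSeries K ≃ₐ[k] PowerSeries K) (hσ : IsDef σ) (f g : PowerSeries K) (m : ℕ)
    (h : ∀ j < m, PowerSeries.coeff j f = PowerSeries.coeff j g) :
    ∀ j < m, PowerSeries.coeff j (σ f) = PowerSeries.coeff j (σ g) := by
  have h1 : PowerSeries.X ^ m ∣ f - g := by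
    rw [PowerSeries.X_pow_dvd_iff]
    intro j hj
    rw [map_sub, h j hj, sub_self]
  have h2 := (hG k K).2.2.2.2.1 σ hσ (f - g) m h1
  rw [map_sub, PowerSeries.X_pow_dvd_iff] at h2
  intro j hj
  have h3 := h2 j hj
  rw [map_sub] at h3
  exact sub_eq_zero.mp h3

private def NEqui_P {k : Type} [Field k] {r : ℕ} (C : Config k r) (K : Type) [Field K] [Algebra (F k) K] [Algebra k K]
    (g : Chart C → Chart C → (PowerSeries K ≃ₐ[k] PowerSeries K)) (m : ℕ)
    (h : Chart C → (PowerSeries K ≃ₐ[k] PowerSeries K)) : Prop :=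
  (∀ u, IsDef (h u) ∧ Pre (u.A K : Set K) (h u)) ∧ ∀ u v, RatBelow (m + 1) (h u * g u v * (h v)⁻¹)

private theorem NEqui_coc (hG : NGrpStmt) (hL : NLocStmt) {k : Type} [Field k] {r : ℕ} (C : Config k r) (K : Type)
    [Field K] [Algebra (F k) K] [Algebra k K] [IsScalarTower k (F k) K]
    (g : Chart C → Chart C → (PowerSeries K ≃ₐ[k] PowerSeries K)) (hg : IsDefCocycle C K g)
    (h : Chart C → (PowerSeries K ≃ₐ[k] PowerSeries K)) (hh : ∀ u, IsDef (h u) ∧ Pre (u.A K : Set K) (h u)) :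
    IsDefCocycle C K (fun u v => h u * g u v * (h v)⁻¹) := by
  obtain ⟨g1, g2, g3, g4, -⟩ := hG k K
  refine ⟨?_, ?_, ?_⟩
  · intro u v
    exact g1 _ _ (g1 _ _ (hh u).1 (hg.isDef u v)) (g2 _ (hh v).1)
  · intro u v
    have h1 : Pre ((u.A K ⊔ v.A K : Subring K) : Set K) (h u) := (hL k r C K u v).1 (h u) (hh u).1 (hh u).2
    have h2 : Pre ((v.A K ⊔ u.A K : Subring K) : Set K) (h v) := (hL k r C K v u).1 (h v) (hh v).1 (hh v).2
    rw [sup_comm] at h2
    exact g3 _ _ _ (g3 _ _ _ h1 (hg.pre u v)) (g4 _ _ (hh v).1 h2)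
  · intro u v w
    have h1 := hg.coc u v w
    change h u * g u v * (h v)⁻¹ * (h v * g v w * (h w)⁻¹) = h u * g u w * (h w)⁻¹
    rw [← h1]
    group

private theorem NEqui_step (hG : NGrpStmt) (hD : NLeadStmt) (hL : NLocStmt) (hS : NStepStmt) {k : Type} [Field k]
    [CharZero k] [IsAlgClosed k] {r n : ℕ} (C : Config k r) (hE : EtFFor C n) (K : Type) [Field K] [Algebra (F k) K] [Algebra k K] [IsScalarTower k (F k) K]
    (hK : IsEtaleCover C n K) (g : Chart C → Chart C → (PowerSeries K ≃ₐ[k] PowerSeries K))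
    (hg : IsDefCocycle C K g) (m : ℕ) (h : Chart C → (PowerSeries K ≃ₐ[k] PowerSeries K))
    (hh : NEqui_P C K g m h) :
    ∃ h' : Chart C → (PowerSeries K ≃ₐ[k] PowerSeries K), NEqui_P C K g (m + 1) h' ∧
      ∀ (u : Chart C) (f : PowerSeries K) (j : ℕ), j < m + 1 →
        PowerSeries.coeff j (h' u f) = PowerSeries.coeff j (h u f) := by
  obtain ⟨g1, g2, g3, g4, -⟩ := hG k K
  obtain ⟨τ, ht1, ht2⟩ := hS k r n C hE K hK (fun u v => h u * g u v * (h v)⁻¹)
    (NEqui_coc hG hL C K g hg h hh.1) (m + 1) (Nat.succ_pos m) hh.2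
  refine ⟨fun u => τ u * h u, ⟨?_, ?_⟩, ?_⟩
  · intro u
    exact ⟨g1 _ _ (ht1 u).1 (hh.1 u).1, g3 _ _ _ (ht1 u).2.1 (hh.1 u).2⟩
  · intro u v
    have h1 : τ u * h u * g u v * (τ v * h v)⁻¹ = τ u * (h u * g u v * (h v)⁻¹) * (τ v)⁻¹ := by
      group
    change RatBelow (m + 1 + 1) (τ u * h u * g u v * (τ v * h v)⁻¹)
    rw [h1]
    exact ht2 u v
  · intro u f j hj
    exact (hD k K (m + 1) (Nat.succ_pos m) (τ u) (ht1 u).1 (ht1 u).2.2).2.2.2.1 (h u f) j hj

theorem tNEqui (hG : NGrpStmt) (hD : NLeadStmt) (hM : NLimStmt) (hL : NLocStmt) (hS : NStepStmt) : NEquiStmt := by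
  intro k _ _ _ r n C hE K _ _ _ _ hK g hg
  obtain ⟨g1, g2, g3, g4, -, -, -, g8⟩ := hG k K
  have h0 : NEqui_P C K g 0 (fun _ => 1) := by
    refine ⟨fun u => ⟨NEqui_one, NEqui_preone _⟩, ?_⟩
    intro u v f j hj
    have hj0 : j = 0 := by omega
    subst hj0
    refine ⟨f, ?_⟩
    change _ = PowerSeries.coeff 0 (g u v (PowerSeries.C (algebraMap (F k) K f)))
    rw [PowerSeries.coeff_zero_eq_constantCoeff_apply, (hg.isDef u v).2]
    simp
  choose! nx hnx using fun (m : ℕ) (h : Chart C → (PowerSeries K ≃ₐ[k] PowerSeries K)) (hh : NEqui_P C K g m h) =>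
    NEqui_step hG hD hL hS C hE K hK g hg m h hh
  let s : ℕ → (Chart C → (PowerSeries K ≃ₐ[k] PowerSeries K)) := fun m => Nat.rec (fun _ => 1) (fun m h => nx m h) m
  have hs0 : s 0 = fun _ => 1 := rfl
  have hsS : ∀ m, s (m + 1) = nx m (s m) := fun m => rfl
  have hs : ∀ m, NEqui_P C K g m (s m) := by
    intro m
    induction m with
    | zero => exact h0
    | succ m ih => rw [hsS]; exact (hnx m (s m) ih).1
  have hst : ∀ (m : ℕ) (u : Chart C) (f : PowerSeries K) (j : ℕ), j < m + 1 →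
      PowerSeries.coeff j (s (m + 1) u f) = PowerSeries.coeff j (s m u f) := by
    intro m u f j hj
    rw [hsS]
    exact (hnx m (s m) (hs m)).2 u f j hj
  choose h hh1 hh2 hh3 hh4 using fun u : Chart C => hM k K (fun m => s m u) (fun m => ((hs m).1 u).1)
    (fun m a j hj => hst m u (PowerSeries.C a) j (by omega))
  have hpre : ∀ u, Pre (u.A K : Set K) (h u) := fun u => hh4 u _ (fun m => ((hs m).1 u).2)
  refine ⟨h, fun u => ⟨hh1 u, hpre u⟩, ?_⟩
  intro u v
  have hdef : IsDef (h u * g u v * (h v)⁻¹) := g1 _ _ (g1 _ _ (hh1 u) (hg.isDef u v)) (g2 _ (hh1 v))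
  have hA8 := g8 (algebraMap (F k) K).range (h u * g u v * (h v)⁻¹) hdef ?_
  · rwa [RingHom.coe_range] at hA8
  rintro a ⟨f, rfl⟩ m
  have hr1 := (hs (m + 1)).2 u v f m (by omega)
  have e1 : PowerSeries.coeff m ((h u * g u v * (h v)⁻¹) (PowerSeries.C (algebraMap (F k) K f))) =
      PowerSeries.coeff m ((s (m + 1) u * g u v * (s (m + 1) v)⁻¹) (PowerSeries.C (algebraMap (F k) K f))) := by
    change PowerSeries.coeff m (h u (g u v ((h v)⁻¹ (PowerSeries.C (algebraMap (F k) K f))))) =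
      PowerSeries.coeff m (s (m + 1) u (g u v ((s (m + 1) v)⁻¹ (PowerSeries.C (algebraMap (F k) K f)))))
    rw [hh2 u (m + 1) _ m (by omega)]
    refine NEqui_cong hG (s (m + 1) u) ((hs (m + 1)).1 u).1 _ _ (m + 1) ?_ m (by omega)
    refine NEqui_cong hG (g u v) (hg.isDef u v) _ _ (m + 1) ?_
    intro j hj
    exact hh3 v (m + 1) _ j hj
  rw [e1]
  exact hr1

end Pool.Agent.Lib.MP_4318ff_ag
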