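import Pool.Agent.Lib.MP_4318ff_ag.Spec.N

/-!
# MP_4318ff_ag, module N/NEta: straightening the arc
-/

set_option autoImplicit false

namespace Pool.Agent.Lib.MP_4318ff_ag

open scoped LinearAlgebra.Projectivization

/-- `σ` fixes the power series with coefficients in `k`. -/
private theorem NEta_fix {k K : Type} [Field k] [Field K] [Algebra k K] (σ : PowerSeries K ≃ₐ[k] PowerSeries K)
    (h : IsDef σ) (c : PowerSeries k) :
    σ (PowerSeries.map (algebraMap k K) c) = PowerSeries.map (algebraMap k K) c := by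
  have hX : ∀ (m : ℕ) (f : PowerSeries K), σ (PowerSeries.X ^ m * f) = PowerSeries.X ^ m * σ f := by
    intro m f
    rw [map_mul, map_pow, h.1]
  have hC : ∀ a : k, σ (PowerSeries.C (algebraMap k K a)) = PowerSeries.C (algebraMap k K a) := by
    intro a
    rw [← PowerSeries.algebraMap_apply, AlgEquiv.commutes]
  have key : ∀ (m : ℕ) (c : PowerSeries k), ∀ j < m,
      PowerSeries.coeff j (σ (PowerSeries.map (algebraMap k K) c)) =
        PowerSeries.coeff j (PowerSeries.map (algebraMap k K) c) := by
    intro m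
    induction m with
    | zero => intro c j hj; exact absurd hj (Nat.not_lt_zero j)
    | succ m ih =>
      intro c j hj
      obtain ⟨d, hd⟩ : ∃ d : PowerSeries k, c = PowerSeries.C (PowerSeries.constantCoeff c) + PowerSeries.X * d := by
        have h1 : PowerSeries.X ∣ c - PowerSeries.C (PowerSeries.constantCoeff c) := by
          rw [PowerSeries.X_dvd_iff]
          simp
        obtain ⟨d, hd⟩ := h1
        exact ⟨d, by rw [← hd]; ring⟩
      rw [hd]
      simp only [map_add, map_mul, PowerSeries.map_C, PowerSeries.map_X, hC, h.1]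
      congr 1
      rcases j with _ | j
      · simp
      · rw [PowerSeries.coeff_succ_X_mul, PowerSeries.coeff_succ_X_mul]
        exact ih d j (by omega)
  ext j
  exact key (j + 1) c j (Nat.lt_succ_self j)

theorem tNEta (_ : NUnitStmt) (hArc : NArcStmt) : NEtaStmt := by
  intro k _ _ r C P₀ hP₀ hr hrig γ hγ i₀
  obtain ⟨L, ξ, hL0, hLdet, hξ, hξ0, hξR⟩ := hArc k r C P₀ hP₀ hr γ hγ i₀
  obtain ⟨g, s, hg, hs, hLg⟩ := hrig L hL0 hLdet
  set g0 : Matrix (Fin 3) (Fin 3) k := g.map (PowerSeries.constantCoeff (R := k)) with hg0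
  have hdet : IsUnit g0.det := by
    have h1 : g0.det = PowerSeries.constantCoeff g.det := by
      rw [hg0]
      exact (RingHom.map_det (PowerSeries.constantCoeff (R := k)) g).symm
    rw [h1]
    exact hg.map _
  -- constant coefficients: `ℓ_i = s_i(0) ℓ_i g(0)`
  have hℓ : ∀ i, C.ℓ i = PowerSeries.constantCoeff (s i) • Matrix.vecMul (C.ℓ i) g0 := by
    intro i
    funext a
    rw [← hL0 i a, hLg i]
    simp only [Pi.smul_apply, smul_eq_mul, map_mul, Matrix.vecMul, dotProduct, map_sum,
      PowerSeries.constantCoeff_C, hg0, Matrix.map_apply]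
  -- `ℓ_i g(0)⁻¹ = s_i(0) ℓ_i`
  have hℓ' : ∀ i, Matrix.vecMul (C.ℓ i) g0⁻¹ = PowerSeries.constantCoeff (s i) • C.ℓ i := by
    intro i
    conv_lhs => rw [hℓ i]
    rw [Matrix.smul_vecMul, Matrix.vecMul_vecMul, Matrix.mul_nonsing_inv _ hdet, Matrix.vecMul_one]
  set g' : Matrix (Fin 3) (Fin 3) (PowerSeries k) := (g0⁻¹).map (PowerSeries.C (R := k)) * g with hg'
  choose s' hs' using fun i => (hs i).exists_right_inv
  -- `ℓ_i g' = s_i(0) s_i⁻¹ L_i`
  have hrow : ∀ i b, ∑ a, PowerSeries.C (C.ℓ i a) * g' a b =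
      PowerSeries.C (PowerSeries.constantCoeff (s i)) * s' i * L i b := by
    intro i b
    have h1 : Matrix.vecMul (fun a => PowerSeries.C (C.ℓ i a)) g' =
        Matrix.vecMul (fun a => PowerSeries.C (PowerSeries.constantCoeff (s i) * C.ℓ i a)) g := by
      rw [hg', ← Matrix.vecMul_vecMul]
      congr 1
      funext a
      have h2 := congrFun (hℓ' i) a
      simp only [Matrix.vecMul, dotProduct, Pi.smul_apply, smul_eq_mul] at h2
      simp only [Matrix.vecMul, dotProduct, Matrix.map_apply]
      rw [← h2, map_sum]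
      simp only [map_mul]
    have h3 : ∑ a, PowerSeries.C (C.ℓ i a) * g' a b = Matrix.vecMul (fun a => PowerSeries.C (C.ℓ i a)) g' b := rfl
    rw [h3, h1, hLg i]
    simp only [Matrix.vecMul, dotProduct, Pi.smul_apply, smul_eq_mul, map_mul, Finset.mul_sum]
    refine Finset.sum_congr rfl fun a _ => ?_
    linear_combination (-(PowerSeries.C (PowerSeries.constantCoeff (s i)) * PowerSeries.C (C.ℓ i a) * g a b)) * hs' i
  have hg'0 : ∀ a b, PowerSeries.constantCoeff (g' a b) = if a = b then 1 else 0 := by
    intro a b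
    have h1 : PowerSeries.constantCoeff (g' a b) = (g0⁻¹ * g0) a b := by
      rw [hg', Matrix.mul_apply, Matrix.mul_apply, map_sum]
      refine Finset.sum_congr rfl fun c _ => ?_
      rw [map_mul, Matrix.map_apply, PowerSeries.constantCoeff_C, hg0, Matrix.map_apply]
    rw [h1, Matrix.nonsing_inv_mul _ hdet, Matrix.one_apply]
  refine ⟨fun u a => ∑ b, PowerSeries.map (algebraMap k (F k)) (g' a b) * ξ u b, ?_, ?_, ?_⟩
  · intro u v a
    rw [map_sum]
    refine Finset.sum_congr rfl fun b _ => ?_
    rw [map_mul, NEta_fix (γ u v) (hγ.isDef u v), hξ]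
  · intro u a
    rw [map_sum]
    simp only [map_mul, hξ0]
    rw [Finset.sum_eq_single a]
    · have h1 : PowerSeries.constantCoeff (PowerSeries.map (algebraMap k (F k)) (g' a a)) = 1 := by
        rw [← PowerSeries.coeff_zero_eq_constantCoeff_apply, PowerSeries.coeff_map,
          PowerSeries.coeff_zero_eq_constantCoeff_apply, hg'0, if_pos rfl, map_one]
      rw [h1, one_mul]
    · intro b _ hb
      have h1 : PowerSeries.constantCoeff (PowerSeries.map (algebraMap k (F k)) (g' a b)) = 0 := by
        rw [← PowerSeries.coeff_zero_eq_constantCoeff_apply, PowerSeries.coeff_map,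
          PowerSeries.coeff_zero_eq_constantCoeff_apply, hg'0, if_neg hb.symm, map_zero]
      rw [h1, zero_mul]
    · intro ha
      exact absurd (Finset.mem_univ a) ha
  · intro u i m
    have h1 : ∑ a, PowerSeries.C (algebraMap k (F k) (C.ℓ i a)) *
        ∑ b, PowerSeries.map (algebraMap k (F k)) (g' a b) * ξ u b =
        PowerSeries.map (algebraMap k (F k)) (PowerSeries.C (PowerSeries.constantCoeff (s i)) * s' i) *
          ∑ b, PowerSeries.map (algebraMap k (F k)) (L i b) * ξ u b := by
      rw [Finset.mul_sum]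
      simp only [Finset.mul_sum]
      rw [Finset.sum_comm]
      refine Finset.sum_congr rfl fun b _ => ?_
      rw [← mul_assoc, ← map_mul, ← hrow i b, map_sum, Finset.sum_mul]
      refine Finset.sum_congr rfl fun a _ => ?_
      rw [map_mul, PowerSeries.map_C, mul_assoc]
    rw [h1, PowerSeries.coeff_mul, Finset.sum_mul]
    refine sum_mem fun p _ => ?_
    rw [mul_assoc, PowerSeries.coeff_map]
    exact mul_mem (u.R.algebraMap_mem _) (hξR u i p.2)

end Pool.Agent.Lib.MP_4318ff_ag
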